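import Pool.Agent.H38.HD.Cnt1

/-!
The four cells of one block.
-/

set_option autoImplicit false

open Finset

namespace H38.HF

/-- the conditions on one element of `F` -/
def QuadOk (X : ℕ) (A B C D : ℤ) (q : ℕ × ℕ × ℕ × ℕ) : Prop :=
  0 < q.1 ∧ q.1 ≤ X ∧ 0 < q.2.1 ∧ q.2.1 ≤ X ∧ 0 < q.2.2.1 ∧ q.2.2.1 ≤ X ∧
      0 < q.2.2.2 ∧ q.2.2.2 ≤ X ∧ Nat.Coprime q.1 q.2.1 ∧ Nat.Coprime q.2.2.1 q.2.2.2 ∧
      (q.1 : ℤ) ^ 2 * (A * (q.2.2.1 : ℤ) ^ 2 + B * (q.2.2.2 : ℤ) ^ 2) +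
        (q.2.1 : ℤ) ^ 2 * (C * (q.2.2.1 : ℤ) ^ 2 + D * (q.2.2.2 : ℤ) ^ 2) = 0

theorem quad_cop {u v u' v' : ℕ} (hu : Nat.Coprime u v) (hu' : Nat.Coprime u' v')
    (h : u * v' = v * u') (h0 : 0 < u) : u = u' ∧ v = v' := by
  have h1 : u ∣ u' := hu.dvd_of_dvd_mul_left (Dvd.intro _ h)
  have h2 : u' ∣ u := hu'.dvd_of_dvd_mul_right (Dvd.intro_left v h.symm)
  have h3 : u = u' := Nat.dvd_antisymm h1 h2
  refine ⟨h3, ?_⟩
  subst h3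
  rw [mul_comm v u] at h
  exact (Nat.eq_of_mul_eq_mul_left h0 h).symm

theorem quad_inj {X : ℕ} {A B C D : ℤ} (hdet : A * D - B * C ≠ 0)
    {q q' : ℕ × ℕ × ℕ × ℕ} (hq : QuadOk X A B C D q) (hq' : QuadOk X A B C D q')
    (hw : q.2.2.1 = q'.2.2.1) (hz : q.2.2.2 = q'.2.2.2) : q = q' := by
  obtain ⟨u, v, w, z⟩ := q
  obtain ⟨u', v', w', z'⟩ := q'
  simp only at hw hz
  subst hw hz
  obtain ⟨a1, -, a2, -, a3, -, a4, -, a5, -, a6⟩ := hq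
  obtain ⟨b1, -, b2, -, -, -, -, -, b5, -, b6⟩ := hq'
  simp only at a1 a2 a3 a4 a5 a6 b1 b2 b5 b6
  set r : ℤ := A * (w : ℤ) ^ 2 + B * (z : ℤ) ^ 2 with hr
  set s : ℤ := C * (w : ℤ) ^ 2 + D * (z : ℤ) ^ 2 with hs
  have hw0 : (w : ℤ) ^ 2 ≠ 0 := by positivity
  have hrs : ¬ (r = 0 ∧ s = 0) := by
    rintro ⟨h1, h2⟩
    have h3 : (A * D - B * C) * (w : ℤ) ^ 2 = D * r - B * s := by rw [hr, hs]; ring
    rw [h1, h2, mul_zero, mul_zero, sub_zero] at h3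
    rcases mul_eq_zero.1 h3 with h4 | h4
    · exact hdet h4
    · exact hw0 h4
  have hv0 : (v : ℤ) ^ 2 ≠ 0 := by positivity
  have hu0 : (u : ℤ) ^ 2 ≠ 0 := by positivity
  have hr0 : r ≠ 0 := by
    intro h
    rw [h, mul_zero, zero_add] at a6
    rcases mul_eq_zero.1 a6 with h1 | h1
    · exact hv0 h1
    · exact hrs ⟨h, h1⟩
  have hs0 : s ≠ 0 := by
    intro h
    rw [h, mul_zero, add_zero] at a6
    rcases mul_eq_zero.1 a6 with h1 | h1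
    · exact hu0 h1
    · exact hrs ⟨h1, h⟩
  have h1 : (r * s) * (((u * v' : ℕ) : ℤ) ^ 2) = (r * s) * (((v * u' : ℕ) : ℤ) ^ 2) := by
    push_cast
    have e1 : (u : ℤ) ^ 2 * r = -((v : ℤ) ^ 2 * s) := by linarith
    have e2 : (v' : ℤ) ^ 2 * s = -((u' : ℤ) ^ 2 * r) := by linarith
    calc (r * s) * (((u : ℤ) * v') ^ 2) = ((u : ℤ) ^ 2 * r) * ((v' : ℤ) ^ 2 * s) := by ring
      _ = (-((v : ℤ) ^ 2 * s)) * (-((u' : ℤ) ^ 2 * r)) := by rw [e1, e2]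
      _ = _ := by ring
  have h2 : (((u * v' : ℕ) : ℤ) ^ 2) = (((v * u' : ℕ) : ℤ) ^ 2) :=
    mul_left_cancel₀ (mul_ne_zero hr0 hs0) h1
  have h3 : (u * v') ^ 2 = (v * u') ^ 2 := by exact_mod_cast h2
  have h4 : u * v' = v * u' := Nat.pow_left_injective (by norm_num : 2 ≠ 0) h3
  obtain ⟨h5, h6⟩ := quad_cop a5 b5 h4 a1
  rw [h5, h6]

theorem quad_z (ε : ℝ) (hε : 0 < ε) : ∃ K : ℝ, 0 < K ∧ ∀ X : ℕ, 1 ≤ X → ∀ A B C D : ℤ,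
    |A| ≤ X → |B| ≤ X → |C| ≤ X → |D| ≤ X → A ≠ 0 → B ≠ 0 → C ≠ 0 → D ≠ 0 →
    A * D - B * C ≠ 0 → ∀ m : ℕ, ∀ F : Finset (ℕ × ℕ × ℕ × ℕ),
    (∀ q ∈ F, QuadOk X A B C D q) → (∀ q ∈ F, q.2.2.2 ≤ m) →
      (F.card : ℝ) ≤ K * (X : ℝ) ^ ε * m := by
  classical
  obtain ⟨K, hK, h⟩ := H38.HD.lemK H38.HD.rep ε hε
  refine ⟨K, hK, fun X hX A B C D hA hB hC hD hA0 hB0 hC0 hD0 hdet m F hF hm => ?_⟩
  have hfib : ∀ z ∈ Icc 1 m, (F.filter fun q => q.2.2.2 = z).card ≤ ⌊K * (X : ℝ) ^ ε⌋₊ := by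
    intro z hz
    rw [mem_Icc] at hz
    rcases (F.filter fun q => q.2.2.2 = z).eq_empty_or_nonempty with h0 | ⟨q0, hq0⟩
    · rw [h0, card_empty]; exact Nat.zero_le _
    · have hzX : z ≤ X := by
        rw [mem_filter] at hq0
        rw [← hq0.2]
        exact (hF q0 hq0.1).2.2.2.2.2.2.2.1
      apply Nat.le_floor
      have hinj : Set.InjOn (fun q : ℕ × ℕ × ℕ × ℕ => q.2.2.1)
          ((F.filter fun q => q.2.2.2 = z : Finset (ℕ × ℕ × ℕ × ℕ)) : Set (ℕ × ℕ × ℕ × ℕ)) := by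
        intro q hq q' hq' he
        rw [mem_coe, mem_filter] at hq hq'
        exact quad_inj hdet (hF q hq.1) (hF q' hq'.1) he (hq.2.trans hq'.2.symm)
      rw [← card_image_of_injOn hinj]
      refine h X hX A B C D (z : ℤ) hA hB hC hD (by exact_mod_cast hz.1) (by exact_mod_cast hzX)
        hdet (fun h => hA0 h.1) (fun h => hB0 h.1) _ ?_
      intro w hw
      rw [mem_image] at hw
      obtain ⟨q, hq, rfl⟩ := hw
      rw [mem_filter] at hq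
      obtain ⟨hq1, rfl⟩ := hq
      obtain ⟨a1, a1', a2, a2', a3, a3', a4, a4', a5, a5', a6⟩ := hF q hq1
      exact ⟨a3, a3', Nat.isCoprime_iff_coprime.2 a5', (q.1 : ℤ), (q.2.1 : ℤ),
        by exact_mod_cast a1, by exact_mod_cast a1', by exact_mod_cast a2, by exact_mod_cast a2',
        Nat.isCoprime_iff_coprime.2 a5, a6⟩
  have hc : F.card ≤ ⌊K * (X : ℝ) ^ ε⌋₊ * (Icc 1 m).card :=
    card_le_mul_card_image_of_maps_to (f := fun q : ℕ × ℕ × ℕ × ℕ => q.2.2.2)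
      (fun q hq => mem_Icc.2 ⟨(hF q hq).2.2.2.2.2.2.1, hm q hq⟩) _ hfib
  rw [Nat.card_Icc, Nat.add_sub_cancel] at hc
  have h0 : (0 : ℝ) ≤ K * (X : ℝ) ^ ε := by positivity
  calc (F.card : ℝ) ≤ ((⌊K * (X : ℝ) ^ ε⌋₊ * m : ℕ) : ℝ) := by exact_mod_cast hc
    _ = (⌊K * (X : ℝ) ^ ε⌋₊ : ℝ) * m := by push_cast; rfl
    _ ≤ K * (X : ℝ) ^ ε * m :=
      mul_le_mul_of_nonneg_right (Nat.floor_le h0) (Nat.cast_nonneg m)

/-- `q = (u, v, w, z)`. One of the four is at most `m` for all `q`: then at most `K X^ε m`. For `z`: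
lemK (Pool/Agent/H38/HD/LemK.lean; as in HD/Cnt1 adm_card) for every value of `z`; given `w, z`,
the pair `(u, v)` is determined by `u² r + v² s = 0`, `(r, s) ≠ (0, 0)` and coprimality. The other
three by symmetry of the form (`u ↔ v`: `(A, B) ↔ (C, D)`; `w ↔ z`: `(A, C) ↔ (B, D)`;
`(u, v) ↔ (w, z)`: `B ↔ C`). -/
theorem quad (ε : ℝ) (hε : 0 < ε) : ∃ K : ℝ, 0 < K ∧ ∀ X : ℕ, 1 ≤ X → ∀ A B C D : ℤ,
    |A| ≤ X → |B| ≤ X → |C| ≤ X → |D| ≤ X → A ≠ 0 → B ≠ 0 → C ≠ 0 → D ≠ 0 →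
    A * D - B * C ≠ 0 → ∀ m : ℕ, ∀ F : Finset (ℕ × ℕ × ℕ × ℕ),
    (∀ q ∈ F, 0 < q.1 ∧ q.1 ≤ X ∧ 0 < q.2.1 ∧ q.2.1 ≤ X ∧ 0 < q.2.2.1 ∧ q.2.2.1 ≤ X ∧
      0 < q.2.2.2 ∧ q.2.2.2 ≤ X ∧ Nat.Coprime q.1 q.2.1 ∧ Nat.Coprime q.2.2.1 q.2.2.2 ∧
      (q.1 : ℤ) ^ 2 * (A * (q.2.2.1 : ℤ) ^ 2 + B * (q.2.2.2 : ℤ) ^ 2) +
        (q.2.1 : ℤ) ^ 2 * (C * (q.2.2.1 : ℤ) ^ 2 + D * (q.2.2.2 : ℤ) ^ 2) = 0) →
    ((∀ q ∈ F, q.1 ≤ m) ∨ (∀ q ∈ F, q.2.1 ≤ m) ∨ (∀ q ∈ F, q.2.2.1 ≤ m) ∨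
      (∀ q ∈ F, q.2.2.2 ≤ m)) → (F.card : ℝ) ≤ K * (X : ℝ) ^ ε * m := by
  classical
  obtain ⟨K, hK, h⟩ := quad_z ε hε
  refine ⟨K, hK, fun X hX A B C D hA hB hC hD hA0 hB0 hC0 hD0 hdet m F hF hm => ?_⟩
  rcases hm with hm | hm | hm | hm
  · -- `u ≤ m`: `(w, z, v, u)`
    have hinj : Function.Injective
        (fun q : ℕ × ℕ × ℕ × ℕ => (q.2.2.1, q.2.2.2, q.2.1, q.1)) := by
      rintro ⟨a, b, c, d⟩ ⟨a', b', c', d'⟩ he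
      simp only [Prod.mk.injEq] at he ⊢
      tauto
    rw [← card_image_of_injective F hinj]
    refine h X hX C A D B hC hA hD hB hC0 hA0 hD0 hB0 (fun h => hdet (by linarith)) m _ ?_ ?_
    · intro q hq
      rw [mem_image] at hq
      obtain ⟨p, hp, rfl⟩ := hq
      obtain ⟨a1, a1', a2, a2', a3, a3', a4, a4', a5, a5', a6⟩ := hF p hp
      exact ⟨a3, a3', a4, a4', a2, a2', a1, a1', a5', a5.symm, by simp only; linarith⟩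
    · intro q hq
      rw [mem_image] at hq
      obtain ⟨p, hp, rfl⟩ := hq
      exact hm p hp
  · -- `v ≤ m`: `(w, z, u, v)`
    have hinj : Function.Injective
        (fun q : ℕ × ℕ × ℕ × ℕ => (q.2.2.1, q.2.2.2, q.1, q.2.1)) := by
      rintro ⟨a, b, c, d⟩ ⟨a', b', c', d'⟩ he
      simp only [Prod.mk.injEq] at he ⊢
      tauto
    rw [← card_image_of_injective F hinj]
    refine h X hX A C B D hA hC hB hD hA0 hC0 hB0 hD0 (fun h => hdet (by linarith)) m _ ?_ ?_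
    · intro q hq
      rw [mem_image] at hq
      obtain ⟨p, hp, rfl⟩ := hq
      obtain ⟨a1, a1', a2, a2', a3, a3', a4, a4', a5, a5', a6⟩ := hF p hp
      exact ⟨a3, a3', a4, a4', a1, a1', a2, a2', a5', a5, by simp only; linarith⟩
    · intro q hq
      rw [mem_image] at hq
      obtain ⟨p, hp, rfl⟩ := hq
      exact hm p hp
  · -- `w ≤ m`: `(u, v, z, w)`
    have hinj : Function.Injective
        (fun q : ℕ × ℕ × ℕ × ℕ => (q.1, q.2.1, q.2.2.2, q.2.2.1)) := by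
      rintro ⟨a, b, c, d⟩ ⟨a', b', c', d'⟩ he
      simp only [Prod.mk.injEq] at he ⊢
      tauto
    rw [← card_image_of_injective F hinj]
    refine h X hX B A D C hB hA hD hC hB0 hA0 hD0 hC0 (fun h => hdet (by linarith)) m _ ?_ ?_
    · intro q hq
      rw [mem_image] at hq
      obtain ⟨p, hp, rfl⟩ := hq
      obtain ⟨a1, a1', a2, a2', a3, a3', a4, a4', a5, a5', a6⟩ := hF p hp
      exact ⟨a1, a1', a2, a2', a4, a4', a3, a3', a5, a5'.symm, by simp only; linarith⟩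
    · intro q hq
      rw [mem_image] at hq
      obtain ⟨p, hp, rfl⟩ := hq
      exact hm p hp
  · exact h X hX A B C D hA hB hC hD hA0 hB0 hC0 hD0 hdet m F hF hm

end H38.HF
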