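import Pool.Agent.H38.HF.Defs
import Pool.Agent.H38.HF.Quad

/-!
Everything fixed but the last block.
-/

set_option autoImplicit false

open Finset

namespace H38.HF

private theorem blk_cop {a b c d : ℕ} (hab : Nat.Coprime a b) (hcd : Nat.Coprime c d) (ha : 0 < a)
    (h : a * d = b * c) : a = c ∧ b = d := by
  have h1 : a ∣ c := by
    have h2 : a ∣ b * c := ⟨d, h.symm⟩
    exact hab.dvd_of_dvd_mul_left h2
  have h2 : c ∣ a := by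
    have h3 : c ∣ a * d := ⟨b, by rw [h, mul_comm]⟩
    exact hcd.dvd_of_dvd_mul_right h3
  have h3 : a = c := Nat.dvd_antisymm h1 h2
  subst h3
  refine ⟨rfl, ?_⟩
  rw [mul_comm b a] at h
  exact (Nat.eq_of_mul_eq_mul_left ha h).symm

private theorem blk_pair {a b c d : ℕ} {s t : ℤ} (hab : Nat.Coprime a b) (hcd : Nat.Coprime c d)
    (ha : 0 < a) (hb : 0 < b) (hc : 0 < c) (hd : 0 < d) (hs : 0 < s) (ht : 0 < t)
    (h1 : s * ((a : ℤ) ^ 2 - (b : ℤ) ^ 2) = t * ((c : ℤ) ^ 2 - (d : ℤ) ^ 2))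
    (h2 : s * (a * b) = t * (c * d)) : a = c ∧ b = d := by
  have h3 : (s * t) * (((a : ℤ) * d - b * c) * (a * c + b * d)) = 0 := by
    linear_combination (t * (c * d : ℤ)) * h1 - (t * ((c : ℤ) ^ 2 - (d : ℤ) ^ 2)) * h2
  have h4 : s * t ≠ 0 := (mul_pos hs ht).ne'
  have h5 := (mul_eq_zero.1 h3).resolve_left h4
  have h6 : ((a : ℤ) * c + b * d) ≠ 0 := by positivity
  have h7 := (mul_eq_zero.1 h5).resolve_right h6
  have h8 : a * d = b * c := by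
    have : (a : ℤ) * d = b * c := by linarith
    exact_mod_cast this
  exact blk_cop hab hcd ha h8

private theorem blk_prod (x : Fin 5 → ℕ) : ∏ i, fa x i = x 0 ^ 2 * x 1 * x 2 * x 3 * x 4 := by
  rw [Fin.prod_univ_five]
  rfl

private theorem blk_ne {N : ℕ} {x y : Fin 5 → ℕ} (h : Cfg N x y)
    (he : ((x 0 : ℤ) ^ 2 * ((x 2 : ℤ) ^ 2 - (x 1 : ℤ) ^ 2) * x 3 * x 4) ^ 2 =
      ((y 0 : ℤ) ^ 2 * ((y 2 : ℤ) ^ 2 - (y 1 : ℤ) ^ 2) * y 3 * y 4) ^ 2) : False := by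
  obtain ⟨⟨px, cx, cx'⟩, ⟨py, cy, cy'⟩, hP, -, hc, hc0, -, ht⟩ := h
  rw [blk_prod, blk_prod] at hP
  have hPz : ((x 0 : ℤ) ^ 2 * x 1 * x 2 * x 3 * x 4) = (y 0 : ℤ) ^ 2 * y 1 * y 2 * y 3 * y 4 := by
    exact_mod_cast hP
  have x0 : (0 : ℤ) < x 0 := by exact_mod_cast px 0
  have x1 : (0 : ℤ) < x 1 := by exact_mod_cast px 1
  have x2 : (0 : ℤ) < x 2 := by exact_mod_cast px 2
  have x3 : (0 : ℤ) < x 3 := by exact_mod_cast px 3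
  have x4 : (0 : ℤ) < x 4 := by exact_mod_cast px 4
  have y0 : (0 : ℤ) < y 0 := by exact_mod_cast py 0
  have y1 : (0 : ℤ) < y 1 := by exact_mod_cast py 1
  have y2 : (0 : ℤ) < y 2 := by exact_mod_cast py 2
  have y3 : (0 : ℤ) < y 3 := by exact_mod_cast py 3
  have y4 : (0 : ℤ) < y 4 := by exact_mod_cast py 4
  have hD : (x 2 : ℤ) ^ 2 - (x 1 : ℤ) ^ 2 ≠ 0 := by
    intro h0
    apply hc0
    simp only [cc]
    rw [h0]
    ring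
  have hs : (0 : ℤ) < (x 0 : ℤ) ^ 2 * (x 3 * x 4) := by positivity
  have htt : (0 : ℤ) < (y 0 : ℤ) ^ 2 * (y 3 * y 4) := by positivity
  rcases sq_eq_sq_iff_eq_or_eq_neg.1 he with h1 | h1
  · obtain ⟨e2, e1⟩ := blk_pair cx.symm cy.symm (px 2) (px 1) (py 2) (py 1) hs htt
      (by linear_combination h1) (by linear_combination hPz)
    rw [e1, e2] at hD hPz
    have hcz : (y 0 : ℤ) ^ 2 * ((y 3 : ℤ) ^ 2 - (y 4 : ℤ) ^ 2) =
        (x 0 : ℤ) ^ 2 * ((x 3 : ℤ) ^ 2 - (x 4 : ℤ) ^ 2) := by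
      have h2 := hc
      simp only [cc] at h2
      rw [e1, e2] at h2
      apply mul_left_cancel₀ hD
      linear_combination -h2
    have hQ : (x 0 : ℤ) ^ 2 * (x 3 * x 4) = (y 0 : ℤ) ^ 2 * (y 3 * y 4) := by
      have h3 : ((y 1 : ℤ) * y 2) ≠ 0 := by positivity
      apply mul_left_cancel₀ h3
      linear_combination hPz
    have x0' : (0 : ℤ) < (x 0 : ℤ) ^ 2 := by positivity
    have y0' : (0 : ℤ) < (y 0 : ℤ) ^ 2 := by positivity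
    obtain ⟨e3, e4⟩ := blk_pair cx' cy' (px 3) (px 4) (py 3) (py 4) x0' y0' hcz.symm hQ
    rw [e3, e4] at hQ
    have h5 : ((y 3 : ℤ) * y 4) ≠ 0 := by positivity
    have e0 : (x 0 : ℤ) ^ 2 = (y 0 : ℤ) ^ 2 := mul_right_cancel₀ h5 hQ
    apply ht
    simp only [tt]
    rw [e1, e2, e3, e4, e0]
  · obtain ⟨e2, e1⟩ := blk_pair cx.symm cy (px 2) (px 1) (py 1) (py 2) hs htt
      (by linear_combination h1) (by linear_combination hPz)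
    rw [e1, e2] at hD hPz
    have hcz : (y 0 : ℤ) ^ 2 * ((y 4 : ℤ) ^ 2 - (y 3 : ℤ) ^ 2) =
        (x 0 : ℤ) ^ 2 * ((x 3 : ℤ) ^ 2 - (x 4 : ℤ) ^ 2) := by
      have h2 := hc
      simp only [cc] at h2
      rw [e1, e2] at h2
      apply mul_left_cancel₀ hD
      linear_combination -h2
    have hQ : (x 0 : ℤ) ^ 2 * (x 3 * x 4) = (y 0 : ℤ) ^ 2 * (y 4 * y 3) := by
      have h3 : ((y 1 : ℤ) * y 2) ≠ 0 := by positivity
      apply mul_left_cancel₀ h3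
      linear_combination hPz
    have x0' : (0 : ℤ) < (x 0 : ℤ) ^ 2 := by positivity
    have y0' : (0 : ℤ) < (y 0 : ℤ) ^ 2 := by positivity
    obtain ⟨e3, e4⟩ := blk_pair cx' cy'.symm (px 3) (px 4) (py 4) (py 3) x0' y0' hcz.symm hQ
    rw [e3, e4] at hQ
    have h5 : ((y 4 : ℤ) * y 3) ≠ 0 := by positivity
    have e0 : (x 0 : ℤ) ^ 2 = (y 0 : ℤ) ^ 2 := mul_right_cancel₀ h5 hQ
    apply ht
    simp only [tt]
    rw [e1, e2, e3, e4, e0]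
    ring

private theorem blk_size {N : ℕ} {x : Fin 5 → ℕ} (hx : Fc x) (hN : ∏ i, fa x i ≤ N) {b : ℕ}
    (hb : b ≤ x 3 * x 4) :
    |(x 0 : ℤ) ^ 2 * ((x 2 : ℤ) ^ 2 - (x 1 : ℤ) ^ 2) * (b : ℤ) ^ 2| ≤ ((N ^ 2 : ℕ) : ℤ) := by
  obtain ⟨px, -, -⟩ := hx
  rw [blk_prod] at hN
  have x0 : (1 : ℤ) ≤ x 0 := by exact_mod_cast px 0
  have x1 : (1 : ℤ) ≤ x 1 := by exact_mod_cast px 1
  have x2 : (1 : ℤ) ≤ x 2 := by exact_mod_cast px 2
  have h1 : (x 1 : ℤ) ≤ x 1 * x 2 := le_mul_of_one_le_right (by positivity) x2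
  have h2 : (x 2 : ℤ) ≤ x 1 * x 2 := le_mul_of_one_le_left (by positivity) x1
  have h1' : (x 1 : ℤ) ^ 2 ≤ (x 1 * x 2) ^ 2 := pow_le_pow_left₀ (by positivity) h1 2
  have h2' : (x 2 : ℤ) ^ 2 ≤ (x 1 * x 2) ^ 2 := pow_le_pow_left₀ (by positivity) h2 2
  have h3 : |(x 2 : ℤ) ^ 2 - (x 1 : ℤ) ^ 2| ≤ (x 1 * x 2) ^ 2 := by
    rw [abs_le]
    constructor
    · nlinarith [sq_nonneg (x 2 : ℤ)]
    · nlinarith [sq_nonneg (x 1 : ℤ)]
  have h4 : (b : ℤ) ^ 2 ≤ ((x 3 : ℤ) * x 4) ^ 2 :=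
    pow_le_pow_left₀ (by positivity) (by exact_mod_cast hb) 2
  have h5 : (x 0 : ℤ) ^ 2 ≤ ((x 0 : ℤ) ^ 2) ^ 2 := by
    have : (1 : ℤ) ≤ (x 0 : ℤ) ^ 2 := one_le_pow₀ x0
    nlinarith
  have h6 : ((x 0 : ℤ) ^ 2 * x 1 * x 2 * x 3 * x 4) ≤ N := by exact_mod_cast hN
  rw [abs_mul, abs_mul, abs_of_nonneg (sq_nonneg (x 0 : ℤ)), abs_of_nonneg (sq_nonneg (b : ℤ))]
  calc (x 0 : ℤ) ^ 2 * |(x 2 : ℤ) ^ 2 - (x 1 : ℤ) ^ 2| * (b : ℤ) ^ 2
      ≤ ((x 0 : ℤ) ^ 2) ^ 2 * (x 1 * x 2) ^ 2 * ((x 3 : ℤ) * x 4) ^ 2 := by gcongr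
    _ = ((x 0 : ℤ) ^ 2 * x 1 * x 2 * x 3 * x 4) ^ 2 := by ring
    _ ≤ (N : ℤ) ^ 2 := pow_le_pow_left₀ (by positivity) h6 2
    _ = ((N ^ 2 : ℕ) : ℤ) := by push_cast; rfl

/-- Cells `u = g 3 3`, `v = g 4 4`, `w = g 3 4`, `z = g 4 3`; `x 3 = b u w`, `x 4 = c z v`,
`y 3 = b' u z`, `y 4 = c' w v` (`b = ∏_{j<3} g 3 j`, `c = ∏_{j<3} g 4 j`, `b' = ∏_{i<3} g i 3`,
`c' = ∏_{i<3} g i 4`). With `L₁ = x 0² (x 2² - x 1²)`, `L₂ = y 0² (y 2² - y 1²)` the equation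
`cc x = cc y` is `u² (A w² + B z²) + v² (C w² + D z²) = 0`, `A = L₁ b²`, `B = - L₂ b'²`,
`C = L₂ c'²`, `D = - L₁ c²`, all nonzero and at most `4 N³` in size. `A D ≠ B C`: otherwise
`L₁ b c = ± L₂ b' c'`, so `x 0² (x 2² - x 1²) x 3 x 4 = ± y 0² (y 2² - y 1²) y 3 y 4`; with
`x 0² x 1 x 2 x 3 x 4 = y 0² y 1 y 2 y 3 y 4` this gives `{x 1, x 2} = {y 1, y 2}` (coprime) and then
`tt x = tt y`. `quad` with `X = 4 N³`, `m = 2^(e+1)`, `e` the least of the four exponents. -/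
theorem blk (ε : ℝ) (hε : 0 < ε) : ∃ K : ℝ, 0 < K ∧ ∀ N : ℕ, 1 ≤ N →
    ∀ (eg eh : Fin 5 → Fin 5 → ℕ) (F : Finset Cf) (G H : Cf → Fin 5 → Fin 5 → ℕ),
    Ok N eg eh F G H → ∀ q0 ∈ F,
    (∀ q ∈ F, (∀ i : Fin 5, i.val < 3 → q.1 i = q0.1 i ∧ q.2 i = q0.2 i) ∧
      ∀ i j : Fin 5, (i.val < 3 ∨ j.val < 3) → G q i j = G q0 i j) →
    (F.card : ℝ) ≤ K * (N : ℝ) ^ ε *
      (2 : ℝ) ^ (((eg 3 3 : ℝ) + eg 3 4 + eg 4 3 + eg 4 4) / 4) := by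
  classical
  obtain ⟨K, hK, hquad⟩ := quad (ε / 2) (half_pos hε)
  refine ⟨2 * K, by positivity, fun N hN eg eh F G H hOk q0 hq0 hfix => ?_⟩
  -- the constants
  obtain ⟨b, hb⟩ : ∃ b : ℕ, b = G q0 3 0 * G q0 3 1 * G q0 3 2 := ⟨_, rfl⟩
  obtain ⟨c, hc⟩ : ∃ c : ℕ, c = G q0 4 0 * G q0 4 1 * G q0 4 2 := ⟨_, rfl⟩
  obtain ⟨b', hb'⟩ : ∃ b' : ℕ, b' = G q0 0 3 * G q0 1 3 * G q0 2 3 := ⟨_, rfl⟩
  obtain ⟨c', hc'⟩ : ∃ c' : ℕ, c' = G q0 0 4 * G q0 1 4 * G q0 2 4 := ⟨_, rfl⟩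
  have hx : ∀ q ∈ F, q.1 3 = b * G q 3 3 * G q 3 4 ∧ q.1 4 = c * G q 4 3 * G q 4 4 ∧
      q.2 3 = b' * G q 3 3 * G q 4 3 ∧ q.2 4 = c' * G q 3 4 * G q 4 4 := by
    intro q hq
    obtain ⟨-, ⟨m1, m2, -, -⟩, -, -⟩ := hOk q hq
    have hf := (hfix q hq).2
    have k1 : q.1 3 = ∏ j, G q 3 j := m1 3
    have k2 : q.1 4 = ∏ j, G q 4 j := m1 4
    have k3 : q.2 3 = ∏ i, G q i 3 := m2 3
    have k4 : q.2 4 = ∏ i, G q i 4 := m2 4
    rw [Fin.prod_univ_five] at k1 k2 k3 k4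
    rw [hf 3 0 (by decide), hf 3 1 (by decide), hf 3 2 (by decide), ← hb] at k1
    rw [hf 4 0 (by decide), hf 4 1 (by decide), hf 4 2 (by decide), ← hc] at k2
    rw [hf 0 3 (by decide), hf 1 3 (by decide), hf 2 3 (by decide), ← hb'] at k3
    rw [hf 0 4 (by decide), hf 1 4 (by decide), hf 2 4 (by decide), ← hc'] at k4
    exact ⟨k1, k2, k3, k4⟩
  obtain ⟨φ, hφ⟩ : ∃ φ : Cf → ℕ × ℕ × ℕ × ℕ, φ = fun q => (G q 3 3, G q 4 4, G q 3 4, G q 4 3) := ⟨_, rfl⟩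
  have hinj : Set.InjOn φ (F : Set Cf) := by
    intro q hq r hr hqr
    rw [hφ] at hqr
    simp only [Prod.mk.injEq] at hqr
    obtain ⟨h1, h2, h3, h4⟩ := hqr
    obtain ⟨a1, a2, a3, a4⟩ := hx q hq
    obtain ⟨b1, b2, b3, b4⟩ := hx r hr
    have hfq := (hfix q hq).1
    have hfr := (hfix r hr).1
    refine Prod.ext ?_ ?_
    · funext i
      fin_cases i
      · exact (hfq 0 (by decide)).1.trans (hfr 0 (by decide)).1.symm
      · exact (hfq 1 (by decide)).1.trans (hfr 1 (by decide)).1.symm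
      · exact (hfq 2 (by decide)).1.trans (hfr 2 (by decide)).1.symm
      · exact a1.trans ((by rw [h1, h3]) : _ = _) |>.trans b1.symm
      · exact a2.trans ((by rw [h2, h4]) : _ = _) |>.trans b2.symm
    · funext i
      fin_cases i
      · exact (hfq 0 (by decide)).2.trans (hfr 0 (by decide)).2.symm
      · exact (hfq 1 (by decide)).2.trans (hfr 1 (by decide)).2.symm
      · exact (hfq 2 (by decide)).2.trans (hfr 2 (by decide)).2.symm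
      · exact a3.trans ((by rw [h1, h4]) : _ = _) |>.trans b3.symm
      · exact a4.trans ((by rw [h3, h2]) : _ = _) |>.trans b4.symm
  -- the config `q0`
  obtain ⟨L1, hL1⟩ : ∃ L1 : ℤ, L1 = (q0.1 0 : ℤ) ^ 2 * ((q0.1 2 : ℤ) ^ 2 - (q0.1 1 : ℤ) ^ 2) := ⟨_, rfl⟩
  obtain ⟨L2, hL2⟩ : ∃ L2 : ℤ, L2 = (q0.2 0 : ℤ) ^ 2 * ((q0.2 2 : ℤ) ^ 2 - (q0.2 1 : ℤ) ^ 2) := ⟨_, rfl⟩
  obtain ⟨hC0, -, -, -⟩ := hOk q0 hq0
  obtain ⟨i1, i2, i3, i4⟩ := hx q0 hq0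
  obtain ⟨fx, fy, hP, hPN, hcc, hcc0, -, -⟩ := id hC0
  have px := fx.1
  have py := fy.1
  have hPN' : ∏ i, fa q0.2 i ≤ N := hP ▸ hPN
  have L1n : L1 ≠ 0 := by
    intro h0
    apply hcc0
    simp only [cc]
    rw [← hL1, h0, zero_mul]
  have L2n : L2 ≠ 0 := by
    intro h0
    apply hcc0
    rw [hcc]
    simp only [cc]
    rw [← hL2, h0, zero_mul]
  have pb : 0 < b := Nat.pos_of_ne_zero fun h0 => by
    have := px 3
    rw [i1, h0] at this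
    simp at this
  have pc : 0 < c := Nat.pos_of_ne_zero fun h0 => by
    have := px 4
    rw [i2, h0] at this
    simp at this
  have pb' : 0 < b' := Nat.pos_of_ne_zero fun h0 => by
    have := py 3
    rw [i3, h0] at this
    simp at this
  have pc' : 0 < c' := Nat.pos_of_ne_zero fun h0 => by
    have := py 4
    rw [i4, h0] at this
    simp at this
  have zb : (b : ℤ) ≠ 0 := by exact_mod_cast pb.ne'
  have zc : (c : ℤ) ≠ 0 := by exact_mod_cast pc.ne'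
  have zb' : (b' : ℤ) ≠ 0 := by exact_mod_cast pb'.ne'
  have zc' : (c' : ℤ) ≠ 0 := by exact_mod_cast pc'.ne'
  have lb : b ≤ q0.1 3 * q0.1 4 := by
    have h1 : b ≤ q0.1 3 := Nat.le_of_dvd (px 3) (by rw [i1, mul_assoc]; exact dvd_mul_right _ _)
    exact h1.trans (Nat.le_mul_of_pos_right _ (px 4))
  have lc : c ≤ q0.1 3 * q0.1 4 := by
    have h1 : c ≤ q0.1 4 := Nat.le_of_dvd (px 4) (by rw [i2, mul_assoc]; exact dvd_mul_right _ _)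
    exact h1.trans (Nat.le_mul_of_pos_left _ (px 3))
  have lb' : b' ≤ q0.2 3 * q0.2 4 := by
    have h1 : b' ≤ q0.2 3 := Nat.le_of_dvd (py 3) (by rw [i3, mul_assoc]; exact dvd_mul_right _ _)
    exact h1.trans (Nat.le_mul_of_pos_right _ (py 4))
  have lc' : c' ≤ q0.2 3 * q0.2 4 := by
    have h1 : c' ≤ q0.2 4 := Nat.le_of_dvd (py 4) (by rw [i4, mul_assoc]; exact dvd_mul_right _ _)
    exact h1.trans (Nat.le_mul_of_pos_left _ (py 3))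
  have sA : |L1 * (b : ℤ) ^ 2| ≤ ((N ^ 2 : ℕ) : ℤ) := by
    rw [hL1]
    exact blk_size fx hPN lb
  have sD : |-(L1 * (c : ℤ) ^ 2)| ≤ ((N ^ 2 : ℕ) : ℤ) := by
    rw [abs_neg, hL1]
    exact blk_size fx hPN lc
  have sB : |-(L2 * (b' : ℤ) ^ 2)| ≤ ((N ^ 2 : ℕ) : ℤ) := by
    rw [abs_neg, hL2]
    exact blk_size fy hPN' lb'
  have sC : |L2 * (c' : ℤ) ^ 2| ≤ ((N ^ 2 : ℕ) : ℤ) := by
    rw [hL2]
    exact blk_size fy hPN' lc'
  have hdet : L1 * (b : ℤ) ^ 2 * -(L1 * (c : ℤ) ^ 2) - -(L2 * (b' : ℤ) ^ 2) * (L2 * (c' : ℤ) ^ 2) ≠ 0 := by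
    intro h0
    apply blk_ne hC0
    rw [← hL1, ← hL2]
    have j1 : (q0.1 3 : ℤ) = b * G q0 3 3 * G q0 3 4 := by exact_mod_cast i1
    have j2 : (q0.1 4 : ℤ) = c * G q0 4 3 * G q0 4 4 := by exact_mod_cast i2
    have j3 : (q0.2 3 : ℤ) = b' * G q0 3 3 * G q0 4 3 := by exact_mod_cast i3
    have j4 : (q0.2 4 : ℤ) = c' * G q0 3 4 * G q0 4 4 := by exact_mod_cast i4
    rw [j1, j2, j3, j4]
    linear_combination (-((G q0 3 3 : ℤ) * G q0 3 4 * G q0 4 3 * G q0 4 4) ^ 2) * h0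
  -- the least exponent
  obtain ⟨e, he, hes⟩ : ∃ e : ℕ, (e = eg 3 3 ∨ e = eg 4 4 ∨ e = eg 3 4 ∨ e = eg 4 3) ∧
      4 * e ≤ eg 3 3 + eg 3 4 + eg 4 3 + eg 4 4 := by
    rcases le_total (eg 3 3) (eg 4 4) with h1 | h1 <;> rcases le_total (eg 3 4) (eg 4 3) with h2 | h2
    · rcases le_total (eg 3 3) (eg 3 4) with h3 | h3
      · exact ⟨eg 3 3, by simp, by omega⟩
      · exact ⟨eg 3 4, by simp, by omega⟩
    · rcases le_total (eg 3 3) (eg 4 3) with h3 | h3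
      · exact ⟨eg 3 3, by simp, by omega⟩
      · exact ⟨eg 4 3, by simp, by omega⟩
    · rcases le_total (eg 4 4) (eg 3 4) with h3 | h3
      · exact ⟨eg 4 4, by simp, by omega⟩
      · exact ⟨eg 3 4, by simp, by omega⟩
    · rcases le_total (eg 4 4) (eg 4 3) with h3 | h3
      · exact ⟨eg 4 4, by simp, by omega⟩
      · exact ⟨eg 4 3, by simp, by omega⟩
  have hcard := hquad (N ^ 2) (Nat.one_le_pow _ _ hN) (L1 * (b : ℤ) ^ 2) (-(L2 * (b' : ℤ) ^ 2))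
    (L2 * (c' : ℤ) ^ 2) (-(L1 * (c : ℤ) ^ 2)) sA sB sC sD
    (mul_ne_zero L1n (pow_ne_zero _ zb)) (neg_ne_zero.2 (mul_ne_zero L2n (pow_ne_zero _ zb')))
    (mul_ne_zero L2n (pow_ne_zero _ zc')) (neg_ne_zero.2 (mul_ne_zero L1n (pow_ne_zero _ zc)))
    hdet (2 ^ (e + 1)) (F.image φ) ?_ ?_
  · rw [Finset.card_image_of_injOn hinj] at hcard
    refine hcard.trans ?_
    have hN0 : (0 : ℝ) ≤ N := Nat.cast_nonneg N
    have h1 : (((N ^ 2 : ℕ) : ℝ)) ^ (ε / 2) = (N : ℝ) ^ ε := by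
      rw [Nat.cast_pow, ← Real.rpow_natCast, ← Real.rpow_mul hN0]
      congr 1
      push_cast
      ring
    have h2 : (((2 ^ (e + 1) : ℕ) : ℝ)) ≤ 2 * (2 : ℝ) ^ (((eg 3 3 : ℝ) + eg 3 4 + eg 4 3 + eg 4 4) / 4) := by
      rw [Nat.cast_pow, pow_succ, mul_comm]
      have h3 : (((2 : ℕ) : ℝ)) ^ e ≤ (2 : ℝ) ^ (((eg 3 3 : ℝ) + eg 3 4 + eg 4 3 + eg 4 4) / 4) := by
        rw [← Real.rpow_natCast]
        refine Real.rpow_le_rpow_of_exponent_le (by norm_num) ?_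
        have h4 : (4 * (e : ℝ)) ≤ (eg 3 3 : ℝ) + eg 3 4 + eg 4 3 + eg 4 4 := by exact_mod_cast hes
        linarith
      have h5 : (((2 : ℕ) : ℝ)) = 2 := by norm_num
      rw [h5] at h3 ⊢
      linarith
    rw [h1]
    calc K * (N : ℝ) ^ ε * (((2 ^ (e + 1) : ℕ) : ℝ))
        ≤ K * (N : ℝ) ^ ε * (2 * (2 : ℝ) ^ (((eg 3 3 : ℝ) + eg 3 4 + eg 4 3 + eg 4 4) / 4)) := by gcongr
      _ = _ := by ring
  · intro r hr
    obtain ⟨q, hq, rfl⟩ := Finset.mem_image.1 hr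
    rw [hφ]
    obtain ⟨⟨gx, gy, -, hqN, hqc, -, -, -⟩, -, -, -⟩ := hOk q hq
    obtain ⟨a1, a2, a3, a4⟩ := hx q hq
    have hf := (hfix q hq).1
    have qx := gx.1
    have p3 : 0 < G q 3 3 := Nat.pos_of_ne_zero fun h0 => by
      have := qx 3
      rw [a1, h0] at this
      simp at this
    have p34 : 0 < G q 3 4 := Nat.pos_of_ne_zero fun h0 => by
      have := qx 3
      rw [a1, h0] at this
      simp at this
    have p43 : 0 < G q 4 3 := Nat.pos_of_ne_zero fun h0 => by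
      have := qx 4
      rw [a2, h0] at this
      simp at this
    have p44 : 0 < G q 4 4 := Nat.pos_of_ne_zero fun h0 => by
      have := qx 4
      rw [a2, h0] at this
      simp at this
    have d33 : G q 3 3 ∣ q.1 3 := ⟨b * G q 3 4, by rw [a1]; ring⟩
    have d34 : G q 3 4 ∣ q.1 3 := ⟨b * G q 3 3, by rw [a1]; ring⟩
    have d43 : G q 4 3 ∣ q.1 4 := ⟨c * G q 4 4, by rw [a2]; ring⟩
    have d44 : G q 4 4 ∣ q.1 4 := ⟨c * G q 4 3, by rw [a2]; ring⟩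
    rw [blk_prod] at hqN
    have hx3N : q.1 3 ≤ N ^ 2 := by
      have h1 : q.1 3 ≤ q.1 0 ^ 2 * q.1 1 * q.1 2 * q.1 3 * q.1 4 :=
        Nat.le_of_dvd (by have := qx 0; have := qx 1; have := qx 2; have := qx 3; have := qx 4; positivity)
          ⟨q.1 0 ^ 2 * q.1 1 * q.1 2 * q.1 4, by ring⟩
      exact (h1.trans hqN).trans (Nat.le_self_pow two_ne_zero N)
    have hx4N : q.1 4 ≤ N ^ 2 := by
      have h1 : q.1 4 ≤ q.1 0 ^ 2 * q.1 1 * q.1 2 * q.1 3 * q.1 4 :=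
        Nat.le_of_dvd (by have := qx 0; have := qx 1; have := qx 2; have := qx 3; have := qx 4; positivity)
          ⟨q.1 0 ^ 2 * q.1 1 * q.1 2 * q.1 3, by ring⟩
      exact (h1.trans hqN).trans (Nat.le_self_pow two_ne_zero N)
    refine ⟨p3, (Nat.le_of_dvd (qx 3) d33).trans hx3N, p44, (Nat.le_of_dvd (qx 4) d44).trans hx4N,
      p34, (Nat.le_of_dvd (qx 3) d34).trans hx3N, p43, (Nat.le_of_dvd (qx 4) d43).trans hx4N,
      gx.2.2.of_dvd d33 d44, gx.2.2.of_dvd d34 d43, ?_⟩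
    have j1 : (q.1 3 : ℤ) = b * G q 3 3 * G q 3 4 := by exact_mod_cast a1
    have j2 : (q.1 4 : ℤ) = c * G q 4 3 * G q 4 4 := by exact_mod_cast a2
    have j3 : (q.2 3 : ℤ) = b' * G q 3 3 * G q 4 3 := by exact_mod_cast a3
    have j4 : (q.2 4 : ℤ) = c' * G q 3 4 * G q 4 4 := by exact_mod_cast a4
    have h1 : cc q.1 = L1 * ((q.1 3 : ℤ) ^ 2 - (q.1 4 : ℤ) ^ 2) := by
      simp only [cc]
      rw [(hf 0 (by decide)).1, (hf 1 (by decide)).1, (hf 2 (by decide)).1, hL1]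
    have h2 : cc q.2 = L2 * ((q.2 3 : ℤ) ^ 2 - (q.2 4 : ℤ) ^ 2) := by
      simp only [cc]
      rw [(hf 0 (by decide)).2, (hf 1 (by decide)).2, (hf 2 (by decide)).2, hL2]
    rw [h1, h2, j1, j2, j3, j4] at hqc
    show (G q 3 3 : ℤ) ^ 2 * (L1 * (b : ℤ) ^ 2 * (G q 3 4 : ℤ) ^ 2 + -(L2 * (b' : ℤ) ^ 2) * (G q 4 3 : ℤ) ^ 2) +
        (G q 4 4 : ℤ) ^ 2 * (L2 * (c' : ℤ) ^ 2 * (G q 3 4 : ℤ) ^ 2 + -(L1 * (c : ℤ) ^ 2) * (G q 4 3 : ℤ) ^ 2) = 0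
    linear_combination hqc
  · have hbx : ∀ q ∈ F, ∀ i j, eg i j = e → G q i j ≤ 2 ^ (e + 1) := by
      intro q hq i j hij
      obtain ⟨-, -, hB, -⟩ := hOk q hq
      have := (hB i j).2
      rw [hij] at this
      exact this.le
    rcases he with h1 | h1 | h1 | h1
    · refine Or.inl fun r hr => ?_
      obtain ⟨q, hq, rfl⟩ := Finset.mem_image.1 hr
      rw [hφ]
      exact hbx q hq 3 3 h1.symm
    · refine Or.inr (Or.inl fun r hr => ?_)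
      obtain ⟨q, hq, rfl⟩ := Finset.mem_image.1 hr
      rw [hφ]
      exact hbx q hq 4 4 h1.symm
    · refine Or.inr (Or.inr (Or.inl fun r hr => ?_))
      obtain ⟨q, hq, rfl⟩ := Finset.mem_image.1 hr
      rw [hφ]
      exact hbx q hq 3 4 h1.symm
    · refine Or.inr (Or.inr (Or.inr fun r hr => ?_))
      obtain ⟨q, hq, rfl⟩ := Finset.mem_image.1 hr
      rw [hφ]
      exact hbx q hq 4 3 h1.symm

end H38.HF
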