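import Pool.Agent.H38.HF.Defs

/-!
The determinant of the last block is not zero.
-/

set_option autoImplicit false

open Finset

namespace H38.HF

/-- coprime pairs with the same ratio are equal -/
theorem BlkNe_ratio {a b c d : ℕ} (h1 : Nat.Coprime a b) (h2 : Nat.Coprime c d)
    (h : a * d = c * b) : a = c ∧ b = d := by
  have ac : a ∣ c := by
    have : a ∣ c * b := ⟨d, h.symm⟩
    exact h1.dvd_of_dvd_mul_right this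
  have ca : c ∣ a := by
    have : c ∣ a * d := ⟨b, h⟩
    exact h2.dvd_of_dvd_mul_right this
  have bd : b ∣ d := by
    have : b ∣ a * d := ⟨c, by rw [h]; ring⟩
    exact h1.symm.dvd_of_dvd_mul_left this
  have db : d ∣ b := by
    have : d ∣ c * b := ⟨a, by rw [← h]; ring⟩
    exact h2.symm.dvd_of_dvd_mul_left this
  exact ⟨Nat.dvd_antisymm ac ca, Nat.dvd_antisymm bd db⟩

/-- `a/b - b/a = c/d - d/c` for positive numbers -/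
theorem BlkNe_eq {a b c d : ℕ} (ha : 0 < a) (hb : 0 < b) (hc : 0 < c) (hd : 0 < d)
    (h1 : Nat.Coprime a b) (h2 : Nat.Coprime c d)
    (h : ((b : ℤ) ^ 2 - a ^ 2) * (c * d) = ((d : ℤ) ^ 2 - c ^ 2) * (a * b)) : a = c ∧ b = d := by
  have e : ((b : ℤ) * c - a * d) * (b * d + a * c) = 0 := by
    linear_combination h
  have hp : ((b : ℤ) * d + a * c) ≠ 0 := by positivity
  have e2 : (b : ℤ) * c - a * d = 0 := (mul_eq_zero.1 e).resolve_right hp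
  have e3 : (a : ℤ) * d = c * b := by linarith
  exact BlkNe_ratio h1 h2 (by exact_mod_cast e3)

/-- the determinant of the last block, times `(u v w z)²`, is not zero -/
theorem blk_ne {N : ℕ} {x y : Fin 5 → ℕ} (h : Cfg N x y) :
    ((x 0 : ℤ) ^ 2 * ((x 2 : ℤ) ^ 2 - (x 1 : ℤ) ^ 2) * ((x 3 : ℤ) * x 4)) ^ 2 ≠
      ((y 0 : ℤ) ^ 2 * ((y 2 : ℤ) ^ 2 - (y 1 : ℤ) ^ 2) * ((y 3 : ℤ) * y 4)) ^ 2 := by
  obtain ⟨⟨hx, hx12, hx34⟩, ⟨hy, hy12, hy34⟩, hP, -, hcc, hc0, -, htt⟩ := h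
  intro hsq
  apply htt
  have hP' : (x 0 : ℤ) ^ 2 * x 1 * x 2 * x 3 * x 4 = (y 0 : ℤ) ^ 2 * y 1 * y 2 * y 3 * y 4 := by
    have := hP
    simp only [Fin.prod_univ_five, fa] at this
    have h5 : x 0 ^ 2 * x 1 * x 2 * x 3 * x 4 = y 0 ^ 2 * y 1 * y 2 * y 3 * y 4 := by
      simpa using this
    exact_mod_cast h5
  simp only [cc] at hcc hc0
  have px := hx
  have X0 : (0 : ℤ) < x 0 := by exact_mod_cast hx 0
  have X1 : (0 : ℤ) < x 1 := by exact_mod_cast hx 1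
  have X2 : (0 : ℤ) < x 2 := by exact_mod_cast hx 2
  have X3 : (0 : ℤ) < x 3 := by exact_mod_cast hx 3
  have X4 : (0 : ℤ) < x 4 := by exact_mod_cast hx 4
  have Y0 : (0 : ℤ) < y 0 := by exact_mod_cast hy 0
  have Y1 : (0 : ℤ) < y 1 := by exact_mod_cast hy 1
  have Y2 : (0 : ℤ) < y 2 := by exact_mod_cast hy 2
  have Y3 : (0 : ℤ) < y 3 := by exact_mod_cast hy 3
  have Y4 : (0 : ℤ) < y 4 := by exact_mod_cast hy 4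
  have hPp : (x 0 : ℤ) ^ 2 * x 1 * x 2 * x 3 * x 4 ≠ 0 := by positivity
  have d1 : (x 2 : ℤ) ^ 2 - (x 1 : ℤ) ^ 2 ≠ 0 := by
    intro h0
    apply hc0
    rw [h0]
    ring
  rcases sq_eq_sq_iff_eq_or_eq_neg.1 hsq with hs | hs
  · -- same orientation
    have h12 : ((x 2 : ℤ) ^ 2 - x 1 ^ 2) * (y 1 * y 2) = ((y 2 : ℤ) ^ 2 - y 1 ^ 2) * (x 1 * x 2) := by
      apply mul_left_cancel₀ hPp
      have e1 : (x 0 : ℤ) ^ 2 * x 1 * x 2 * x 3 * x 4 * (((x 2 : ℤ) ^ 2 - x 1 ^ 2) * (y 1 * y 2)) =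
          ((x 0 : ℤ) ^ 2 * ((x 2 : ℤ) ^ 2 - (x 1 : ℤ) ^ 2) * ((x 3 : ℤ) * x 4)) *
            (x 1 * x 2 * (y 1 * y 2)) := by ring
      have e2 : (x 0 : ℤ) ^ 2 * x 1 * x 2 * x 3 * x 4 * (((y 2 : ℤ) ^ 2 - y 1 ^ 2) * (x 1 * x 2)) =
          ((y 0 : ℤ) ^ 2 * ((y 2 : ℤ) ^ 2 - (y 1 : ℤ) ^ 2) * ((y 3 : ℤ) * y 4)) *
            (x 1 * x 2 * (y 1 * y 2)) := by
        rw [hP']; ring
      rw [e1, e2, hs]
    obtain ⟨a1, a2⟩ := BlkNe_eq (hx 1) (hx 2) (hy 1) (hy 2) hx12 hy12 h12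
    rw [a1, a2] at hP' hcc d1
    -- `x 0² x 3 x 4 = y 0² y 3 y 4`, `x 0² (x 3² - x 4²) = y 0² (y 3² - y 4²)`
    have f1 : (x 0 : ℤ) ^ 2 * (x 3 * x 4) = (y 0 : ℤ) ^ 2 * (y 3 * y 4) := by
      apply mul_left_cancel₀ (mul_pos Y1 Y2).ne'
      linear_combination hP'
    have f2 : (x 0 : ℤ) ^ 2 * ((x 3 : ℤ) ^ 2 - x 4 ^ 2) = (y 0 : ℤ) ^ 2 * ((y 3 : ℤ) ^ 2 - y 4 ^ 2) := by
      apply mul_left_cancel₀ d1
      linear_combination hcc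
    have h34 : ((x 4 : ℤ) ^ 2 - x 3 ^ 2) * (y 3 * y 4) = ((y 4 : ℤ) ^ 2 - y 3 ^ 2) * (x 3 * x 4) := by
      apply mul_left_cancel₀ (pow_pos Y0 2).ne'
      linear_combination -((x 4 : ℤ) ^ 2 - x 3 ^ 2) * f1 - (x 3 * x 4 : ℤ) * f2
    obtain ⟨a3, a4⟩ := BlkNe_eq (hx 3) (hx 4) (hy 3) (hy 4) hx34 hy34 h34
    rw [a3, a4] at f1
    have f3 : (x 0 : ℤ) ^ 2 = (y 0 : ℤ) ^ 2 := mul_right_cancel₀ (mul_pos Y3 Y4).ne' f1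
    simp only [tt]
    rw [a1, a2, a3, a4, f3]
  · -- opposite orientation
    have h12 : ((x 2 : ℤ) ^ 2 - x 1 ^ 2) * (y 2 * y 1) = ((y 1 : ℤ) ^ 2 - y 2 ^ 2) * (x 1 * x 2) := by
      apply mul_left_cancel₀ hPp
      have e1 : (x 0 : ℤ) ^ 2 * x 1 * x 2 * x 3 * x 4 * (((x 2 : ℤ) ^ 2 - x 1 ^ 2) * (y 2 * y 1)) =
          ((x 0 : ℤ) ^ 2 * ((x 2 : ℤ) ^ 2 - (x 1 : ℤ) ^ 2) * ((x 3 : ℤ) * x 4)) *
            (x 1 * x 2 * (y 1 * y 2)) := by ring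
      have e2 : (x 0 : ℤ) ^ 2 * x 1 * x 2 * x 3 * x 4 * (((y 1 : ℤ) ^ 2 - y 2 ^ 2) * (x 1 * x 2)) =
          -((y 0 : ℤ) ^ 2 * ((y 2 : ℤ) ^ 2 - (y 1 : ℤ) ^ 2) * ((y 3 : ℤ) * y 4)) *
            (x 1 * x 2 * (y 1 * y 2)) := by
        rw [hP']; ring
      rw [e1, e2, hs]
    obtain ⟨a1, a2⟩ := BlkNe_eq (hx 1) (hx 2) (hy 2) (hy 1) hx12 hy12.symm h12
    rw [a1, a2] at hP' hcc d1
    have f1 : (x 0 : ℤ) ^ 2 * (x 3 * x 4) = (y 0 : ℤ) ^ 2 * (y 4 * y 3) := by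
      apply mul_left_cancel₀ (mul_pos Y1 Y2).ne'
      linear_combination hP'
    have f2 : (x 0 : ℤ) ^ 2 * ((x 3 : ℤ) ^ 2 - x 4 ^ 2) = (y 0 : ℤ) ^ 2 * ((y 4 : ℤ) ^ 2 - y 3 ^ 2) := by
      apply mul_left_cancel₀ d1
      linear_combination hcc
    have h34 : ((x 4 : ℤ) ^ 2 - x 3 ^ 2) * (y 4 * y 3) = ((y 3 : ℤ) ^ 2 - y 4 ^ 2) * (x 3 * x 4) := by
      apply mul_left_cancel₀ (pow_pos Y0 2).ne'
      linear_combination -((x 4 : ℤ) ^ 2 - x 3 ^ 2) * f1 - (x 3 * x 4 : ℤ) * f2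
    obtain ⟨a3, a4⟩ := BlkNe_eq (hx 3) (hx 4) (hy 4) (hy 3) hx34 hy34.symm h34
    rw [a3, a4] at f1
    have f3 : (x 0 : ℤ) ^ 2 = (y 0 : ℤ) ^ 2 := mul_right_cancel₀ (mul_pos Y4 Y3).ne' f1
    simp only [tt]
    rw [a1, a2, a3, a4, f3]
    ring

end H38.HF
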