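import Mathlib

/-!
Definitions for the exponent `5/8`: pairs of parallel faces of a cube of dimension 3.
-/

set_option autoImplicit false

open Finset

namespace H38.HF

/-- factors of the step `a_1` in one face: `x 0 = t`, coprime pairs `(x 1, x 2)`, `(x 3, x 4)` -/
def fa (x : Fin 5 → ℕ) : Fin 5 → ℕ := ![x 0 ^ 2, x 1, x 2, x 3, x 4]

/-- factors of the step `4 a_2` in one face -/
def fc (x : Fin 5 → ℕ) : Fin 5 → ℕ :=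
  ![x 0 ^ 2, ((x 2 : ℤ) - x 1).natAbs, x 1 + x 2, ((x 3 : ℤ) - x 4).natAbs, x 3 + x 4]

def cc (x : Fin 5 → ℕ) : ℤ :=
  (x 0 : ℤ) ^ 2 * ((x 2 : ℤ) ^ 2 - (x 1 : ℤ) ^ 2) * ((x 3 : ℤ) ^ 2 - (x 4 : ℤ) ^ 2)

def tt (x : Fin 5 → ℕ) : ℤ :=
  (x 0 : ℤ) ^ 2 * ((x 1 : ℤ) ^ 2 * (x 3 : ℤ) ^ 2 + (x 2 : ℤ) ^ 2 * (x 4 : ℤ) ^ 2)

def Fc (x : Fin 5 → ℕ) : Prop :=
  (∀ i, 0 < x i) ∧ Nat.Coprime (x 1) (x 2) ∧ Nat.Coprime (x 3) (x 4)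

/-- two faces with the same `a_1`, `a_2` -/
def Cfg (N : ℕ) (x y : Fin 5 → ℕ) : Prop :=
  Fc x ∧ Fc y ∧ ∏ i, fa x i = ∏ i, fa y i ∧ ∏ i, fa x i ≤ N ∧ cc x = cc y ∧ cc x ≠ 0 ∧
    |cc x| ≤ 4 * (N : ℤ) ∧ tt x ≠ tt y

/-- configurations -/
abbrev Cf := (Fin 5 → ℕ) × (Fin 5 → ℕ)

/-- common refinements -/
def Mat (x y : Fin 5 → ℕ) (g h : Fin 5 → Fin 5 → ℕ) : Prop :=
  (∀ i, fa x i = ∏ j, g i j) ∧ (∀ j, fa y j = ∏ i, g i j) ∧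
    (∀ i, fc x i = ∏ j, h i j) ∧ (∀ j, fc y j = ∏ i, h i j)

def Bx (e g : Fin 5 → Fin 5 → ℕ) : Prop := ∀ i j, 2 ^ e i j ≤ g i j ∧ g i j < 2 ^ (e i j + 1)

/-- everything for a finite set of configurations with chosen refinements -/
def Ok (N : ℕ) (eg eh : Fin 5 → Fin 5 → ℕ) (F : Finset Cf) (G H : Cf → Fin 5 → Fin 5 → ℕ) : Prop :=
  ∀ q ∈ F, Cfg N q.1 q.2 ∧ Mat q.1 q.2 (G q) (H q) ∧ Bx eg (G q) ∧ Bx eh (H q)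

/-- `min` of the two sizes of the pair (column 1, column 2) -/
noncomputable def rq (eg eh : Fin 5 → Fin 5 → ℕ) : ℝ :=
  min (∑ i, ((eg i 1 : ℝ) + eg i 2)) (∑ i, ((eh i 1 : ℝ) + eh i 2))

/-- `min` of the two sizes of the pair (row 1, row 2) -/
noncomputable def rp (eg eh : Fin 5 → Fin 5 → ℕ) : ℝ :=
  min (∑ j, ((eg 1 j : ℝ) + eg 2 j)) (∑ j, ((eh 1 j : ℝ) + eh 2 j))

/-- the known divisors of the pair (row 1, row 2) -/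
noncomputable def dd (eg eh : Fin 5 → Fin 5 → ℕ) : ℝ :=
  ((eg 1 0 : ℝ) + eg 1 1 + eg 1 2 + eg 2 0 + eg 2 1 + eg 2 2) +
    ((eh 1 0 : ℝ) + eh 1 1 + eh 1 2 + eh 2 0 + eh 2 1 + eh 2 2)

noncomputable def bnd (eg eh : Fin 5 → Fin 5 → ℕ) : ℝ :=
  (∑ i, (eg i 0 : ℝ)) / 2 + ((eg 0 3 : ℝ) + eg 0 4) / 2 + rq eg eh +
    max 0 (rp eg eh - dd eg eh) + ((eg 3 3 : ℝ) + eg 3 4 + eg 4 3 + eg 4 4) / 4

/-- exchange of the two pairs -/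
def pm : Fin 5 → Fin 5 := ![0, 3, 4, 1, 2]

end H38.HF
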