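import Pool.Agent.H38.HE.From
import Pool.Agent.H38.HF.Defs

/-!
From cubes to configurations.
-/

set_option autoImplicit false

open Finset

namespace H38.HF

open H38.HC H38.HD

/-- Face: `S₀ E₀ = S₁ E₁`: `α₁ = gcd(S₀, S₁)`, `S₀ = α₁ β`, `S₁ = α₁ γ`, `E₀ = γ δ₁`, `E₁ = β δ₁`,
`t = gcd(α₁, δ₁)`. -/
theorem face (S₀ E₀ S₁ E₁ : ℕ) (h0 : 0 < S₀) (h1 : 0 < E₀) (h2 : 0 < S₁) (h3 : 0 < E₁)
    (h : S₀ * E₀ = S₁ * E₁) : ∃ x : Fin 5 → ℕ, Fc x ∧ S₀ = x 0 * x 1 * x 3 ∧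
      S₁ = x 0 * x 1 * x 4 ∧ E₀ = x 0 * x 2 * x 4 ∧ E₁ = x 0 * x 2 * x 3 := by
  obtain ⟨α, hα⟩ : ∃ α, α = Nat.gcd S₀ S₁ := ⟨_, rfl⟩
  have hα0 : 0 < α := hα ▸ Nat.gcd_pos_of_pos_left _ h0
  obtain ⟨β, hβ⟩ : α ∣ S₀ := hα ▸ Nat.gcd_dvd_left _ _
  obtain ⟨γ, hγ⟩ : α ∣ S₁ := hα ▸ Nat.gcd_dvd_right _ _
  have hβγ : Nat.Coprime β γ := by
    have h4 : α * Nat.gcd β γ = α * 1 := by
      rw [← Nat.gcd_mul_left, ← hβ, ← hγ, ← hα, mul_one]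
    exact Nat.eq_of_mul_eq_mul_left hα0 h4
  have hβ0 : 0 < β := Nat.pos_of_ne_zero fun h5 => by
    rw [h5, mul_zero] at hβ
    omega
  have hγ0 : 0 < γ := Nat.pos_of_ne_zero fun h5 => by
    rw [h5, mul_zero] at hγ
    omega
  have h6 : β * E₀ = γ * E₁ := by
    have h7 : α * (β * E₀) = α * (γ * E₁) := by
      rw [← mul_assoc, ← hβ, h, hγ, mul_assoc]
    exact Nat.eq_of_mul_eq_mul_left hα0 h7
  obtain ⟨δ, hδ⟩ : β ∣ E₁ := by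
    refine hβγ.dvd_of_dvd_mul_left ?_
    rw [← h6]
    exact dvd_mul_right _ _
  have hδ0 : 0 < δ := Nat.pos_of_ne_zero fun h5 => by
    rw [h5, mul_zero] at hδ
    omega
  have hE0 : E₀ = γ * δ := by
    have h8 : β * E₀ = β * (γ * δ) := by
      rw [h6, hδ]
      ring
    exact Nat.eq_of_mul_eq_mul_left hβ0 h8
  obtain ⟨t, ht⟩ : ∃ t, t = Nat.gcd α δ := ⟨_, rfl⟩
  have ht0 : 0 < t := ht ▸ Nat.gcd_pos_of_pos_left _ hα0
  obtain ⟨a, ha⟩ : t ∣ α := ht ▸ Nat.gcd_dvd_left _ _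
  obtain ⟨b, hb⟩ : t ∣ δ := ht ▸ Nat.gcd_dvd_right _ _
  have hab : Nat.Coprime a b := by
    have h4 : t * Nat.gcd a b = t * 1 := by
      rw [← Nat.gcd_mul_left, ← ha, ← hb, ← ht, mul_one]
    exact Nat.eq_of_mul_eq_mul_left ht0 h4
  have ha0 : 0 < a := Nat.pos_of_ne_zero fun h5 => by
    rw [h5, mul_zero] at ha
    omega
  have hb0 : 0 < b := Nat.pos_of_ne_zero fun h5 => by
    rw [h5, mul_zero] at hb
    omega
  refine ⟨![t, a, b, β, γ], ⟨fun i => ?_, hab, hβγ⟩, ?_, ?_, ?_, ?_⟩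
  · fin_cases i
    · exact ht0
    · exact ha0
    · exact hb0
    · exact hβ0
    · exact hγ0
  · show S₀ = t * a * β
    rw [hβ, ha]
  · show S₁ = t * a * γ
    rw [hγ, ha]
  · show E₀ = t * b * γ
    rw [hE0, hb]
    ring
  · show E₁ = t * b * β
    rw [hδ, hb]
    ring

private theorem conf_prod (x : Fin 5 → ℕ) : ∏ i, fa x i = x 0 ^ 2 * x 1 * x 2 * x 3 * x 4 := by
  rw [Fin.prod_univ_five]
  rfl

/-- the relation between a cube and its configuration -/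
private def ConfR (c : ℤ × (Fin 3 → ℤ)) (q : Cf) : Prop :=
  c.2 0 = ((∏ i, fa q.1 i : ℕ) : ℤ) ∧ 4 * c.1 + 2 * c.2 0 = tt q.1 ∧ 4 * c.2 1 = cc q.1 ∧
    4 * (c.1 + c.2 2) + 2 * c.2 0 = tt q.2

private theorem conf_inj {c c' : ℤ × (Fin 3 → ℤ)} {q : Cf} (h : ConfR c q) (h' : ConfR c' q) :
    c = c' := by
  obtain ⟨h1, h2, h3, h4⟩ := h
  obtain ⟨h1', h2', h3', h4'⟩ := h'
  have e0 : c.2 0 = c'.2 0 := h1.trans h1'.symm
  have e1 : c.1 = c'.1 := by linarith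
  have e2 : c.2 1 = c'.2 1 := by linarith
  have e3 : c.2 2 = c'.2 2 := by linarith
  refine Prod.ext e1 (funext fun i => ?_)
  fin_cases i
  · exact e0
  · exact e2
  · exact e3

private theorem conf_exists {N : ℕ} {c : ℤ × (Fin 3 → ℤ)} (hc : c ∈ Pos 0 N) :
    ∃ q : Cf, Cfg N q.1 q.2 ∧ ConfR c q := by
  have hc1 : c ∈ Cubes 3 N := hc.1
  have hpos : 0 < c.2 0 := hc.2
  choose x hx using fun j => (base_sq hc1 j).1
  choose y hy using fun j => (base_sq hc1 j).2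
  have hxy : ∀ j, x j < y j := fun j => by
    have h1 : (x j : ℤ) ^ 2 < (y j : ℤ) ^ 2 := by rw [← hx, ← hy]; linarith
    have h2 : x j ^ 2 < y j ^ 2 := by exact_mod_cast h1
    exact lt_of_pow_lt_pow_left₀ 2 (Nat.zero_le _) h2
  obtain ⟨s, hs⟩ : ∃ s : Fin 4 → ℕ, ∀ j, (s j : ℤ) = y j - x j :=
    ⟨fun j => y j - x j, fun j => by push_cast [Nat.cast_sub (hxy j).le]; ring⟩
  obtain ⟨e, he⟩ : ∃ e : Fin 4 → ℕ, ∀ j, (e j : ℤ) = y j + x j :=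
    ⟨fun j => y j + x j, fun j => by push_cast; ring⟩
  have hs0 : ∀ j, 0 < s j := fun j => by
    have h1 := hxy j
    have h2 := hs j
    omega
  have he0 : ∀ j, 0 < e j := fun j => by
    have h1 := hxy j
    have h2 := he j
    omega
  have hse : ∀ j, (s j : ℤ) * e j = c.2 0 := fun j => by
    rw [hs, he]
    linear_combination hx j - hy j
  have hse' : ∀ i j, s i * e i = s j * e j := fun i j => by
    have h1 := (hse i).trans (hse j).symm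
    exact_mod_cast h1
  have hsum : ∀ j, (s j : ℤ) ^ 2 + (e j : ℤ) ^ 2 = 4 * base c j + 2 * c.2 0 := fun j => by
    rw [hs, he]
    linear_combination (-2 : ℤ) * hy j - 2 * hx j
  obtain ⟨X, hX, X0, X1, X2, X3⟩ := face (s 0) (e 0) (s 1) (e 1) (hs0 0) (he0 0) (hs0 1) (he0 1)
    (hse' 0 1)
  obtain ⟨Y, hY, Y0, Y1, Y2, Y3⟩ := face (s 2) (e 2) (s 3) (e 3) (hs0 2) (he0 2) (hs0 3) (he0 3)
    (hse' 2 3)
  have b0 : base c 0 = c.1 := rfl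
  have b1 : base c 1 = c.1 + c.2 1 := rfl
  have b2 : base c 2 = c.1 + c.2 2 := rfl
  have b3 : base c 3 = c.1 + c.2 1 + c.2 2 := rfl
  have pX : ((∏ i, fa X i : ℕ) : ℤ) = c.2 0 := by
    rw [conf_prod, ← hse 0, X0, X2]
    push_cast
    ring
  have pY : ((∏ i, fa Y i : ℕ) : ℤ) = c.2 0 := by
    rw [conf_prod, ← hse 2, Y0, Y2]
    push_cast
    ring
  have tX : tt X = 4 * c.1 + 2 * c.2 0 := by
    rw [← b0, ← hsum 0, X0, X2, tt]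
    push_cast
    ring
  have tY : tt Y = 4 * (c.1 + c.2 2) + 2 * c.2 0 := by
    rw [← b2, ← hsum 2, Y0, Y2, tt]
    push_cast
    ring
  have cX : cc X = 4 * c.2 1 := by
    have h1 : cc X = ((s 1 : ℤ) ^ 2 + (e 1 : ℤ) ^ 2) - ((s 0 : ℤ) ^ 2 + (e 0 : ℤ) ^ 2) := by
      rw [X0, X1, X2, X3, cc]
      push_cast
      ring
    rw [h1, hsum, hsum, b0, b1]
    ring
  have cY : cc Y = 4 * c.2 1 := by
    have h1 : cc Y = ((s 3 : ℤ) ^ 2 + (e 3 : ℤ) ^ 2) - ((s 2 : ℤ) ^ 2 + (e 2 : ℤ) ^ 2) := by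
      rw [Y0, Y1, Y2, Y3, cc]
      push_cast
      ring
    rw [h1, hsum, hsum, b2, b3]
    ring
  have n0 : c.2 0 ≤ N := le_trans (le_abs_self _) (hc1.2.2.1 0).2
  have n1 := (hc1.2.2.1 1).1
  have n1' := (hc1.2.2.1 1).2
  have n2 := (hc1.2.2.1 2).1
  refine ⟨(X, Y), ⟨hX, hY, ?_, ?_, ?_, ?_, ?_, ?_⟩, pX.symm, tX.symm, cX.symm, tY.symm⟩
  · have h1 := pX.trans pY.symm
    exact_mod_cast h1
  · have h1 : ((∏ i, fa X i : ℕ) : ℤ) ≤ N := by rw [pX]; exact n0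
    exact_mod_cast h1
  · rw [cX, cY]
  · rw [cX]
    intro h1
    apply n1
    linarith
  · rw [cX, abs_mul]
    have h1 : |(4 : ℤ)| = 4 := rfl
    rw [h1]
    linarith
  · rw [tX, tY]
    intro h1
    apply n2
    linarith

private theorem conf_card {N : ℕ} {B : ℝ}
    (hcfg : ∀ F : Finset Cf, (∀ q ∈ F, Cfg N q.1 q.2) → (F.card : ℝ) ≤ B) :
    ((Pos 0 N).ncard : ℝ) ≤ B := by
  classical
  have h1 : ∀ c : ℤ × (Fin 3 → ℤ), ∃ q : Cf, c ∈ Pos 0 N → Cfg N q.1 q.2 ∧ ConfR c q := by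
    intro c
    by_cases hc : c ∈ Pos 0 N
    · obtain ⟨q, hq⟩ := conf_exists hc
      exact ⟨q, fun _ => hq⟩
    · exact ⟨(fun _ => 0, fun _ => 0), fun h => absurd h hc⟩
  choose f hf using h1
  rw [Set.ncard_eq_toFinset_card _ (finite_pos 0 N)]
  have h2 : ((finite_pos 0 N).toFinset.image f).card = (finite_pos 0 N).toFinset.card := by
    refine card_image_of_injOn ?_
    intro c hc c' hc' h
    rw [Finset.mem_coe, Set.Finite.mem_toFinset] at hc hc'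
    have h3 := (hf c hc).2
    have h4 := (hf c' hc').2
    rw [← h] at h4
    exact conf_inj h3 h4
  rw [← h2]
  refine hcfg _ fun q hq => ?_
  rw [mem_image] at hq
  obtain ⟨c, hc, rfl⟩ := hq
  rw [Set.Finite.mem_toFinset] at hc
  exact (hf c hc).1

/-- `Pos 0 N` injects into the configurations: `a_1 = S_j E_j` with `S_j = y_j - x_j`,
`E_j = y_j + x_j` (squares `x_j²`, `y_j² = x_j² + a_1` of the cube, `j = 0, 1, 2, 3` for `a_0`,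
`a_0 + a_2`, `a_0 + a_3`, `a_0 + a_2 + a_3`); faces `(0, 1)` and `(2, 3)`; `cc = 4 a_2` by
`S_1² + E_1² - S_0² - E_0² = 4 a_2`, `tt x = S_0² + E_0² = 2 (2 a_0 + a_1)`, so `tt x ≠ tt y` as
`a_3 ≠ 0`. Then `card_pos`, `card_cubes_le` as in HE/From. -/
theorem from_cfg_gen (κ : ℝ) (hcfg : ∀ ε : ℝ, 0 < ε → ∃ K : ℝ, 0 < K ∧ ∀ N : ℕ, 1 ≤ N →
      ∀ F : Finset Cf, (∀ q ∈ F, Cfg N q.1 q.2) → (F.card : ℝ) ≤ K * (N : ℝ) ^ (κ + ε))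
    (d : ℕ) (hd : 3 ≤ d) (ε : ℝ) (hε : 0 < ε) : ∃ C : ℝ, ∀ N : ℕ, 1 ≤ N →
      (Cubes d N).Finite ∧ ((Cubes d N).ncard : ℝ) ≤ C * (N : ℝ) ^ (κ + ε) := by
  obtain ⟨e, rfl⟩ : ∃ e, d = e + 3 := ⟨d - 3, by omega⟩
  obtain ⟨δ, hδ⟩ : ∃ δ : ℝ, δ = ε / (1 + (e + 3)) := ⟨_, rfl⟩
  have hδ0 : 0 < δ := hδ ▸ by positivity
  obtain ⟨C, hC, hdiv⟩ := Pool.Agent.H5.W.divisor_bound δ hδ0
  obtain ⟨K, hK, hcard⟩ := hcfg δ hδ0
  refine ⟨2 * (C ^ (e + 3) * K), fun N hN => ⟨finite_cubes _ N, ?_⟩⟩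
  have hN0 : (0 : ℝ) < N := by exact_mod_cast hN
  obtain ⟨T, hT⟩ : ∃ T : ℝ, T = C * (N : ℝ) ^ δ := ⟨_, rfl⟩
  have hTb : ∀ m : ℕ, 1 ≤ m → m ≤ N → (m.divisors.card : ℝ) ≤ T := fun m h1 h2 => by
    rw [hT]
    refine (hdiv m h1).trans (mul_le_mul_of_nonneg_left ?_ hC.le)
    exact Real.rpow_le_rpow (by positivity) (by exact_mod_cast h2) hδ0.le
  have h1 := card_cubes_le e N
  have h2 := card_pos e N T hTb
  have h3 := conf_card (hcard N hN)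
  have hT0 : 0 ≤ T := by rw [hT]; positivity
  have h1' : ((Cubes (e + 3) N).ncard : ℝ) ≤ 2 * (Pos e N).ncard := by exact_mod_cast h1
  have hpow : T ^ (e + 3) * (N : ℝ) ^ δ = C ^ (e + 3) * (N : ℝ) ^ ε := by
    have h6 : ((N : ℝ) ^ δ) ^ (1 + (e + 3)) = (N : ℝ) ^ ε := by
      rw [← Real.rpow_natCast, ← Real.rpow_mul hN0.le]
      congr 1
      rw [hδ]
      push_cast
      field_simp
    calc T ^ (e + 3) * (N : ℝ) ^ δ
        = C ^ (e + 3) * ((N : ℝ) ^ δ) ^ (1 + (e + 3)) := by rw [hT]; ring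
      _ = _ := by rw [h6]
  have hsplit : ∀ x : ℝ, (N : ℝ) ^ (κ + x) = (N : ℝ) ^ κ * (N : ℝ) ^ x := fun x =>
    Real.rpow_add hN0 _ _
  calc ((Cubes (e + 3) N).ncard : ℝ) ≤ 2 * (Pos e N).ncard := h1'
    _ ≤ 2 * ((Pos 0 N).ncard * T ^ (e + 3)) := by linarith
    _ ≤ 2 * ((K * (N : ℝ) ^ (κ + δ)) * T ^ (e + 3)) := by
        have := mul_le_mul_of_nonneg_right h3 (pow_nonneg hT0 (e + 3))
        linarith
    _ = 2 * (K * (T ^ (e + 3) * (N : ℝ) ^ δ) * (N : ℝ) ^ κ) := by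
        rw [hsplit δ]; ring
    _ = 2 * (C ^ (e + 3) * K) * ((N : ℝ) ^ κ * (N : ℝ) ^ ε) := by
        rw [hpow]; ring
    _ = 2 * (C ^ (e + 3) * K) * (N : ℝ) ^ (κ + ε) := by
        rw [← hsplit ε]

/-- the exponent `5/8` -/
theorem from_cfg (hcfg : ∀ ε : ℝ, 0 < ε → ∃ K : ℝ, 0 < K ∧ ∀ N : ℕ, 1 ≤ N →
      ∀ F : Finset Cf, (∀ q ∈ F, Cfg N q.1 q.2) → (F.card : ℝ) ≤ K * (N : ℝ) ^ (5 / 8 + ε))
    (d : ℕ) (hd : 3 ≤ d) (ε : ℝ) (hε : 0 < ε) : ∃ C : ℝ, ∀ N : ℕ, 1 ≤ N →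
      (Cubes d N).Finite ∧ ((Cubes d N).ncard : ℝ) ≤ C * (N : ℝ) ^ (5 / 8 + ε) :=
  from_cfg_gen (5 / 8) hcfg d hd ε hε

end H38.HF
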