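import Pool.Agent.H38.HF.Defs

/-!
The coefficient condition `A D ≠ B C` of the last block.
-/

set_option autoImplicit false

open Finset

namespace H38.HF

private theorem Cross_cop (p q : ℤ) (h : IsCoprime p q) : IsCoprime (p * q) (q ^ 2 - p ^ 2) := by
  apply IsCoprime.mul_left
  · have h1 : IsCoprime p (q ^ 2) := h.pow_right
    have h2 := h1.add_mul_left_right (-p)
    have h3 : q ^ 2 + p * -p = q ^ 2 - p ^ 2 := by ring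
    rwa [h3] at h2
  · have h1 : IsCoprime q (-p ^ 2) := by
      have := (h.symm.pow_right (n := 2)).neg_right
      simpa using this
    have h2 := h1.add_mul_left_right q
    have h3 : -p ^ 2 + q * q = q ^ 2 - p ^ 2 := by ring
    rwa [h3] at h2

private theorem Cross_int (a p q u v b r s w z : ℤ) (ha : 0 < a) (hp : 0 < p) (hq : 0 < q)
    (hu : 0 < u) (hv : 0 < v) (hb : 0 < b) (hr : 0 < r) (hs : 0 < s) (hw : 0 < w) (hz : 0 < z)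
    (c1 : IsCoprime p q) (c2 : IsCoprime r s)
    (h1 : a ^ 2 * (u * v) * (p * q) = b ^ 2 * (w * z) * (r * s))
    (h2 : a ^ 2 * (q ^ 2 - p ^ 2) * (u ^ 2 - v ^ 2) = b ^ 2 * (s ^ 2 - r ^ 2) * (w ^ 2 - z ^ 2))
    (h3 : q ^ 2 - p ^ 2 ≠ 0)
    (hE : (a ^ 2 * (q ^ 2 - p ^ 2) * (u * v)) ^ 2 = (b ^ 2 * (s ^ 2 - r ^ 2) * (w * z)) ^ 2) :
    a ^ 2 * (p ^ 2 * u ^ 2 + q ^ 2 * v ^ 2) = b ^ 2 * (r ^ 2 * w ^ 2 + s ^ 2 * z ^ 2) := by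
  have hpq : 0 < p * q := mul_pos hp hq
  have hrs : 0 < r * s := mul_pos hr hs
  have hA : 0 < a ^ 2 * (u * v) := by positivity
  have hB : 0 < b ^ 2 * (w * z) := by positivity
  have s1 : (q ^ 2 - p ^ 2) ^ 2 * (r * s) ^ 2 = (s ^ 2 - r ^ 2) ^ 2 * (p * q) ^ 2 := by
    have hne : (b ^ 2 * (w * z)) ^ 2 * (r * s) ^ 2 ≠ 0 := by positivity
    apply mul_left_cancel₀ hne
    have e1 : (a ^ 2 * (u * v)) ^ 2 * (p * q) ^ 2 = (b ^ 2 * (w * z)) ^ 2 * (r * s) ^ 2 := by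
      rw [← mul_pow, h1, mul_pow]
    calc (b ^ 2 * (w * z)) ^ 2 * (r * s) ^ 2 * ((q ^ 2 - p ^ 2) ^ 2 * (r * s) ^ 2)
        = (a ^ 2 * (u * v)) ^ 2 * (p * q) ^ 2 * ((q ^ 2 - p ^ 2) ^ 2 * (r * s) ^ 2) := by rw [e1]
      _ = (a ^ 2 * (q ^ 2 - p ^ 2) * (u * v)) ^ 2 * ((p * q) ^ 2 * (r * s) ^ 2) := by ring
      _ = (b ^ 2 * (s ^ 2 - r ^ 2) * (w * z)) ^ 2 * ((p * q) ^ 2 * (r * s) ^ 2) := by rw [hE]
      _ = _ := by ring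
  have d1 : (p * q) ^ 2 ∣ (r * s) ^ 2 := by
    have hc : IsCoprime ((p * q) ^ 2) ((q ^ 2 - p ^ 2) ^ 2) := (Cross_cop p q c1).pow
    apply hc.dvd_of_dvd_mul_left
    rw [s1]
    exact Dvd.intro_left _ rfl
  have d2 : (r * s) ^ 2 ∣ (p * q) ^ 2 := by
    have hc : IsCoprime ((r * s) ^ 2) ((s ^ 2 - r ^ 2) ^ 2) := (Cross_cop r s c2).pow
    apply hc.dvd_of_dvd_mul_left
    rw [← s1]
    exact Dvd.intro_left _ rfl
  have e2 : (p * q) ^ 2 = (r * s) ^ 2 :=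
    Int.dvd_antisymm (by positivity) (by positivity) d1 d2
  have e3 : p * q = r * s := by
    exact (pow_left_inj₀ hpq.le hrs.le (by norm_num)).1 e2
  have e4 : (q ^ 2 - p ^ 2) ^ 2 = (s ^ 2 - r ^ 2) ^ 2 := by
    rw [e3] at s1
    have hne : (r * s) ^ 2 ≠ 0 := by positivity
    exact mul_right_cancel₀ hne s1
  have e5 : q ^ 2 + p ^ 2 = s ^ 2 + r ^ 2 := by
    have : (q ^ 2 + p ^ 2) ^ 2 = (s ^ 2 + r ^ 2) ^ 2 := by
      have t1 : (q ^ 2 + p ^ 2) ^ 2 = (q ^ 2 - p ^ 2) ^ 2 + 4 * (p * q) ^ 2 := by ring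
      have t2 : (s ^ 2 + r ^ 2) ^ 2 = (s ^ 2 - r ^ 2) ^ 2 + 4 * (r * s) ^ 2 := by ring
      rw [t1, t2, e4, e2]
    exact (pow_left_inj₀ (by positivity) (by positivity) (by norm_num)).1 this
  have e6 : a ^ 2 * (u * v) = b ^ 2 * (w * z) := by
    rw [e3] at h1
    exact mul_right_cancel₀ hrs.ne' h1
  have key : ∀ w' z' : ℤ, 0 < w' → 0 < z' → a ^ 2 * (u * v) = b ^ 2 * (w' * z') →
      a ^ 2 * (u ^ 2 - v ^ 2) = b ^ 2 * (w' ^ 2 - z' ^ 2) →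
      a ^ 2 * (u ^ 2 + v ^ 2) = b ^ 2 * (w' ^ 2 + z' ^ 2) := by
    intro w' z' hw' hz' k1 k2
    have : (a ^ 2 * (u ^ 2 + v ^ 2)) ^ 2 = (b ^ 2 * (w' ^ 2 + z' ^ 2)) ^ 2 := by
      have t1 : (a ^ 2 * (u ^ 2 + v ^ 2)) ^ 2 =
        (a ^ 2 * (u ^ 2 - v ^ 2)) ^ 2 + 4 * (a ^ 2 * (u * v)) ^ 2 := by ring
      have t2 : (b ^ 2 * (w' ^ 2 + z' ^ 2)) ^ 2 =
        (b ^ 2 * (w' ^ 2 - z' ^ 2)) ^ 2 + 4 * (b ^ 2 * (w' * z')) ^ 2 := by ring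
      rw [t1, t2, k1, k2]
    exact (pow_left_inj₀ (by positivity) (by positivity) (by norm_num)).1 this
  rcases sq_eq_sq_iff_eq_or_eq_neg.1 e4 with h | h
  · have q1 : q ^ 2 = s ^ 2 := by linarith
    have p1 : p ^ 2 = r ^ 2 := by linarith
    rw [h] at h2 h3
    have k2 : a ^ 2 * (u ^ 2 - v ^ 2) = b ^ 2 * (w ^ 2 - z ^ 2) := by
      apply mul_left_cancel₀ h3
      linear_combination h2
    have k3 := key w z hw hz e6 k2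
    have m1 : a ^ 2 * u ^ 2 = b ^ 2 * w ^ 2 := by linarith
    have m2 : a ^ 2 * v ^ 2 = b ^ 2 * z ^ 2 := by linarith
    rw [q1, p1]
    linear_combination r ^ 2 * m1 + s ^ 2 * m2
  · have q1 : q ^ 2 = r ^ 2 := by linarith
    have p1 : p ^ 2 = s ^ 2 := by linarith
    have h4 : s ^ 2 - r ^ 2 ≠ 0 := by
      intro h0
      exact h3 (by rw [h, h0, neg_zero])
    rw [h] at h2
    have e6' : a ^ 2 * (u * v) = b ^ 2 * (z * w) := by rw [e6]; ring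
    have k2 : a ^ 2 * (u ^ 2 - v ^ 2) = b ^ 2 * (z ^ 2 - w ^ 2) := by
      apply mul_left_cancel₀ h4
      linear_combination -h2
    have k3 := key z w hz hw e6' k2
    have m1 : a ^ 2 * u ^ 2 = b ^ 2 * z ^ 2 := by linarith
    have m2 : a ^ 2 * v ^ 2 = b ^ 2 * w ^ 2 := by linarith
    rw [q1, p1]
    linear_combination s ^ 2 * m1 + r ^ 2 * m2

theorem cross_ne (x y : Fin 5 → ℕ) (hx : Fc x) (hy : Fc y)
    (h1 : ∏ i, fa x i = ∏ i, fa y i) (h2 : cc x = cc y) (h3 : cc x ≠ 0) (h4 : tt x ≠ tt y) :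
    ((x 0 : ℤ) ^ 2 * ((x 2 : ℤ) ^ 2 - (x 1 : ℤ) ^ 2) * ((x 3 : ℤ) * x 4)) ^ 2 ≠
      ((y 0 : ℤ) ^ 2 * ((y 2 : ℤ) ^ 2 - (y 1 : ℤ) ^ 2) * ((y 3 : ℤ) * y 4)) ^ 2 := by
  intro hE
  apply h4
  obtain ⟨hx0, hx1, hx2⟩ := hx
  obtain ⟨hy0, hy1, hy2⟩ := hy
  have g1 : (x 0 : ℤ) ^ 2 * ((x 3 : ℤ) * x 4) * ((x 1 : ℤ) * x 2) =
      (y 0 : ℤ) ^ 2 * ((y 3 : ℤ) * y 4) * ((y 1 : ℤ) * y 2) := by
    have h := congrArg (fun n : ℕ => (n : ℤ)) h1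
    simp only [Fin.prod_univ_five, fa] at h
    push_cast at h

    linear_combination h
  have g3 : (x 2 : ℤ) ^ 2 - (x 1 : ℤ) ^ 2 ≠ 0 := by
    intro h0
    apply h3
    unfold cc
    rw [h0]
    ring
  have p := fun i => Int.natCast_pos.2 (hx0 i)
  have p' := fun i => Int.natCast_pos.2 (hy0 i)
  have := Cross_int (x 0) (x 1) (x 2) (x 3) (x 4) (y 0) (y 1) (y 2) (y 3) (y 4)
    (p 0) (p 1) (p 2) (p 3) (p 4) (p' 0) (p' 1) (p' 2) (p' 3) (p' 4)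
    (Nat.isCoprime_iff_coprime.2 hx1) (Nat.isCoprime_iff_coprime.2 hy1) g1 h2 g3 hE
  exact this

end H38.HF
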