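import Pool.Agent.H38.HF.Defs

/-!
Number of values of `(y 0, y 1, y 2)`.
-/

set_option autoImplicit false

open Finset

namespace H38.HF

/-- products over a column of a box -/
theorem Key1_prod (e g : Fin 5 → Fin 5 → ℕ) (hb : Bx e g) (j : Fin 5) :
    ∏ i, g i j < 2 ^ (∑ i, e i j + 5) := by
  have h1 : ∏ i, g i j < ∏ i, 2 ^ (e i j + 1) := by
    apply Finset.prod_lt_prod_of_nonempty
    · intro i _
      exact lt_of_lt_of_le (by positivity) (hb i j).1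
    · intro i _
      exact (hb i j).2
    · exact Finset.univ_nonempty
  rw [Finset.prod_pow_eq_pow_sum, Finset.sum_add_distrib] at h1
  simpa using h1

/-- `y 0, y 1, y 2` are bounded -/
theorem Key1_bounds (N : ℕ) (eg eh : Fin 5 → Fin 5 → ℕ) (F : Finset Cf)
    (G H : Cf → Fin 5 → Fin 5 → ℕ) (h : Ok N eg eh F G H) (q : Cf) (hq : q ∈ F) :
    0 < q.2 0 ∧ q.2 0 ^ 2 < 2 ^ (∑ i, eg i 0 + 5) ∧ q.2 1 < 2 ^ (∑ i, eg i 1 + 5) ∧
      q.2 2 < 2 ^ (∑ i, eg i 2 + 5) ∧ ((q.2 2 : ℤ) - q.2 1).natAbs < 2 ^ (∑ i, eh i 1 + 5) ∧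
      q.2 1 + q.2 2 < 2 ^ (∑ i, eh i 2 + 5) := by
  obtain ⟨hc, hm, hg, hh⟩ := h q hq
  refine ⟨hc.2.1.1 0, ?_, ?_, ?_, ?_, ?_⟩
  · have := Key1_prod eg (G q) hg 0
    rw [← hm.2.1 0] at this
    simpa [fa] using this
  · have := Key1_prod eg (G q) hg 1
    rw [← hm.2.1 1] at this
    simpa [fa] using this
  · have := Key1_prod eg (G q) hg 2
    rw [← hm.2.1 2] at this
    simpa [fa] using this
  · have := Key1_prod eh (H q) hh 1
    rw [← hm.2.2.2 1] at this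
    simpa [fc] using this
  · have := Key1_prod eh (H q) hh 2
    rw [← hm.2.2.2 2] at this
    simpa [fc] using this

theorem Key1_card0 (F : Finset Cf) (A : ℕ)
    (h : ∀ q ∈ F, 0 < q.2 0 ∧ q.2 0 ^ 2 < 2 ^ (A + 5)) :
    ((F.image fun q : Cf => q.2 0).card : ℝ) ≤ 2 ^ 3 * (2 : ℝ) ^ ((A : ℝ) / 2) := by
  classical
  have h1 : (F.image fun q : Cf => q.2 0) ⊆ Finset.Ioc 0 (Nat.sqrt (2 ^ (A + 5))) := by
    intro x hx
    obtain ⟨q, hq, rfl⟩ := Finset.mem_image.mp hx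
    rw [Finset.mem_Ioc]
    refine ⟨(h q hq).1, ?_⟩
    rw [Nat.le_sqrt]
    have := (h q hq).2
    nlinarith
  have h2 := Finset.card_le_card h1
  rw [Nat.card_Ioc, Nat.sub_zero] at h2
  have h3 : ((F.image fun q : Cf => q.2 0).card : ℝ) ≤ √((2 ^ (A + 5) : ℕ) : ℝ) :=
    le_trans (by exact_mod_cast h2) Real.nat_sqrt_le_real_sqrt
  refine le_trans h3 ?_
  rw [Real.sqrt_le_left (by positivity)]
  have h4 : ((2 : ℝ) ^ ((A : ℝ) / 2)) ^ 2 = 2 ^ A := by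
    rw [← Real.rpow_natCast, ← Real.rpow_mul (by norm_num)]
    rw [← Real.rpow_natCast]
    congr 1
    push_cast
    ring
  rw [mul_pow, h4]
  push_cast
  rw [pow_add]
  have : (0 : ℝ) < 2 ^ A := by positivity
  nlinarith

theorem Key1_card1 (F : Finset Cf) (A B : ℕ)
    (h : ∀ q ∈ F, q.2 1 < 2 ^ (A + 5) ∧ q.2 2 < 2 ^ (B + 5)) :
    ((F.image fun q : Cf => (q.2 1, q.2 2)).card : ℝ) ≤ 2 ^ 11 * (2 : ℝ) ^ ((A : ℝ) + B) := by
  classical
  have h1 : (F.image fun q : Cf => (q.2 1, q.2 2)) ⊆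
      Finset.range (2 ^ (A + 5)) ×ˢ Finset.range (2 ^ (B + 5)) := by
    intro x hx
    obtain ⟨q, hq, rfl⟩ := Finset.mem_image.mp hx
    simpa using h q hq
  have h2 := Finset.card_le_card h1
  rw [Finset.card_product, Finset.card_range, Finset.card_range] at h2
  have h3 : ((F.image fun q : Cf => (q.2 1, q.2 2)).card : ℝ) ≤ 2 ^ (A + 5) * 2 ^ (B + 5) := by
    exact_mod_cast h2
  refine le_trans h3 ?_
  have h4 : (2 : ℝ) ^ ((A : ℝ) + B) = 2 ^ A * 2 ^ B := by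
    rw [Real.rpow_add (by norm_num), Real.rpow_natCast, Real.rpow_natCast]
  rw [h4, pow_add, pow_add]
  have : (0 : ℝ) < 2 ^ A * 2 ^ B := by positivity
  nlinarith

theorem Key1_card2 (F : Finset Cf) (A B : ℕ)
    (h : ∀ q ∈ F, ((q.2 2 : ℤ) - q.2 1).natAbs < 2 ^ (A + 5) ∧ q.2 1 + q.2 2 < 2 ^ (B + 5)) :
    ((F.image fun q : Cf => (q.2 1, q.2 2)).card : ℝ) ≤ 2 ^ 11 * (2 : ℝ) ^ ((A : ℝ) + B) := by
  classical
  have h2 : (F.image fun q : Cf => (q.2 1, q.2 2)).card ≤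
      ((Finset.range (2 ^ (A + 5)) ×ˢ Finset.range (2 ^ (B + 5))) ×ˢ
        (Finset.univ : Finset Bool)).card := by
    apply Finset.card_le_card_of_injOn
      (fun z : ℕ × ℕ => ((((z.2 : ℤ) - z.1).natAbs, z.1 + z.2), decide (z.1 ≤ z.2)))
    · intro x hx
      obtain ⟨q, hq, rfl⟩ := Finset.mem_image.mp (Finset.mem_coe.mp hx)
      rw [Finset.mem_coe, Finset.mem_product, Finset.mem_product, Finset.mem_range,
        Finset.mem_range]
      exact ⟨h q hq, Finset.mem_univ _⟩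
    · rintro ⟨a, b⟩ _ ⟨c, d⟩ _ hz
      simp only [Prod.mk.injEq, decide_eq_decide] at hz
      obtain ⟨⟨h1, h2⟩, h3⟩ := hz
      simp only [Prod.mk.injEq]
      omega
  rw [Finset.card_product, Finset.card_product, Finset.card_range, Finset.card_range,
    Finset.card_univ, Fintype.card_bool] at h2
  have h3 : ((F.image fun q : Cf => (q.2 1, q.2 2)).card : ℝ) ≤
      2 ^ (A + 5) * 2 ^ (B + 5) * 2 := by
    exact_mod_cast h2
  refine le_trans h3 ?_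
  have h4 : (2 : ℝ) ^ ((A : ℝ) + B) = 2 ^ A * 2 ^ B := by
    rw [Real.rpow_add (by norm_num), Real.rpow_natCast, Real.rpow_natCast]
  rw [h4, pow_add, pow_add]
  have : (0 : ℝ) < 2 ^ A * 2 ^ B := by positivity
  nlinarith

/-- `y 0² = ∏ i, g i 0 < 2^(∑ + 5)`; `y 1 < 2^(∑ i, eg i 1 + 5)`, `y 2 < 2^(∑ i, eg i 2 + 5)`;
also `|y 2 - y 1| < 2^(∑ i, eh i 1 + 5)`, `y 1 + y 2 < 2^(∑ i, eh i 2 + 5)`, and these two with the
sign of `y 2 - y 1` determine `(y 1, y 2)`. -/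
theorem key1 (N : ℕ) (eg eh : Fin 5 → Fin 5 → ℕ) (F : Finset Cf) (G H : Cf → Fin 5 → Fin 5 → ℕ)
    (h : Ok N eg eh F G H) :
    ((F.image fun q : Cf => (q.2 0, q.2 1, q.2 2)).card : ℝ) ≤
      2 ^ 20 * (2 : ℝ) ^ ((∑ i, (eg i 0 : ℝ)) / 2) * (2 : ℝ) ^ (rq eg eh) := by
  classical
  have hb := Key1_bounds N eg eh F G H h
  have c0 := Key1_card0 F (∑ i, eg i 0) fun q hq => ⟨(hb q hq).1, (hb q hq).2.1⟩
  have c1 := Key1_card1 F (∑ i, eg i 1) (∑ i, eg i 2) fun q hq =>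
    ⟨(hb q hq).2.2.1, (hb q hq).2.2.2.1⟩
  have c2 := Key1_card2 F (∑ i, eh i 1) (∑ i, eh i 2) fun q hq =>
    ⟨(hb q hq).2.2.2.2.1, (hb q hq).2.2.2.2.2⟩
  have hP : ((F.image fun q : Cf => (q.2 1, q.2 2)).card : ℝ) ≤
      2 ^ 11 * (2 : ℝ) ^ (rq eg eh) := by
    unfold rq
    rcases min_choice (∑ i, ((eg i 1 : ℝ) + eg i 2)) (∑ i, ((eh i 1 : ℝ) + eh i 2)) with e | e
    · rw [e, Finset.sum_add_distrib]
      push_cast at c1
      exact c1
    · rw [e, Finset.sum_add_distrib]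
      push_cast at c2
      exact c2
  have hS : (F.image fun q : Cf => (q.2 0, q.2 1, q.2 2)) ⊆
      (F.image fun q : Cf => q.2 0) ×ˢ (F.image fun q : Cf => (q.2 1, q.2 2)) := by
    intro x hx
    obtain ⟨q, hq, rfl⟩ := Finset.mem_image.mp hx
    rw [Finset.mem_product]
    exact ⟨Finset.mem_image_of_mem _ hq, Finset.mem_image_of_mem _ hq⟩
  have h5 := Finset.card_le_card hS
  rw [Finset.card_product] at h5
  have h6 : ((F.image fun q : Cf => (q.2 0, q.2 1, q.2 2)).card : ℝ) ≤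
      ((F.image fun q : Cf => q.2 0).card : ℝ) *
        ((F.image fun q : Cf => (q.2 1, q.2 2)).card : ℝ) := by
    exact_mod_cast h5
  push_cast at c0
  have h7 := mul_le_mul c0 hP (by positivity) (by positivity)
  refine le_trans h6 (le_trans h7 ?_)
  have p1 : (0 : ℝ) < (2 : ℝ) ^ ((∑ i, (eg i 0 : ℝ)) / 2) := by positivity
  have p2 : (0 : ℝ) < (2 : ℝ) ^ (rq eg eh) := by positivity
  have p3 := mul_pos p1 p2
  nlinarith

end H38.HF
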