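import Pool.Agent.H38.HF.Defs
import Pool.Agent.H92.DivBound

/-!
Divisor choices.
-/

set_option autoImplicit false

open Finset

namespace H38.HF

theorem Key2_prod_fc (y : Fin 5 → ℕ) : ∏ i, fc y i = (cc y).natAbs := by
  rw [Fin.prod_univ_five]
  have e : cc y = ((y 0 : ℤ) ^ 2) * (((y 2 : ℤ) - y 1) * ((y 1 : ℤ) + y 2)) *
      (((y 3 : ℤ) - y 4) * ((y 3 : ℤ) + y 4)) := by
    unfold cc
    ring
  have h1 : ((y 1 : ℤ) + y 2).natAbs = y 1 + y 2 := by omega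
  have h2 : ((y 3 : ℤ) + y 4).natAbs = y 3 + y 4 := by omega
  rw [e, Int.natAbs_mul, Int.natAbs_mul, Int.natAbs_mul, Int.natAbs_mul, Int.natAbs_pow,
    Int.natAbs_natCast, h1, h2]
  show y 0 ^ 2 * ((y 2 : ℤ) - y 1).natAbs * (y 1 + y 2) * ((y 3 : ℤ) - y 4).natAbs * (y 3 + y 4) = _
  ring

theorem Key2_fa_pos {x : Fin 5 → ℕ} (h : ∀ i, 0 < x i) (i : Fin 5) : 0 < fa x i := by
  fin_cases i
  · exact pow_pos (h 0) 2
  · exact h 1
  · exact h 2
  · exact h 3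
  · exact h 4

theorem Key2_fa_le {N : ℕ} {x y : Fin 5 → ℕ} (h : Cfg N x y) (i : Fin 5) :
    (1 ≤ fa x i ∧ fa x i ≤ N) ∧ (1 ≤ fa y i ∧ fa y i ≤ N) := by
  obtain ⟨hx, hy, he, hN, -⟩ := h
  have h1 : ∀ i, 0 < fa x i := Key2_fa_pos hx.1
  have h2 : ∀ i, 0 < fa y i := Key2_fa_pos hy.1
  have hp : 0 < ∏ i, fa x i := Finset.prod_pos fun i _ => h1 i
  refine ⟨⟨h1 i, ?_⟩, ⟨h2 i, ?_⟩⟩
  · exact (Nat.le_of_dvd hp (Finset.dvd_prod_of_mem _ (Finset.mem_univ i))).trans hN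
  · have hp' : 0 < ∏ i, fa y i := by rw [← he]; exact hp
    refine (Nat.le_of_dvd hp' (Finset.dvd_prod_of_mem _ (Finset.mem_univ i))).trans ?_
    rw [← he]
    exact hN

theorem Key2_fc_le {N : ℕ} {x y : Fin 5 → ℕ} (h : Cfg N x y) (i : Fin 5) :
    1 ≤ fc y i ∧ fc y i ≤ 4 * N := by
  obtain ⟨-, -, -, -, hc, hc0, hcN, -⟩ := h
  have h1 := Key2_prod_fc y
  have h2 : (cc y).natAbs ≠ 0 := by
    rw [← hc]
    exact Int.natAbs_ne_zero.2 hc0
  have h3 : (cc y).natAbs ≤ 4 * N := by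
    rw [← hc]
    have : ((cc x).natAbs : ℤ) ≤ 4 * (N : ℤ) := by
      rw [Int.natCast_natAbs]
      exact hcN
    exact_mod_cast this
  have hp : 0 < ∏ i, fc y i := by
    rw [h1]
    exact Nat.pos_of_ne_zero h2
  have hd : fc y i ∣ ∏ i, fc y i := Finset.dvd_prod_of_mem _ (Finset.mem_univ i)
  refine ⟨?_, (Nat.le_of_dvd hp hd).trans (h1.le.trans h3)⟩
  rcases Nat.eq_zero_or_pos (fc y i) with h0 | h0
  · rw [h0] at hd
    have := Nat.eq_zero_of_zero_dvd hd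
    omega
  · exact h0

theorem Key2_fa_eq {x x' : Fin 5 → ℕ} (h : ∀ i : Fin 5, i.val < 3 → x i = x' i) (j : Fin 3) :
    fa x (Fin.castLE (by norm_num) j) = fa x' (Fin.castLE (by norm_num) j) := by
  have h0 := h 0 (by decide)
  have h1 := h 1 (by decide)
  have h2 := h 2 (by decide)
  fin_cases j
  · show x 0 ^ 2 = x' 0 ^ 2
    rw [h0]
  · show x 1 = x' 1
    exact h1
  · show x 2 = x' 2
    exact h2

theorem Key2_fc_eq {x x' : Fin 5 → ℕ} (h : ∀ i : Fin 5, i.val < 3 → x i = x' i) (j : Fin 3) :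
    fc x (Fin.castLE (by norm_num) j) = fc x' (Fin.castLE (by norm_num) j) := by
  have h0 := h 0 (by decide)
  have h1 := h 1 (by decide)
  have h2 := h 2 (by decide)
  fin_cases j
  · show x 0 ^ 2 = x' 0 ^ 2
    rw [h0]
  · show ((x 2 : ℤ) - x 1).natAbs = ((x' 2 : ℤ) - x' 1).natAbs
    rw [h1, h2]
  · show x 1 + x 2 = x' 1 + x' 2
    rw [h1, h2]

theorem Key2_card_pi {ι α : Type} [Fintype ι] [DecidableEq ι] (S : ι → Finset α) (D : ℝ)
    (h : ∀ i, ((S i).card : ℝ) ≤ D) : ((Fintype.piFinset S).card : ℝ) ≤ D ^ Fintype.card ι := by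
  rw [Fintype.card_piFinset, Nat.cast_prod]
  refine (Finset.prod_le_prod (g := fun _ : ι => D) (fun i _ => Nat.cast_nonneg _) fun i _ => h i).trans ?_
  rw [Finset.prod_const, Finset.card_univ]

/-- Columns 0, 1, 2 of `g` and `h`, given `y 0, y 1, y 2`: every entry divides `fa y j`, `fc y j`
(`j < 3`), which are fixed and at most `4 N`. `Pool.Agent.H5.W.divisor_bound`. -/
theorem key2 (ε : ℝ) (hε : 0 < ε) : ∃ K : ℝ, 0 < K ∧ ∀ N : ℕ, 1 ≤ N →
    ∀ (eg eh : Fin 5 → Fin 5 → ℕ) (F : Finset Cf) (G H : Cf → Fin 5 → Fin 5 → ℕ),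
    Ok N eg eh F G H → ∀ q0 ∈ F, (∀ q ∈ F, ∀ i : Fin 5, i.val < 3 → q.2 i = q0.2 i) →
    ((F.image fun q : Cf => fun (i : Fin 5) (j : Fin 3) =>
      (G q i (Fin.castLE (by norm_num) j), H q i (Fin.castLE (by norm_num) j))).card : ℝ) ≤
      K * (N : ℝ) ^ ε := by
  classical
  obtain ⟨C, hC, hdiv⟩ := Pool.Agent.H5.W.divisor_bound (ε / 30) (by positivity)
  refine ⟨C ^ 30 * (4 : ℝ) ^ ε, by positivity, fun N hN eg eh F G H hOk q0 hq0 hF => ?_⟩
  have hNR : (1 : ℝ) ≤ N := by exact_mod_cast hN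
  set D : ℝ := C * (4 * (N : ℝ)) ^ (ε / 30) with hD
  have hD0 : 0 ≤ D := by positivity
  have hdv : ∀ m : ℕ, 1 ≤ m → m ≤ 4 * N → (m.divisors.card : ℝ) ≤ D := by
    intro m hm hmN
    refine (hdiv m hm).trans ?_
    rw [hD]
    refine mul_le_mul_of_nonneg_left ?_ hC.le
    refine Real.rpow_le_rpow (by positivity) ?_ (by positivity)
    exact_mod_cast hmN
  let T : Finset (Fin 5 → Fin 3 → ℕ × ℕ) := Fintype.piFinset fun _ => Fintype.piFinset fun j =>
    (fa q0.2 (Fin.castLE (by norm_num) j)).divisors ×ˢ (fc q0.2 (Fin.castLE (by norm_num) j)).divisors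
  have hsub : (F.image fun q : Cf => fun (i : Fin 5) (j : Fin 3) =>
      (G q i (Fin.castLE (by norm_num) j), H q i (Fin.castLE (by norm_num) j))) ⊆ T := by
    intro t ht
    obtain ⟨q, hq, rfl⟩ := Finset.mem_image.1 ht
    obtain ⟨hc, ⟨-, hm2, -, hm4⟩, -, -⟩ := hOk q hq
    refine Fintype.mem_piFinset.2 fun i => Fintype.mem_piFinset.2 fun j => ?_
    refine Finset.mem_product.2 ⟨Nat.mem_divisors.2 ⟨?_, ?_⟩, Nat.mem_divisors.2 ⟨?_, ?_⟩⟩
    · rw [← Key2_fa_eq (hF q hq) j, hm2]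
      exact Finset.dvd_prod_of_mem (fun i => G q i (Fin.castLE (by norm_num) j)) (Finset.mem_univ i)
    · have := (Key2_fa_le (hOk q0 hq0).1 (Fin.castLE (by norm_num) j)).2.1
      omega
    · rw [← Key2_fc_eq (hF q hq) j, hm4]
      exact Finset.dvd_prod_of_mem (fun i => H q i (Fin.castLE (by norm_num) j)) (Finset.mem_univ i)
    · have := (Key2_fc_le (hOk q0 hq0).1 (Fin.castLE (by norm_num) j)).1
      omega
  have hcard : (T.card : ℝ) ≤ D ^ 30 := by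
    have h2 : ∀ j : Fin 3, ((((fa q0.2 (Fin.castLE (by norm_num) j)).divisors ×ˢ
        (fc q0.2 (Fin.castLE (by norm_num) j)).divisors).card : ℕ) : ℝ) ≤ D * D := by
      intro j
      have ha := (Key2_fa_le (hOk q0 hq0).1 (Fin.castLE (by norm_num) j)).2
      have hc := Key2_fc_le (hOk q0 hq0).1 (Fin.castLE (by norm_num) j)
      rw [Finset.card_product, Nat.cast_mul]
      exact mul_le_mul (hdv _ ha.1 (by omega)) (hdv _ hc.1 hc.2) (Nat.cast_nonneg _) hD0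
    have h3 := Key2_card_pi _ (D * D) h2
    have h4 : (T.card : ℝ) ≤ _ := Key2_card_pi (ι := Fin 5) (fun _ => Fintype.piFinset fun j : Fin 3 =>
      (fa q0.2 (Fin.castLE (by norm_num) j)).divisors ×ˢ (fc q0.2 (Fin.castLE (by norm_num) j)).divisors)
      _ fun _ => h3
    refine h4.trans (le_of_eq ?_)
    rw [Fintype.card_fin, Fintype.card_fin]
    ring
  have h1 : ((F.image fun q : Cf => fun (i : Fin 5) (j : Fin 3) =>
      (G q i (Fin.castLE (by norm_num) j), H q i (Fin.castLE (by norm_num) j))).card : ℝ) ≤ T.card := by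
    exact_mod_cast Finset.card_le_card hsub
  refine h1.trans (hcard.trans (le_of_eq ?_))
  rw [hD, mul_pow, ← Real.rpow_natCast ((4 * (N : ℝ)) ^ (ε / 30)) 30, ← Real.rpow_mul (by positivity),
    Real.mul_rpow (by norm_num) (by positivity), mul_assoc]
  have e : ε / 30 * ((30 : ℕ) : ℝ) = ε := by
    push_cast
    ring
  rw [e]

/-- Rows 0, 1, 2 of `g`, given `x 0, x 1, x 2`: every entry divides `fa x i` (`i < 3`). -/
theorem key5 (ε : ℝ) (hε : 0 < ε) : ∃ K : ℝ, 0 < K ∧ ∀ N : ℕ, 1 ≤ N →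
    ∀ (eg eh : Fin 5 → Fin 5 → ℕ) (F : Finset Cf) (G H : Cf → Fin 5 → Fin 5 → ℕ),
    Ok N eg eh F G H → ∀ q0 ∈ F, (∀ q ∈ F, ∀ i : Fin 5, i.val < 3 → q.1 i = q0.1 i) →
    ((F.image fun q : Cf => fun (i : Fin 3) (j : Fin 5) =>
      G q (Fin.castLE (by norm_num) i) j).card : ℝ) ≤ K * (N : ℝ) ^ ε := by
  classical
  obtain ⟨C, hC, hdiv⟩ := Pool.Agent.H5.W.divisor_bound (ε / 15) (by positivity)
  refine ⟨C ^ 15, by positivity, fun N hN eg eh F G H hOk q0 hq0 hF => ?_⟩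
  have hNR : (1 : ℝ) ≤ N := by exact_mod_cast hN
  set D : ℝ := C * (N : ℝ) ^ (ε / 15) with hD
  have hD0 : 0 ≤ D := by positivity
  have hdv : ∀ m : ℕ, 1 ≤ m → m ≤ N → (m.divisors.card : ℝ) ≤ D := by
    intro m hm hmN
    refine (hdiv m hm).trans ?_
    rw [hD]
    refine mul_le_mul_of_nonneg_left ?_ hC.le
    refine Real.rpow_le_rpow (by positivity) ?_ (by positivity)
    exact_mod_cast hmN
  let T : Finset (Fin 3 → Fin 5 → ℕ) := Fintype.piFinset fun i => Fintype.piFinset fun _ =>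
    (fa q0.1 (Fin.castLE (by norm_num) i)).divisors
  have hsub : (F.image fun q : Cf => fun (i : Fin 3) (j : Fin 5) =>
      G q (Fin.castLE (by norm_num) i) j) ⊆ T := by
    intro t ht
    obtain ⟨q, hq, rfl⟩ := Finset.mem_image.1 ht
    obtain ⟨hc, ⟨hm1, -, -, -⟩, -, -⟩ := hOk q hq
    refine Fintype.mem_piFinset.2 fun i => Fintype.mem_piFinset.2 fun j => ?_
    refine Nat.mem_divisors.2 ⟨?_, ?_⟩
    · rw [← Key2_fa_eq (hF q hq) i, hm1]
      exact Finset.dvd_prod_of_mem (fun j => G q (Fin.castLE (by norm_num) i) j) (Finset.mem_univ j)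
    · have := (Key2_fa_le (hOk q0 hq0).1 (Fin.castLE (by norm_num) i)).1.1
      omega
  have hcard : (T.card : ℝ) ≤ D ^ 15 := by
    have h2 : ∀ i : Fin 3, (((Fintype.piFinset fun _ : Fin 5 =>
        (fa q0.1 (Fin.castLE (by norm_num) i)).divisors).card : ℕ) : ℝ) ≤ D ^ Fintype.card (Fin 5) := by
      intro i
      have ha := (Key2_fa_le (hOk q0 hq0).1 (Fin.castLE (by norm_num) i)).1
      exact Key2_card_pi _ D fun _ => hdv _ ha.1 ha.2
    have h4 : (T.card : ℝ) ≤ _ := Key2_card_pi (ι := Fin 3) (fun i => Fintype.piFinset fun _ : Fin 5 =>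
      (fa q0.1 (Fin.castLE (by norm_num) i)).divisors) _ h2
    refine h4.trans (le_of_eq ?_)
    rw [Fintype.card_fin, Fintype.card_fin]
    ring
  have h1 : ((F.image fun q : Cf => fun (i : Fin 3) (j : Fin 5) =>
      G q (Fin.castLE (by norm_num) i) j).card : ℝ) ≤ T.card := by
    exact_mod_cast Finset.card_le_card hsub
  refine h1.trans (hcard.trans (le_of_eq ?_))
  rw [hD, mul_pow, ← Real.rpow_natCast ((N : ℝ) ^ (ε / 15)) 15, ← Real.rpow_mul (by positivity)]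
  have e : ε / 15 * ((15 : ℕ) : ℝ) = ε := by
    push_cast
    ring
  rw [e]

end H38.HF
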