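import Pool.Agent.H38.HF.Defs

/-!
Number of values of `x 0`.
-/

set_option autoImplicit false

open Finset

namespace H38.HF

theorem key3_card (d : ℕ) (hd : 1 ≤ d) (M : ℝ) (hM : 0 ≤ M) (F : Finset ℕ)
    (hF : ∀ x ∈ F, 0 < x ∧ (x : ℝ) ≤ M ∧ d ∣ x) : (F.card : ℝ) ≤ M / d := by
  have h1 : F.card ≤ (Finset.Icc 1 (⌊M⌋₊ / d)).card := by
    apply Finset.card_le_card_of_injOn (fun x => x / d)
    · intro x hx
      obtain ⟨hx0, hxM, hdx⟩ := hF x hx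
      have h2 : x ≤ ⌊M⌋₊ := Nat.le_floor hxM
      simp only [Finset.coe_Icc, Set.mem_Icc]
      exact ⟨Nat.div_pos (Nat.le_of_dvd hx0 hdx) hd, Nat.div_le_div_right h2⟩
    · intro x hx y hy h
      have hx' := (hF x hx).2.2
      have hy' := (hF y hy).2.2
      simp only at h
      rw [← Nat.div_mul_cancel hx', ← Nat.div_mul_cancel hy', h]
  rw [Nat.card_Icc, Nat.add_sub_cancel] at h1
  have hdR : (0 : ℝ) < (d : ℝ) := by exact_mod_cast hd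
  rw [le_div_iff₀ hdR]
  have h3 : F.card * d ≤ ⌊M⌋₊ := (Nat.mul_le_mul_right d h1).trans (Nat.div_mul_le_self _ _)
  have h4 : ((F.card * d : ℕ) : ℝ) ≤ (⌊M⌋₊ : ℝ) := by exact_mod_cast h3
  push_cast at h4
  exact h4.trans (Nat.floor_le hM)

/-- `κ ∣ x²`: `κ = s² r`, `r` squarefree (`Nat.sq_mul_squarefree`), then `s r ∣ x`, `(s r)² ≥ κ`. -/
theorem sq_mult (κ : ℕ) (hκ : 1 ≤ κ) (M : ℝ) (hM : 0 ≤ M) (F : Finset ℕ)
    (hF : ∀ x ∈ F, 0 < x ∧ (x : ℝ) ≤ M ∧ κ ∣ x ^ 2) : (F.card : ℝ) ≤ M / √(κ : ℝ) := by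
  obtain ⟨r, s, hrs, hsf⟩ := Nat.sq_mul_squarefree κ
  have hs : 1 ≤ s := by
    rcases Nat.eq_zero_or_pos s with h | h
    · rw [h] at hrs
      simp at hrs
      omega
    · exact h
  have hr : 1 ≤ r := by
    rcases Nat.eq_zero_or_pos r with h | h
    · rw [h] at hrs
      simp at hrs
      omega
    · exact h
  have h1 := key3_card (s * r) (Nat.mul_pos hs hr) M hM F (by
    intro x hx
    obtain ⟨hx0, hxM, hd⟩ := hF x hx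
    refine ⟨hx0, hxM, ?_⟩
    have h2 : s ∣ x := by
      rw [← Nat.pow_dvd_pow_iff (two_ne_zero)]
      exact (Dvd.intro _ hrs).trans hd
    obtain ⟨y, rfl⟩ := h2
    refine Nat.mul_dvd_mul_left s ?_
    have h3 : s ^ 2 * r ∣ s ^ 2 * y ^ 2 := by
      rw [hrs, ← mul_pow]
      exact hd
    have h4 : r ∣ y ^ 2 := Nat.dvd_of_mul_dvd_mul_left (by positivity) h3
    exact (hsf.dvd_pow_iff_dvd two_ne_zero).1 h4)
  refine h1.trans ?_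
  have hκR : (0 : ℝ) < (κ : ℝ) := by exact_mod_cast hκ
  apply div_le_div_of_nonneg_left hM (Real.sqrt_pos.2 hκR)
  apply Real.sqrt_le_iff.2
  refine ⟨Nat.cast_nonneg _, ?_⟩
  have h5 : κ ≤ (s * r) ^ 2 := by
    rw [← hrs, mul_pow]
    apply Nat.mul_le_mul_left
    nlinarith
  exact_mod_cast h5

/-- `κ = g 0 0 * g 0 1 * g 0 2` divides `x 0² = ∏ j, g 0 j < 2^(∑ j, eg 0 j + 5)`. -/
theorem key3 (N : ℕ) (eg eh : Fin 5 → Fin 5 → ℕ) (F : Finset Cf) (G H : Cf → Fin 5 → Fin 5 → ℕ)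
    (h : Ok N eg eh F G H) (q0 : Cf) (hq0 : q0 ∈ F)
    (hc : ∀ q ∈ F, ∀ i j : Fin 5, j.val < 3 → G q i j = G q0 i j) :
    ((F.image fun q : Cf => q.1 0).card : ℝ) ≤
      2 ^ 10 * (2 : ℝ) ^ (((eg 0 3 : ℝ) + eg 0 4) / 2) := by
  set κ : ℕ := G q0 0 0 * G q0 0 1 * G q0 0 2 with hκ
  set M : ℝ := √((2 : ℝ) ^ (eg 0 0 + eg 0 1 + eg 0 2 + eg 0 3 + eg 0 4 + 5)) with hM
  have hb0 := (h q0 hq0).2.2.1
  have hκlo : 2 ^ (eg 0 0 + eg 0 1 + eg 0 2) ≤ κ := by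
    rw [pow_add, pow_add]
    exact Nat.mul_le_mul (Nat.mul_le_mul (hb0 0 0).1 (hb0 0 1).1) (hb0 0 2).1
  have hκ1 : 1 ≤ κ := (Nat.one_le_two_pow).trans hκlo
  have h1 := sq_mult κ hκ1 M (Real.sqrt_nonneg _) (F.image fun q : Cf => q.1 0) (by
    intro x hx
    rw [Finset.mem_image] at hx
    obtain ⟨q, hq, rfl⟩ := hx
    have hq' := h q hq
    have hfa : fa q.1 0 = q.1 0 ^ 2 := rfl
    have hmat := hq'.2.1.1 0
    rw [hfa, Fin.prod_univ_five] at hmat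
    have hc0 : G q 0 0 = G q0 0 0 := hc q hq 0 0 (by decide)
    have hc1 : G q 0 1 = G q0 0 1 := hc q hq 0 1 (by decide)
    have hc2 : G q 0 2 = G q0 0 2 := hc q hq 0 2 (by decide)
    refine ⟨hq'.1.1.1 0, ?_, ?_⟩
    · apply Real.le_sqrt_of_sq_le
      have hb := hq'.2.2.1
      have h2 : q.1 0 ^ 2 ≤ 2 ^ (eg 0 0 + eg 0 1 + eg 0 2 + eg 0 3 + eg 0 4 + 5) := by
        rw [hmat]
        calc G q 0 0 * G q 0 1 * G q 0 2 * G q 0 3 * G q 0 4 ≤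
            2 ^ (eg 0 0 + 1) * 2 ^ (eg 0 1 + 1) * 2 ^ (eg 0 2 + 1) * 2 ^ (eg 0 3 + 1) * 2 ^ (eg 0 4 + 1) :=
              Nat.mul_le_mul (Nat.mul_le_mul (Nat.mul_le_mul (Nat.mul_le_mul (hb 0 0).2.le
                (hb 0 1).2.le) (hb 0 2).2.le) (hb 0 3).2.le) (hb 0 4).2.le
          _ = 2 ^ (eg 0 0 + eg 0 1 + eg 0 2 + eg 0 3 + eg 0 4 + 5) := by
              rw [← pow_add, ← pow_add, ← pow_add, ← pow_add]
              congr 1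
              ring
      exact_mod_cast h2
    · rw [hmat, hc0, hc1, hc2, hκ]
      exact ⟨G q 0 3 * G q 0 4, by ring⟩)
  refine h1.trans ?_
  have hκR : (2 : ℝ) ^ (eg 0 0 + eg 0 1 + eg 0 2) ≤ (κ : ℝ) := by exact_mod_cast hκlo
  have hpos : (0 : ℝ) < (2 : ℝ) ^ (eg 0 0 + eg 0 1 + eg 0 2) := by positivity
  have hκ0 : (0 : ℝ) < (κ : ℝ) := lt_of_lt_of_le hpos hκR
  rw [hM, ← Real.sqrt_div (by positivity)]
  have h2 : (2 : ℝ) ^ (eg 0 0 + eg 0 1 + eg 0 2 + eg 0 3 + eg 0 4 + 5) / (κ : ℝ) ≤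
      (2 : ℝ) ^ (eg 0 3 + eg 0 4 + 5) := by
    rw [div_le_iff₀ hκ0]
    calc (2 : ℝ) ^ (eg 0 0 + eg 0 1 + eg 0 2 + eg 0 3 + eg 0 4 + 5) =
        (2 : ℝ) ^ (eg 0 3 + eg 0 4 + 5) * (2 : ℝ) ^ (eg 0 0 + eg 0 1 + eg 0 2) := by
          rw [← pow_add]
          congr 1
          ring
      _ ≤ (2 : ℝ) ^ (eg 0 3 + eg 0 4 + 5) * (κ : ℝ) :=
          mul_le_mul_of_nonneg_left hκR (by positivity)
  refine (Real.sqrt_le_sqrt h2).trans ?_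
  have h3 : √((2 : ℝ) ^ (eg 0 3 + eg 0 4 + 5)) ≤ √(((2 : ℝ) ^ 10) ^ 2 * (2 : ℝ) ^ ((eg 0 3 : ℝ) + eg 0 4)) := by
    apply Real.sqrt_le_sqrt
    have h4 : (2 : ℝ) ^ ((eg 0 3 : ℝ) + eg 0 4) = (2 : ℝ) ^ (eg 0 3 + eg 0 4) := by
      rw [← Nat.cast_add, Real.rpow_natCast]
    rw [h4, pow_add, mul_comm]
    apply mul_le_mul_of_nonneg_right _ (by positivity)
    norm_num
  refine h3.trans ?_
  rw [Real.sqrt_mul (by positivity), Real.sqrt_sq (by positivity)]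
  apply le_of_eq
  congr 1
  rw [Real.sqrt_eq_rpow, ← Real.rpow_mul (by norm_num)]
  congr 1
  ring

end H38.HF
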