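import Pool.Agent.H38.HF.Slo

/-!
Coprime pairs with four divisibility conditions.
-/

set_option autoImplicit false

open Finset

namespace H38.HF

theorem Lat_one (k : ℕ) (p : ℕ × ℕ) (hc : Nat.Coprime p.1 p.2) (h1 : (k : ℤ) ∣ p.1)
    (h2 : (k : ℤ) ∣ p.2) : k = 1 := by
  have h3 : k ∣ Nat.gcd p.1 p.2 :=
    Nat.dvd_gcd (Int.natCast_dvd_natCast.1 h1) (Int.natCast_dvd_natCast.1 h2)
  rw [hc] at h3
  exact Nat.dvd_one.1 h3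

theorem Lat_two (k : ℕ) (p : ℕ × ℕ) (hc : Nat.Coprime p.1 p.2) (h1 : (k : ℤ) ∣ (p.2 : ℤ) - p.1)
    (h2 : (k : ℤ) ∣ (p.1 : ℤ) + p.2) : k ∣ 2 := by
  have e1 : (k : ℤ) ∣ ((2 * p.1 : ℕ) : ℤ) := by
    have h := dvd_sub h2 h1
    rw [show (p.1 : ℤ) + p.2 - ((p.2 : ℤ) - p.1) = ((2 * p.1 : ℕ) : ℤ) by push_cast; ring] at h
    exact h
  have e2 : (k : ℤ) ∣ ((2 * p.2 : ℕ) : ℤ) := by
    have h := dvd_add h2 h1
    rw [show (p.1 : ℤ) + p.2 + ((p.2 : ℤ) - p.1) = ((2 * p.2 : ℕ) : ℤ) by push_cast; ring] at h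
    exact h
  have h3 : k ∣ Nat.gcd (2 * p.1) (2 * p.2) :=
    Nat.dvd_gcd (Int.natCast_dvd_natCast.1 e1) (Int.natCast_dvd_natCast.1 e2)
  rw [Nat.gcd_mul_left, hc, mul_one] at h3
  exact h3

/-- the coprimality of the moduli -/
theorem Lat_cop (a d H₁ H₂ : ℕ) (p : ℕ × ℕ) (hc : Nat.Coprime p.1 p.2) (ha : a ∣ p.1)
    (hd : d ∣ p.2) (h1 : (H₁ : ℤ) ∣ (p.2 : ℤ) - p.1) (h2 : (H₂ : ℤ) ∣ (p.1 : ℤ) + p.2) :
    Nat.Coprime a d ∧ Nat.Coprime (a * d) H₁ ∧ Nat.gcd (a * d * H₁) H₂ ∣ 2 := by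
  have ha' : (a : ℤ) ∣ p.1 := Int.natCast_dvd_natCast.2 ha
  have hd' : (d : ℤ) ∣ p.2 := Int.natCast_dvd_natCast.2 hd
  have L : ∀ m n : ℕ, ((Nat.gcd m n : ℕ) : ℤ) ∣ m := fun m n =>
    Int.natCast_dvd_natCast.2 (Nat.gcd_dvd_left m n)
  have R : ∀ m n : ℕ, ((Nat.gcd m n : ℕ) : ℤ) ∣ n := fun m n =>
    Int.natCast_dvd_natCast.2 (Nat.gcd_dvd_right m n)
  have c1 : Nat.Coprime a d := Lat_one _ p hc ((L a d).trans ha') ((R a d).trans hd')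
  have c2 : Nat.Coprime a H₁ := by
    refine Lat_one _ p hc ((L a H₁).trans ha') ?_
    have h := dvd_add ((L a H₁).trans ha') ((R a H₁).trans h1)
    rwa [add_sub_cancel] at h
  have c3 : Nat.Coprime d H₁ := by
    refine Lat_one _ p hc ?_ ((L d H₁).trans hd')
    have h := dvd_sub ((L d H₁).trans hd') ((R d H₁).trans h1)
    rwa [sub_sub_cancel] at h
  have c4 : Nat.Coprime a H₂ := by
    refine Lat_one _ p hc ((L a H₂).trans ha') ?_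
    have h := dvd_sub ((R a H₂).trans h2) ((L a H₂).trans ha')
    rwa [add_sub_cancel_left] at h
  have c5 : Nat.Coprime d H₂ := by
    refine Lat_one _ p hc ?_ ((L d H₂).trans hd')
    have h := dvd_sub ((R d H₂).trans h2) ((L d H₂).trans hd')
    rwa [add_sub_cancel_right] at h
  refine ⟨c1, Nat.Coprime.mul_left c2 c3, ?_⟩
  rw [Nat.Coprime.gcd_mul_left_cancel _ (Nat.Coprime.mul_left c4 c5)]
  exact Lat_two _ p hc ((L H₁ H₂).trans h1) ((R H₁ H₂).trans h2)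

/-- the cross product is divisible by the least common multiple -/
theorem Lat_dvd (a d H₁ H₂ : ℕ) (p q : ℕ × ℕ) (hp : Nat.Coprime p.1 p.2) (ha : a ∣ p.1)
    (hd : d ∣ p.2) (h1 : (H₁ : ℤ) ∣ (p.2 : ℤ) - p.1) (h2 : (H₂ : ℤ) ∣ (p.1 : ℤ) + p.2)
    (ka : a ∣ q.1) (kd : d ∣ q.2) (k1 : (H₁ : ℤ) ∣ (q.2 : ℤ) - q.1)
    (k2 : (H₂ : ℤ) ∣ (q.1 : ℤ) + q.2) :
    ((Nat.lcm (a * d * H₁) H₂ : ℕ) : ℤ) ∣ (p.1 : ℤ) * q.2 - (q.1 : ℤ) * p.2 := by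
  obtain ⟨c1, c2, -⟩ := Lat_cop a d H₁ H₂ p hp ha hd h1 h2
  have ha' : (a : ℤ) ∣ p.1 := Int.natCast_dvd_natCast.2 ha
  have hd' : (d : ℤ) ∣ p.2 := Int.natCast_dvd_natCast.2 hd
  have ka' : (a : ℤ) ∣ q.1 := Int.natCast_dvd_natCast.2 ka
  have kd' : (d : ℤ) ∣ q.2 := Int.natCast_dvd_natCast.2 kd
  have e1 : (a : ℤ) ∣ (p.1 : ℤ) * q.2 - (q.1 : ℤ) * p.2 :=
    dvd_sub (ha'.mul_right _) (ka'.mul_right _)
  have e2 : (d : ℤ) ∣ (p.1 : ℤ) * q.2 - (q.1 : ℤ) * p.2 :=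
    dvd_sub (kd'.mul_left _) (hd'.mul_left _)
  have e3 : (H₁ : ℤ) ∣ (p.1 : ℤ) * q.2 - (q.1 : ℤ) * p.2 := by
    have h := dvd_sub (k1.mul_left (p.1 : ℤ)) (h1.mul_left (q.1 : ℤ))
    rwa [show (p.1 : ℤ) * ((q.2 : ℤ) - q.1) - (q.1 : ℤ) * ((p.2 : ℤ) - p.1) =
      (p.1 : ℤ) * q.2 - (q.1 : ℤ) * p.2 by ring] at h
  have e4 : (H₂ : ℤ) ∣ (p.1 : ℤ) * q.2 - (q.1 : ℤ) * p.2 := by
    have h := dvd_sub (k2.mul_left (p.1 : ℤ)) (h2.mul_left (q.1 : ℤ))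
    rwa [show (p.1 : ℤ) * ((q.1 : ℤ) + q.2) - (q.1 : ℤ) * ((p.1 : ℤ) + p.2) =
      (p.1 : ℤ) * q.2 - (q.1 : ℤ) * p.2 by ring] at h
  rw [Int.natCast_dvd] at e1 e2 e3 e4 ⊢
  exact Nat.lcm_dvd (c2.mul_dvd_of_dvd_of_dvd (c1.mul_dvd_of_dvd_of_dvd e1 e2) e3) e4

theorem Lat_ne (p q : ℕ × ℕ) (hp : Nat.Coprime p.1 p.2) (hq : Nat.Coprime q.1 q.2)
    (hp1 : 0 < p.1) (hne : p ≠ q) : (p.1 : ℤ) * q.2 - (q.1 : ℤ) * p.2 ≠ 0 := by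
  intro h
  apply hne
  have h1 : p.1 * q.2 = q.1 * p.2 := by
    have := sub_eq_zero.1 h
    exact_mod_cast this
  have d1 : p.1 ∣ q.1 := hp.dvd_of_dvd_mul_right (h1 ▸ dvd_mul_right _ _)
  have d2 : q.1 ∣ p.1 := hq.dvd_of_dvd_mul_right (h1 ▸ dvd_mul_right _ _)
  have e1 : p.1 = q.1 := Nat.dvd_antisymm d1 d2
  rw [← e1] at h1
  exact Prod.ext e1 (Nat.eq_of_mul_eq_mul_left hp1 h1).symm

theorem Lat_inj (F : Finset (ℕ × ℕ)) (h : (∀ p ∈ F, p.1 ≤ p.2) ∨ (∀ p ∈ F, p.2 ≤ p.1)) :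
    Set.InjOn (fun p : ℕ × ℕ => (((p.2 : ℤ) - p.1).natAbs, p.1 + p.2)) F := by
  intro p hp q hq hpq
  have h1 : ((p.2 : ℤ) - p.1).natAbs = ((q.2 : ℤ) - q.1).natAbs := congrArg Prod.fst hpq
  have h2 : p.1 + p.2 = q.1 + q.2 := congrArg Prod.snd hpq
  rcases h with h | h
  · have a1 := h p hp
    have a2 := h q hq
    exact Prod.ext (by omega) (by omega)
  · have a1 := h p hp
    have a2 := h q hq
    exact Prod.ext (by omega) (by omega)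

/-- the second bound for pairs on one side of the diagonal -/
theorem Lat_side (g U W : ℕ) (hg : 1 ≤ g) (hU : 1 ≤ U) (hW : 1 ≤ W) (F : Finset (ℕ × ℕ))
    (h : (∀ p ∈ F, p.1 ≤ p.2) ∨ (∀ p ∈ F, p.2 ≤ p.1))
    (hF : ∀ p ∈ F, U ≤ ((p.2 : ℤ) - p.1).natAbs ∧ ((p.2 : ℤ) - p.1).natAbs < 32 * U ∧
      W ≤ p.1 + p.2 ∧ p.1 + p.2 < 32 * W)
    (hne : ∀ p ∈ F, ∀ q ∈ F, p ≠ q → (p.1 : ℤ) * q.2 - (q.1 : ℤ) * p.2 ≠ 0)
    (hd : ∀ p ∈ F, ∀ q ∈ F, (g : ℤ) ∣ (p.1 : ℤ) * q.2 - (q.1 : ℤ) * p.2) :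
    (F.card : ℝ) ≤ 2 ^ 16 * (1 + (U : ℝ) * W / g) := by
  have hcr : ∀ p ∈ F, ∀ q ∈ F, ((((p.2 : ℤ) - p.1).natAbs : ℕ) : ℤ) * ((q.1 + q.2 : ℕ) : ℤ) -
      ((((q.2 : ℤ) - q.1).natAbs : ℕ) : ℤ) * ((p.1 + p.2 : ℕ) : ℤ) =
        -2 * ((p.1 : ℤ) * q.2 - (q.1 : ℤ) * p.2) ∨
      ((((p.2 : ℤ) - p.1).natAbs : ℕ) : ℤ) * ((q.1 + q.2 : ℕ) : ℤ) -
      ((((q.2 : ℤ) - q.1).natAbs : ℕ) : ℤ) * ((p.1 + p.2 : ℕ) : ℤ) =
        2 * ((p.1 : ℤ) * q.2 - (q.1 : ℤ) * p.2) := by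
    intro p hp q hq
    rcases h with h | h
    · left
      have a1 : (p.1 : ℤ) ≤ p.2 := by exact_mod_cast h p hp
      have a2 : (q.1 : ℤ) ≤ q.2 := by exact_mod_cast h q hq
      rw [Int.natAbs_of_nonneg (sub_nonneg.2 a1), Int.natAbs_of_nonneg (sub_nonneg.2 a2)]
      push_cast
      ring
    · right
      have a1 : (p.2 : ℤ) ≤ p.1 := by exact_mod_cast h p hp
      have a2 : (q.2 : ℤ) ≤ q.1 := by exact_mod_cast h q hq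
      rw [← Int.natAbs_neg ((p.2 : ℤ) - p.1), ← Int.natAbs_neg ((q.2 : ℤ) - q.1), neg_sub, neg_sub]
      rw [Int.natAbs_of_nonneg (sub_nonneg.2 a1), Int.natAbs_of_nonneg (sub_nonneg.2 a2)]
      push_cast
      ring
  classical
  have key := slope_gen g U W hg hU hW
    (F.image (fun p : ℕ × ℕ => (((p.2 : ℤ) - p.1).natAbs, p.1 + p.2))) (by
      intro r hr
      obtain ⟨p, hp, rfl⟩ := Finset.mem_image.1 hr
      exact hF p hp) (by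
      intro r hr s hs hrs
      obtain ⟨p, hp, rfl⟩ := Finset.mem_image.1 hr
      obtain ⟨q, hq, rfl⟩ := Finset.mem_image.1 hs
      have hpq : p ≠ q := fun e => hrs (by rw [e])
      have h1 := hne p hp q hq hpq
      rcases hcr p hp q hq with e | e
      · show ((((p.2 : ℤ) - p.1).natAbs : ℕ) : ℤ) * ((q.1 + q.2 : ℕ) : ℤ) -
          ((((q.2 : ℤ) - q.1).natAbs : ℕ) : ℤ) * ((p.1 + p.2 : ℕ) : ℤ) ≠ 0
        rw [e]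
        exact mul_ne_zero (by norm_num) h1
      · show ((((p.2 : ℤ) - p.1).natAbs : ℕ) : ℤ) * ((q.1 + q.2 : ℕ) : ℤ) -
          ((((q.2 : ℤ) - q.1).natAbs : ℕ) : ℤ) * ((p.1 + p.2 : ℕ) : ℤ) ≠ 0
        rw [e]
        exact mul_ne_zero (by norm_num) h1) (by
      intro r hr s hs
      obtain ⟨p, hp, rfl⟩ := Finset.mem_image.1 hr
      obtain ⟨q, hq, rfl⟩ := Finset.mem_image.1 hs
      have h1 := hd p hp q hq
      rcases hcr p hp q hq with e | e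
      · show (g : ℤ) ∣ ((((p.2 : ℤ) - p.1).natAbs : ℕ) : ℤ) * ((q.1 + q.2 : ℕ) : ℤ) -
          ((((q.2 : ℤ) - q.1).natAbs : ℕ) : ℤ) * ((p.1 + p.2 : ℕ) : ℤ)
        rw [e]
        exact h1.mul_left _
      · show (g : ℤ) ∣ ((((p.2 : ℤ) - p.1).natAbs : ℕ) : ℤ) * ((q.1 + q.2 : ℕ) : ℤ) -
          ((((q.2 : ℤ) - q.1).natAbs : ℕ) : ℤ) * ((p.1 + p.2 : ℕ) : ℤ)
        rw [e]
        exact h1.mul_left _)
  rwa [Finset.card_image_of_injOn (Lat_inj F h)] at key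

/-- `a d H₁ H₂` divides twice the cross product `D = p.1 q.2 - q.1 p.2` (`a, d, H₁` pairwise
coprime, `gcd(H₂, a d H₁) ∣ 2`); first bound: `slope_gen` for `p` and `g = a d H₁ H₂ / gcd(.., 2)`;
second bound: for `(|p.2 - p.1|, p.1 + p.2)`, split `F` by the sign of `p.2 - p.1`, the cross
products are `± 2 D`. -/
theorem lat (a d H₁ H₂ X Y U W : ℕ) (ha : 1 ≤ a) (hd : 1 ≤ d) (h1 : 1 ≤ H₁) (h2 : 1 ≤ H₂)
    (hX : 1 ≤ X) (hY : 1 ≤ Y) (hU : 1 ≤ U) (hW : 1 ≤ W) (F : Finset (ℕ × ℕ))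
    (hF : ∀ p ∈ F, Nat.Coprime p.1 p.2 ∧ a ∣ p.1 ∧ d ∣ p.2 ∧ H₁ ∣ ((p.2 : ℤ) - p.1).natAbs ∧
      H₂ ∣ p.1 + p.2 ∧ X ≤ p.1 ∧ p.1 < 32 * X ∧ Y ≤ p.2 ∧ p.2 < 32 * Y ∧
      U ≤ ((p.2 : ℤ) - p.1).natAbs ∧ ((p.2 : ℤ) - p.1).natAbs < 32 * U ∧
      W ≤ p.1 + p.2 ∧ p.1 + p.2 < 32 * W) :
    (F.card : ℝ) ≤ 2 ^ 18 * (1 + (X : ℝ) * Y / ((a : ℝ) * d * H₁ * H₂)) ∧
    (F.card : ℝ) ≤ 2 ^ 18 * (1 + (U : ℝ) * W / ((a : ℝ) * d * H₁ * H₂)) := by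
  classical
  have hP : (0 : ℝ) < (a : ℝ) * d * H₁ * H₂ := by
    have e1 : (0 : ℝ) < a := by exact_mod_cast ha
    have e2 : (0 : ℝ) < d := by exact_mod_cast hd
    have e3 : (0 : ℝ) < H₁ := by exact_mod_cast h1
    have e4 : (0 : ℝ) < H₂ := by exact_mod_cast h2
    positivity
  rcases F.eq_empty_or_nonempty with rfl | ⟨p0, hp0⟩
  · simp only [Finset.card_empty, Nat.cast_zero]
    exact ⟨by positivity, by positivity⟩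
  have hz : ∀ p ∈ F, (H₁ : ℤ) ∣ (p.2 : ℤ) - p.1 ∧ (H₂ : ℤ) ∣ (p.1 : ℤ) + p.2 := by
    intro p hp
    obtain ⟨-, -, -, k1, k2, -⟩ := hF p hp
    exact ⟨Int.natCast_dvd.2 k1, by exact_mod_cast k2⟩
  obtain ⟨g, hgd⟩ : ∃ g, g = Nat.lcm (a * d * H₁) H₂ := ⟨_, rfl⟩
  have hpos : 0 < a * d * H₁ := Nat.mul_pos (Nat.mul_pos ha hd) h1
  have hg : 1 ≤ g := by rw [hgd]; exact Nat.lcm_pos hpos h2
  have hg0 : (0 : ℝ) < g := by exact_mod_cast hg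
  have hle : (a : ℝ) * d * H₁ * H₂ ≤ 2 * g := by
    obtain ⟨c1, c2, c3, -⟩ := hF p0 hp0
    obtain ⟨z1, z2⟩ := hz p0 hp0
    obtain ⟨-, -, h3⟩ := Lat_cop a d H₁ H₂ p0 c1 c2 c3 z1 z2
    have h4 : Nat.gcd (a * d * H₁) H₂ ≤ 2 := Nat.le_of_dvd (by norm_num) h3
    have h5 := Nat.gcd_mul_lcm (a * d * H₁) H₂
    rw [← hgd] at h5
    have h6 : a * d * H₁ * H₂ ≤ 2 * g := by
      rw [← h5]
      exact Nat.mul_le_mul_right _ h4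
    exact_mod_cast h6
  have hne : ∀ p ∈ F, ∀ q ∈ F, p ≠ q → (p.1 : ℤ) * q.2 - (q.1 : ℤ) * p.2 ≠ 0 := by
    intro p hp q hq hpq
    obtain ⟨c1, -, -, -, -, x1, -⟩ := hF p hp
    obtain ⟨d1, -⟩ := hF q hq
    exact Lat_ne p q c1 d1 (by omega) hpq
  have hdv : ∀ p ∈ F, ∀ q ∈ F, (g : ℤ) ∣ (p.1 : ℤ) * q.2 - (q.1 : ℤ) * p.2 := by
    intro p hp q hq
    obtain ⟨c1, c2, c3, -⟩ := hF p hp
    obtain ⟨z1, z2⟩ := hz p hp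
    obtain ⟨-, d2, d3, -⟩ := hF q hq
    obtain ⟨y1, y2⟩ := hz q hq
    rw [hgd]
    exact Lat_dvd a d H₁ H₂ p q c1 c2 c3 z1 z2 d2 d3 y1 y2
  have hdiv : ∀ t : ℝ, 0 ≤ t → t / g ≤ 2 * (t / ((a : ℝ) * d * H₁ * H₂)) := by
    intro t ht
    rw [← mul_div_assoc, div_le_div_iff₀ hg0 hP]
    nlinarith [mul_le_mul_of_nonneg_left hle ht]
  constructor
  · have k := slope_gen g X Y hg hX hY F (fun p hp => by
      obtain ⟨-, -, -, -, -, x1, x2, x3, x4, -⟩ := hF p hp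
      exact ⟨x1, x2, x3, x4⟩) hne hdv
    have k2 := hdiv ((X : ℝ) * Y) (by positivity)
    have k3 : (0 : ℝ) ≤ (X : ℝ) * Y / ((a : ℝ) * d * H₁ * H₂) := by positivity
    linarith
  · have hU' : ∀ p ∈ F, U ≤ ((p.2 : ℤ) - p.1).natAbs ∧ ((p.2 : ℤ) - p.1).natAbs < 32 * U ∧
        W ≤ p.1 + p.2 ∧ p.1 + p.2 < 32 * W := by
      intro p hp
      obtain ⟨-, -, -, -, -, -, -, -, -, x1, x2, x3, x4⟩ := hF p hp
      exact ⟨x1, x2, x3, x4⟩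
    have k := Lat_side g U W hg hU hW (F.filter fun p => p.1 ≤ p.2)
      (Or.inl fun p hp => (Finset.mem_filter.1 hp).2)
      (fun p hp => hU' p (Finset.mem_filter.1 hp).1)
      (fun p hp q hq => hne p (Finset.mem_filter.1 hp).1 q (Finset.mem_filter.1 hq).1)
      (fun p hp q hq => hdv p (Finset.mem_filter.1 hp).1 q (Finset.mem_filter.1 hq).1)
    have k' := Lat_side g U W hg hU hW (F.filter fun p => ¬ p.1 ≤ p.2)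
      (Or.inr fun p hp => (not_le.1 (Finset.mem_filter.1 hp).2).le)
      (fun p hp => hU' p (Finset.mem_filter.1 hp).1)
      (fun p hp q hq => hne p (Finset.mem_filter.1 hp).1 q (Finset.mem_filter.1 hq).1)
      (fun p hp q hq => hdv p (Finset.mem_filter.1 hp).1 q (Finset.mem_filter.1 hq).1)
    have hc : ((F.filter fun p => p.1 ≤ p.2).card : ℝ) + ((F.filter fun p => ¬ p.1 ≤ p.2).card : ℝ) =
        F.card := by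
      exact_mod_cast Finset.card_filter_add_card_filter_not (s := F) (fun p => p.1 ≤ p.2)
    have k2 := hdiv ((U : ℝ) * W) (by positivity)
    have k3 : (0 : ℝ) ≤ (U : ℝ) * W / ((a : ℝ) * d * H₁ * H₂) := by positivity
    linarith

end H38.HF
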