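import Pool.Agent.H38.HF.Defs
import Pool.Agent.H38.HF.Lat

/-!
Number of values of `(x 1, x 2)`.
-/

set_option autoImplicit false

open Finset

namespace H38.HF

private lemma key4_box (e f : Fin 5 → ℕ) (h : ∀ j, 2 ^ e j ≤ f j ∧ f j < 2 ^ (e j + 1)) :
    2 ^ (∑ j, e j) ≤ ∏ j, f j ∧ ∏ j, f j < 32 * 2 ^ (∑ j, e j) := by
  constructor
  · rw [← Finset.prod_pow_eq_pow_sum]
    exact Finset.prod_le_prod' fun j _ => (h j).1
  · have h1 : ∏ j, f j < ∏ j, 2 ^ (e j + 1) := by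
      apply Finset.prod_lt_prod_of_nonempty
      · intro j _
        exact lt_of_lt_of_le (by positivity) (h j).1
      · intro j _
        exact (h j).2
      · exact univ_nonempty
    have h2 : ∏ j, 2 ^ (e j + 1) = 32 * 2 ^ (∑ j, e j) := by
      rw [Finset.prod_pow_eq_pow_sum, Finset.sum_add_distrib, pow_add, mul_comm]
      norm_num
    rw [h2] at h1
    exact h1

private lemma key4_dvd (f : Fin 5 → ℕ) : f 0 * f 1 * f 2 ∣ ∏ j, f j := by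
  rw [Fin.prod_univ_five]
  exact ⟨f 3 * f 4, by ring⟩

private lemma key4_ge (e f : Fin 5 → ℕ) (h : ∀ j, 2 ^ e j ≤ f j) :
    (2 : ℝ) ^ ((e 0 : ℝ) + e 1 + e 2) ≤ ((f 0 * f 1 * f 2 : ℕ) : ℝ) := by
  have h1 : 2 ^ (e 0 + e 1 + e 2) ≤ f 0 * f 1 * f 2 := by
    rw [pow_add, pow_add]
    exact Nat.mul_le_mul (Nat.mul_le_mul (h 0) (h 1)) (h 2)
  have h2 : (2 : ℝ) ^ ((e 0 : ℝ) + e 1 + e 2) = ((2 ^ (e 0 + e 1 + e 2) : ℕ) : ℝ) := by
    push_cast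
    rw [← Real.rpow_natCast]
    push_cast
    rfl
  rw [h2]
  exact_mod_cast h1

/-- `lat` with `a = g 1 0 * g 1 1 * g 1 2`, `d = g 2 0 * g 2 1 * g 2 2`, `H₁ = h 1 0 * h 1 1 * h 1 2`,
`H₂ = h 2 0 * h 2 1 * h 2 2` (they divide `x 1`, `x 2`, `|x 2 - x 1|`, `x 1 + x 2`), so
`a d H₁ H₂ ≥ 2^dd`; `X = 2^(∑ j, eg 1 j)`, `Y = 2^(∑ j, eg 2 j)`, `U = 2^(∑ j, eh 1 j)`,
`W = 2^(∑ j, eh 2 j)`; `1 + t ≤ 2 * 2^(max 0 log t)`. -/
theorem key4 (N : ℕ) (eg eh : Fin 5 → Fin 5 → ℕ) (F : Finset Cf) (G H : Cf → Fin 5 → Fin 5 → ℕ)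
    (h : Ok N eg eh F G H) (q0 : Cf) (hq0 : q0 ∈ F)
    (hc : ∀ q ∈ F, ∀ i j : Fin 5, j.val < 3 → G q i j = G q0 i j ∧ H q i j = H q0 i j) :
    ((F.image fun q : Cf => (q.1 1, q.1 2)).card : ℝ) ≤
      2 ^ 19 * (2 : ℝ) ^ (max 0 (rp eg eh - dd eg eh)) := by
  classical
  obtain ⟨-, -, hB0, hB0'⟩ := h q0 hq0
  have hGpos : ∀ i j, 1 ≤ G q0 i j := fun i j => le_trans Nat.one_le_two_pow (hB0 i j).1
  have hHpos : ∀ i j, 1 ≤ H q0 i j := fun i j => le_trans Nat.one_le_two_pow (hB0' i j).1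
  have hmul : ∀ f : Fin 5 → ℕ, (∀ j, 1 ≤ f j) → 1 ≤ f 0 * f 1 * f 2 := fun f hf =>
    Nat.mul_pos (Nat.mul_pos (hf 0) (hf 1)) (hf 2)
  have key := lat (G q0 1 0 * G q0 1 1 * G q0 1 2) (G q0 2 0 * G q0 2 1 * G q0 2 2)
    (H q0 1 0 * H q0 1 1 * H q0 1 2) (H q0 2 0 * H q0 2 1 * H q0 2 2)
    (2 ^ (∑ j, eg 1 j)) (2 ^ (∑ j, eg 2 j)) (2 ^ (∑ j, eh 1 j)) (2 ^ (∑ j, eh 2 j))
    (hmul (G q0 1) (hGpos 1)) (hmul (G q0 2) (hGpos 2)) (hmul (H q0 1) (hHpos 1))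
    (hmul (H q0 2) (hHpos 2)) Nat.one_le_two_pow Nat.one_le_two_pow Nat.one_le_two_pow
    Nat.one_le_two_pow (F.image fun q : Cf => (q.1 1, q.1 2)) (by
      intro p hp
      rw [mem_image] at hp
      obtain ⟨q, hq, rfl⟩ := hp
      obtain ⟨hcfg, hmat, hB, hB'⟩ := h q hq
      have e1 : q.1 1 = ∏ j, G q 1 j := hmat.1 1
      have e2 : q.1 2 = ∏ j, G q 2 j := hmat.1 2
      have e3 : ((q.1 2 : ℤ) - q.1 1).natAbs = ∏ j, H q 1 j := hmat.2.2.1 1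
      have e4 : q.1 1 + q.1 2 = ∏ j, H q 2 j := hmat.2.2.1 2
      have b1 := key4_box (eg 1) (G q 1) (hB 1)
      have b2 := key4_box (eg 2) (G q 2) (hB 2)
      have b3 := key4_box (eh 1) (H q 1) (hB' 1)
      have b4 := key4_box (eh 2) (H q 2) (hB' 2)
      have c : ∀ i : Fin 5, G q0 i 0 * G q0 i 1 * G q0 i 2 ∣ ∏ j, G q i j := by
        intro i
        rw [← (hc q hq i 0 (by decide)).1, ← (hc q hq i 1 (by decide)).1,
          ← (hc q hq i 2 (by decide)).1]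
        exact key4_dvd (G q i)
      have c' : ∀ i : Fin 5, H q0 i 0 * H q0 i 1 * H q0 i 2 ∣ ∏ j, H q i j := by
        intro i
        rw [← (hc q hq i 0 (by decide)).2, ← (hc q hq i 1 (by decide)).2,
          ← (hc q hq i 2 (by decide)).2]
        exact key4_dvd (H q i)
      refine ⟨hcfg.1.2.1, ?_, ?_, ?_, ?_, ?_, ?_, ?_, ?_, ?_, ?_, ?_, ?_⟩
      · show _ ∣ q.1 1
        rw [e1]
        exact c 1
      · show _ ∣ q.1 2
        rw [e2]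
        exact c 2
      · show _ ∣ ((q.1 2 : ℤ) - q.1 1).natAbs
        rw [e3]
        exact c' 1
      · show _ ∣ q.1 1 + q.1 2
        rw [e4]
        exact c' 2
      · show _ ≤ q.1 1
        rw [e1]
        exact b1.1
      · show q.1 1 < _
        rw [e1]
        exact b1.2
      · show _ ≤ q.1 2
        rw [e2]
        exact b2.1
      · show q.1 2 < _
        rw [e2]
        exact b2.2
      · show _ ≤ ((q.1 2 : ℤ) - q.1 1).natAbs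
        rw [e3]
        exact b3.1
      · show ((q.1 2 : ℤ) - q.1 1).natAbs < _
        rw [e3]
        exact b3.2
      · show _ ≤ q.1 1 + q.1 2
        rw [e4]
        exact b4.1
      · show q.1 1 + q.1 2 < _
        rw [e4]
        exact b4.2)
  -- the product of the four divisors
  set P : ℝ := ((G q0 1 0 * G q0 1 1 * G q0 1 2 : ℕ) : ℝ) * ((G q0 2 0 * G q0 2 1 * G q0 2 2 : ℕ) : ℝ) *
    ((H q0 1 0 * H q0 1 1 * H q0 1 2 : ℕ) : ℝ) * ((H q0 2 0 * H q0 2 1 * H q0 2 2 : ℕ) : ℝ) with hP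
  have hPge : (2 : ℝ) ^ (dd eg eh) ≤ P := by
    have g1 := key4_ge (eg 1) (G q0 1) (fun j => (hB0 1 j).1)
    have g2 := key4_ge (eg 2) (G q0 2) (fun j => (hB0 2 j).1)
    have g3 := key4_ge (eh 1) (H q0 1) (fun j => (hB0' 1 j).1)
    have g4 := key4_ge (eh 2) (H q0 2) (fun j => (hB0' 2 j).1)
    have e : dd eg eh = ((eg 1 0 : ℝ) + eg 1 1 + eg 1 2) + ((eg 2 0 : ℝ) + eg 2 1 + eg 2 2) +
        ((eh 1 0 : ℝ) + eh 1 1 + eh 1 2) + ((eh 2 0 : ℝ) + eh 2 1 + eh 2 2) := by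
      unfold dd
      ring
    rw [e, Real.rpow_add (by norm_num), Real.rpow_add (by norm_num), Real.rpow_add (by norm_num)]
    exact mul_le_mul (mul_le_mul (mul_le_mul g1 g2 (by positivity) (by positivity)) g3
      (by positivity) (by positivity)) g4 (by positivity) (by positivity)
  have hPpos : 0 < P := lt_of_lt_of_le (by positivity) hPge
  have hpair : ∀ e : Fin 5 → Fin 5 → ℕ, (((2 ^ (∑ j, e 1 j) : ℕ) : ℝ)) * ((2 ^ (∑ j, e 2 j) : ℕ) : ℝ) =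
      (2 : ℝ) ^ (∑ j, ((e 1 j : ℝ) + e 2 j)) := by
    intro e
    rw [Finset.sum_add_distrib, Real.rpow_add (by norm_num)]
    push_cast
    rw [← Real.rpow_natCast, ← Real.rpow_natCast]
    push_cast
    rfl
  have hdiv : ∀ s : ℝ, (2 : ℝ) ^ s / P ≤ (2 : ℝ) ^ (s - dd eg eh) := by
    intro s
    rw [Real.rpow_sub (by norm_num)]
    exact div_le_div_of_nonneg_left (by positivity) (by positivity) hPge
  have hfin : ∀ s : ℝ, s - dd eg eh ≤ max 0 (rp eg eh - dd eg eh) →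
      (2 : ℝ) ^ 18 * (1 + (2 : ℝ) ^ s / P) ≤ 2 ^ 19 * (2 : ℝ) ^ (max 0 (rp eg eh - dd eg eh)) := by
    intro s hs
    have t1 : (2 : ℝ) ^ s / P ≤ (2 : ℝ) ^ (max 0 (rp eg eh - dd eg eh)) :=
      (hdiv s).trans (Real.rpow_le_rpow_of_exponent_le (by norm_num) hs)
    have t2 : (1 : ℝ) ≤ (2 : ℝ) ^ (max 0 (rp eg eh - dd eg eh)) :=
      Real.one_le_rpow (by norm_num) (le_max_left _ _)
    have t3 : (2 : ℝ) ^ 19 = 2 ^ 18 * 2 := by norm_num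
    rw [t3]
    nlinarith
  obtain ⟨k1, k2⟩ := key
  rw [hpair eg] at k1
  rw [hpair eh] at k2
  rcases min_choice (∑ j, ((eg 1 j : ℝ) + eg 2 j)) (∑ j, ((eh 1 j : ℝ) + eh 2 j)) with hm | hm
  · refine k1.trans (hfin _ ?_)
    have : rp eg eh = ∑ j, ((eg 1 j : ℝ) + eg 2 j) := hm
    rw [this]
    exact le_max_right _ _
  · refine k2.trans (hfin _ ?_)
    have : rp eg eh = ∑ j, ((eh 1 j : ℝ) + eh 2 j) := hm
    rw [this]
    exact le_max_right _ _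

end H38.HF
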