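import Pool.Agent.H38.HF.Blk
import Pool.Agent.H38.HF.Key1
import Pool.Agent.H38.HF.Key2
import Pool.Agent.H38.HF.Key3
import Pool.Agent.H38.HF.Key4

/-!
The bound for one dyadic class.
-/

set_option autoImplicit false

open Finset

namespace H38.HF

theorem kb_fib {α β : Type} [DecidableEq β] (F : Finset α) (f : α → β) (a b : ℝ) (ha : 0 ≤ a)
    (h1 : ((F.image f).card : ℝ) ≤ b)
    (h2 : ∀ q0 ∈ F, ((F.filter fun q => f q = f q0).card : ℝ) ≤ a) : (F.card : ℝ) ≤ a * b := by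
  rw [card_eq_sum_card_image f F]
  push_cast
  refine (sum_le_card_nsmul _ _ a fun c hc => ?_).trans ?_
  · rw [mem_image] at hc
    obtain ⟨q0, hq0, rfl⟩ := hc
    exact h2 q0 hq0
  · rw [nsmul_eq_mul, mul_comm]
    exact mul_le_mul_of_nonneg_left h1 ha

theorem Ok.filter {N : ℕ} {eg eh : Fin 5 → Fin 5 → ℕ} {F : Finset Cf}
    {G H : Cf → Fin 5 → Fin 5 → ℕ} (h : Ok N eg eh F G H) (p : Cf → Prop) [DecidablePred p] :
    Ok N eg eh (F.filter p) G H := fun q hq => h q (mem_filter.1 hq).1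

theorem three {P : Fin 5 → Prop} (h0 : P 0) (h1 : P 1) (h2 : P 2) :
    ∀ i : Fin 5, i.val < 3 → P i := by
  rintro ⟨i, hi⟩ h
  simp only at h
  interval_cases i
  · exact h0
  · exact h1
  · exact h2

theorem kb (ε : ℝ) (hε : 0 < ε) : ∃ K : ℝ, 0 < K ∧ ∀ N : ℕ, 1 ≤ N →
      ∀ (eg eh : Fin 5 → Fin 5 → ℕ) (F : Finset Cf) (G H : Cf → Fin 5 → Fin 5 → ℕ),
      Ok N eg eh F G H → (F.card : ℝ) ≤ K * (N : ℝ) ^ ε * (2 : ℝ) ^ (bnd eg eh) := by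
  classical
  obtain ⟨K6, hK6, h6⟩ := blk (ε / 3) (by positivity)
  obtain ⟨K2, hK2, h2⟩ := key2 (ε / 3) (by positivity)
  obtain ⟨K5, hK5, h5⟩ := key5 (ε / 3) (by positivity)
  refine ⟨2 ^ 49 * (K6 * K2 * K5), by positivity, fun N hN eg eh F G H hF => ?_⟩
  obtain ⟨M, hM⟩ : ∃ M : ℝ, M = (N : ℝ) ^ (ε / 3) := ⟨_, rfl⟩
  have hM0 : 0 ≤ M := by rw [hM]; positivity
  obtain ⟨B6, hB6⟩ : ∃ B : ℝ, B = (2 : ℝ) ^ (((eg 3 3 : ℝ) + eg 3 4 + eg 4 3 + eg 4 4) / 4) :=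
    ⟨_, rfl⟩
  obtain ⟨B4, hB4⟩ : ∃ B : ℝ, B = (2 : ℝ) ^ (max 0 (rp eg eh - dd eg eh)) := ⟨_, rfl⟩
  obtain ⟨B3, hB3⟩ : ∃ B : ℝ, B = (2 : ℝ) ^ (((eg 0 3 : ℝ) + eg 0 4) / 2) := ⟨_, rfl⟩
  obtain ⟨B1, hB1⟩ : ∃ B : ℝ, B = (2 : ℝ) ^ ((∑ i, (eg i 0 : ℝ)) / 2) := ⟨_, rfl⟩
  obtain ⟨B0, hB0⟩ : ∃ B : ℝ, B = (2 : ℝ) ^ (rq eg eh) := ⟨_, rfl⟩
  have p6 : 0 ≤ B6 := by rw [hB6]; positivity
  have p4 : 0 ≤ B4 := by rw [hB4]; positivity
  have p3 : 0 ≤ B3 := by rw [hB3]; positivity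
  have p1 : 0 ≤ B1 := by rw [hB1]; positivity
  have p0 : 0 ≤ B0 := by rw [hB0]; positivity
  have hprod : (N : ℝ) ^ ε * (2 : ℝ) ^ (bnd eg eh) = M ^ 3 * (B1 * B3 * B0 * B4 * B6) := by
    have e1 : (N : ℝ) ^ ε = M ^ 3 := by
      rw [hM, ← Real.rpow_natCast, ← Real.rpow_mul (Nat.cast_nonneg N)]
      congr 1
      push_cast
      ring
    rw [e1, hB1, hB3, hB0, hB4, hB6, bnd, Real.rpow_add (by norm_num), Real.rpow_add (by norm_num),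
      Real.rpow_add (by norm_num), Real.rpow_add (by norm_num)]
  -- step F and E
  have sE : ∀ F' : Finset Cf, Ok N eg eh F' G H → ∀ q0 ∈ F',
      (∀ q ∈ F', (∀ i : Fin 5, i.val < 3 → q.1 i = q0.1 i) ∧
        (∀ i : Fin 5, i.val < 3 → q.2 i = q0.2 i) ∧
        ∀ i j : Fin 5, j.val < 3 → G q i j = G q0 i j) →
      (F'.card : ℝ) ≤ (K6 * M * B6) * (K5 * M) := by
    intro F' hF' q0 hq0 hq
    have h5' := h5 N hN eg eh F' G H hF' q0 hq0 (fun q hq' => (hq q hq').1)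
    rw [← hM] at h5'
    refine kb_fib F' _ _ _ (by positivity) h5' fun q1 hq1 => ?_
    rw [hM, hB6]
    refine h6 N hN eg eh _ G H (hF'.filter _) q1 (mem_filter.2 ⟨hq1, rfl⟩) fun q hq' => ?_
    rw [mem_filter] at hq'
    obtain ⟨a1, a2, a3⟩ := hq q hq'.1
    obtain ⟨b1, b2, b3⟩ := hq q1 hq1
    refine ⟨fun i hi => ⟨(a1 i hi).trans (b1 i hi).symm, (a2 i hi).trans (b2 i hi).symm⟩,
      fun i j hij => ?_⟩
    rcases hij with hi | hj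
    · have := congrFun (congrFun hq'.2 ⟨i.val, hi⟩) j
      exact this
    · exact (a3 i j hj).trans (b3 i j hj).symm
  -- step D
  have sD : ∀ F' : Finset Cf, Ok N eg eh F' G H → ∀ q0 ∈ F',
      (∀ q ∈ F', q.1 0 = q0.1 0 ∧ (∀ i : Fin 5, i.val < 3 → q.2 i = q0.2 i) ∧
        ∀ i j : Fin 5, j.val < 3 → G q i j = G q0 i j ∧ H q i j = H q0 i j) →
      (F'.card : ℝ) ≤ ((K6 * M * B6) * (K5 * M)) * (2 ^ 19 * B4) := by
    intro F' hF' q0 hq0 hq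
    have h4' := key4 N eg eh F' G H hF' q0 hq0 (fun q hq' => (hq q hq').2.2)
    rw [← hB4] at h4'
    refine kb_fib F' _ _ _ (by positivity) h4' fun q1 hq1 => ?_
    refine sE _ (hF'.filter _) q1 (mem_filter.2 ⟨hq1, rfl⟩) fun q hq' => ?_
    rw [mem_filter] at hq'
    obtain ⟨c1, c2⟩ := Prod.mk.inj hq'.2
    obtain ⟨a1, a2, a3⟩ := hq q hq'.1
    obtain ⟨b1, b2, b3⟩ := hq q1 hq1
    exact ⟨three (a1.trans b1.symm) c1 c2, fun i hi => (a2 i hi).trans (b2 i hi).symm,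
      fun i j hj => (a3 i j hj).1.trans (b3 i j hj).1.symm⟩
  -- step C
  have sC : ∀ F' : Finset Cf, Ok N eg eh F' G H → ∀ q0 ∈ F',
      (∀ q ∈ F', (∀ i : Fin 5, i.val < 3 → q.2 i = q0.2 i) ∧
        ∀ i j : Fin 5, j.val < 3 → G q i j = G q0 i j ∧ H q i j = H q0 i j) →
      (F'.card : ℝ) ≤ (((K6 * M * B6) * (K5 * M)) * (2 ^ 19 * B4)) * (2 ^ 10 * B3) := by
    intro F' hF' q0 hq0 hq
    have h3' := key3 N eg eh F' G H hF' q0 hq0 (fun q hq' i j hj => ((hq q hq').2 i j hj).1)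
    rw [← hB3] at h3'
    refine kb_fib F' _ _ _ (by positivity) h3' fun q1 hq1 => ?_
    refine sD _ (hF'.filter _) q1 (mem_filter.2 ⟨hq1, rfl⟩) fun q hq' => ?_
    rw [mem_filter] at hq'
    obtain ⟨a2, a3⟩ := hq q hq'.1
    obtain ⟨b2, b3⟩ := hq q1 hq1
    exact ⟨hq'.2, fun i hi => (a2 i hi).trans (b2 i hi).symm,
      fun i j hj => ⟨(a3 i j hj).1.trans (b3 i j hj).1.symm,
        (a3 i j hj).2.trans (b3 i j hj).2.symm⟩⟩
  -- step B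
  have sB : ∀ F' : Finset Cf, Ok N eg eh F' G H → ∀ q0 ∈ F',
      (∀ q ∈ F', ∀ i : Fin 5, i.val < 3 → q.2 i = q0.2 i) →
      (F'.card : ℝ) ≤ ((((K6 * M * B6) * (K5 * M)) * (2 ^ 19 * B4)) * (2 ^ 10 * B3)) *
        (K2 * M) := by
    intro F' hF' q0 hq0 hq
    have h2' := h2 N hN eg eh F' G H hF' q0 hq0 hq
    rw [← hM] at h2'
    refine kb_fib F' _ _ _ (by positivity) h2' fun q1 hq1 => ?_
    refine sC _ (hF'.filter _) q1 (mem_filter.2 ⟨hq1, rfl⟩) fun q hq' => ?_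
    rw [mem_filter] at hq'
    refine ⟨fun i hi => (hq q hq'.1 i hi).trans (hq q1 hq1 i hi).symm, fun i j hj => ?_⟩
    have := congrFun (congrFun hq'.2 i) ⟨j.val, hj⟩
    exact Prod.mk.inj this
  -- step A
  have h1' := key1 N eg eh F G H hF
  rw [← hB1, ← hB0] at h1'
  have hfin := kb_fib F _ ((((((K6 * M * B6) * (K5 * M)) * (2 ^ 19 * B4)) * (2 ^ 10 * B3)) *
        (K2 * M))) _ (by positivity) h1' fun q1 hq1 => (by
    refine sB _ (hF.filter _) q1 (mem_filter.2 ⟨hq1, rfl⟩) fun q hq' => ?_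
    rw [mem_filter] at hq'
    obtain ⟨c0, c⟩ := Prod.mk.inj hq'.2
    obtain ⟨c1, c2⟩ := Prod.mk.inj c
    exact three c0 c1 c2)
  refine hfin.trans (le_of_eq ?_)
  rw [mul_assoc (2 ^ 49 * (K6 * K2 * K5)) _ _, hprod]
  ring

end H38.HF
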