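import Pool.Agent.H38.HF.Defs

/-!
The linear programme.
-/

set_option autoImplicit false
set_option linter.unusedTactic false

open Finset

namespace H38.HF

lemma lp_core (a00 a01 a02 a10 a11 a12 a20 a21 a22 b00 b01 b02 b10 b11 b12 b20 b21 b22 m1 m2 n1 n2 M : ℝ)
    (pa00 : 0 ≤ a00)
    (pa01 : 0 ≤ a01)
    (pa02 : 0 ≤ a02)
    (pa10 : 0 ≤ a10)
    (pa11 : 0 ≤ a11)
    (pa12 : 0 ≤ a12)
    (pa20 : 0 ≤ a20)
    (pa21 : 0 ≤ a21)
    (pa22 : 0 ≤ a22)
    (pb00 : 0 ≤ b00)
    (pb01 : 0 ≤ b01)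
    (pb02 : 0 ≤ b02)
    (pb10 : 0 ≤ b10)
    (pb11 : 0 ≤ b11)
    (pb12 : 0 ≤ b12)
    (pb20 : 0 ≤ b20)
    (pb21 : 0 ≤ b21)
    (pb22 : 0 ≤ b22)
    (hA : a00 + a01 + a02 + a10 + a11 + a12 + a20 + a21 + a22 ≤ M)
    (hB : b00 + b01 + b02 + b10 + b11 + b12 + b20 + b21 + b22 ≤ M)
    (c1a : m1 ≤ a01 + a11 + a21) (c1b : m1 ≤ b01 + b11 + b21)
    (c2a : m2 ≤ a02 + a12 + a22) (c2b : m2 ≤ b02 + b12 + b22)
    (r1a : n1 ≤ a10 + a11 + a12) (r1b : n1 ≤ b10 + b11 + b12)
    (r2a : n2 ≤ a20 + a21 + a22) (r2b : n2 ≤ b20 + b21 + b22)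
    (h0 : 19 / 30 * M < (a00 + a10 + a20) / 2 + a02 / 2 + m1 + max 0 (n1 - (a10 + a11 + b10 + b11)) + a22 / 4)
    (h1 : 19 / 30 * M < (a00 + a10 + a20) / 2 + a01 / 2 + m2 + max 0 (n1 - (a10 + a12 + b10 + b12)) + a21 / 4)
    (h2 : 19 / 30 * M < (a00 + a10 + a20) / 2 + a02 / 2 + m1 + max 0 (n2 - (a20 + a21 + b20 + b21)) + a12 / 4)
    (h3 : 19 / 30 * M < (a00 + a10 + a20) / 2 + a01 / 2 + m2 + max 0 (n2 - (a20 + a22 + b20 + b22)) + a11 / 4)
    (h4 : 19 / 30 * M < (a00 + a01 + a02) / 2 + a20 / 2 + n1 + max 0 (m1 - (a01 + a11 + b01 + b11)) + a22 / 4)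
    (h5 : 19 / 30 * M < (a00 + a01 + a02) / 2 + a20 / 2 + n1 + max 0 (m2 - (a02 + a12 + b02 + b12)) + a21 / 4)
    (h6 : 19 / 30 * M < (a00 + a01 + a02) / 2 + a10 / 2 + n2 + max 0 (m1 - (a01 + a21 + b01 + b21)) + a12 / 4)
    (h7 : 19 / 30 * M < (a00 + a01 + a02) / 2 + a10 / 2 + n2 + max 0 (m2 - (a02 + a22 + b02 + b22)) + a11 / 4)
    : False := by
  rcases max_choice 0 (n1 - (a10 + a11 + b10 + b11)) with e | e <;> rw [e] at h0
  · skip
    rcases max_choice 0 (n1 - (a10 + a12 + b10 + b12)) with e | e <;> rw [e] at h1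
    · skip
      rcases max_choice 0 (m1 - (a01 + a11 + b01 + b11)) with e | e <;> rw [e] at h4
      · skip
        rcases max_choice 0 (m1 - (a01 + a21 + b01 + b21)) with e | e <;> rw [e] at h6
        · skip
          linarith only [pa00, pa01, pa02, pa10, pa11, pa12, pa20, pa21, pa22, pb00, pb01, pb02, pb10, pb11, pb12, pb20, pb21, pb22, hA, c1a, c2a, r1a, r2a, h0, h1, h4, h6]
        · skip
          rcases max_choice 0 (m2 - (a02 + a22 + b02 + b22)) with e | e <;> rw [e] at h7
          · skip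
            linarith only [pa00, pa01, pa02, pa10, pa11, pa12, pa20, pa21, pa22, pb00, pb01, pb02, pb10, pb11, pb12, pb20, pb21, pb22, hA, c1a, c2a, r1a, r2a, h0, h1, h4, h7]
          · skip
            linarith only [pa00, pa01, pa02, pa10, pa11, pa12, pa20, pa21, pa22, pb00, pb01, pb02, pb10, pb11, pb12, pb20, pb21, pb22, hA, hB, c1a, c1b, c2a, c2b, r1a, r2a, r2b, h0, h1, h4, h6, h7]
      · skip
        rcases max_choice 0 (n2 - (a20 + a21 + b20 + b21)) with e | e <;> rw [e] at h2
        · skip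
          rcases max_choice 0 (m1 - (a01 + a21 + b01 + b21)) with e | e <;> rw [e] at h6
          · skip
            rcases max_choice 0 (m2 - (a02 + a12 + b02 + b12)) with e | e <;> rw [e] at h5
            · skip
              linarith only [pa00, pa01, pa02, pa10, pa11, pa12, pa20, pa21, pa22, pb00, pb01, pb02, pb10, pb11, pb12, pb20, pb21, pb22, hA, c1a, c2a, r1a, r2a, h0, h1, h5, h6]
            · skip
              rcases max_choice 0 (n2 - (a20 + a22 + b20 + b22)) with e | e <;> rw [e] at h3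
              · skip
                linarith only [pa00, pa01, pa02, pa10, pa11, pa12, pa20, pa21, pa22, pb00, pb01, pb02, pb10, pb11, pb12, pb20, pb21, pb22, hA, hB, c1a, c1b, c2a, c2b, r1a, r1b, r2a, h2, h3, h4, h5, h6]
              · skip
                linarith only [pa00, pa01, pa02, pa10, pa11, pa12, pa20, pa21, pa22, pb00, pb01, pb02, pb10, pb11, pb12, pb20, pb21, pb22, hA, c1a, c2a, c2b, r1a, r2a, h1, h2, h3, h5, h6]
          · skip
            linarith only [pa00, pa01, pa02, pa10, pa11, pa12, pa20, pa21, pa22, pb00, pb01, pb02, pb10, pb11, pb12, pb20, pb21, pb22, hA, c1a, c1b, c2a, r1a, r2a, h0, h1, h4, h6]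
        · skip
          linarith only [pa00, pa01, pa02, pa10, pa11, pa12, pa20, pa21, pa22, pb00, pb01, pb02, pb10, pb11, pb12, pb20, pb21, pb22, hA, c1a, c1b, c2a, r1a, r2a, h0, h1, h2, h4]
    · skip
      rcases max_choice 0 (m2 - (a02 + a22 + b02 + b22)) with e | e <;> rw [e] at h7
      · skip
        rcases max_choice 0 (m1 - (a01 + a11 + b01 + b11)) with e | e <;> rw [e] at h4
        · skip
          rcases max_choice 0 (n2 - (a20 + a22 + b20 + b22)) with e | e <;> rw [e] at h3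
          · skip
            linarith only [pa00, pa01, pa02, pa10, pa11, pa12, pa20, pa21, pa22, pb00, pb01, pb02, pb10, pb11, pb12, pb20, pb21, pb22, hA, c1a, c2a, r1a, r2a, h0, h3, h4, h7]
          · skip
            rcases max_choice 0 (m1 - (a01 + a21 + b01 + b21)) with e | e <;> rw [e] at h6
            · skip
              linarith only [pa00, pa01, pa02, pa10, pa11, pa12, pa20, pa21, pa22, pb00, pb01, pb02, pb10, pb11, pb12, pb20, pb21, pb22, hA, hB, c1a, c2a, c2b, r1a, r1b, r2a, r2b, h0, h1, h3, h4, h6]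
            · skip
              linarith only [pa00, pa01, pa02, pa10, pa11, pa12, pa20, pa21, pa22, pb00, pb01, pb02, pb10, pb11, pb12, pb20, pb21, pb22, hA, c1a, c2a, r1a, r2a, r2b, h0, h3, h4, h6, h7]
        · skip
          rcases max_choice 0 (m2 - (a02 + a12 + b02 + b12)) with e | e <;> rw [e] at h5
          · skip
            linarith only [pa00, pa01, pa02, pa10, pa11, pa12, pa20, pa21, pa22, pb00, pb01, pb02, pb10, pb11, pb12, pb20, pb21, pb22, hA, c1a, c2a, r1a, r1b, r2a, h1, h4, h5, h7]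
          · skip
            linarith only [pa00, pa01, pa02, pa10, pa11, pa12, pa20, pa21, pa22, pb00, pb01, pb02, pb10, pb11, pb12, pb20, pb21, pb22, hA, hB, c1a, c1b, c2a, c2b, r1a, r1b, h1, h4, h5]
      · skip
        rcases max_choice 0 (n2 - (a20 + a22 + b20 + b22)) with e | e <;> rw [e] at h3
        · skip
          linarith only [pa00, pa01, pa02, pa10, pa11, pa12, pa20, pa21, pa22, pb00, pb01, pb02, pb10, pb11, pb12, pb20, pb21, pb22, hA, c1a, c2a, c2b, r1a, r2a, h0, h1, h3, h7]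
        · skip
          linarith only [pa00, pa01, pa02, pa10, pa11, pa12, pa20, pa21, pa22, pb00, pb01, pb02, pb10, pb11, pb12, pb20, pb21, pb22, hA, hB, c2a, c2b, r1a, r1b, r2a, r2b, h1, h3, h7]
  · skip
    rcases max_choice 0 (m1 - (a01 + a21 + b01 + b21)) with e | e <;> rw [e] at h6
    · skip
      rcases max_choice 0 (m2 - (a02 + a12 + b02 + b12)) with e | e <;> rw [e] at h5
      · skip
        rcases max_choice 0 (n1 - (a10 + a12 + b10 + b12)) with e | e <;> rw [e] at h1
        · skip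
          rcases max_choice 0 (n2 - (a20 + a21 + b20 + b21)) with e | e <;> rw [e] at h2
          · skip
            linarith only [pa00, pa01, pa02, pa10, pa11, pa12, pa20, pa21, pa22, pb00, pb01, pb02, pb10, pb11, pb12, pb20, pb21, pb22, hA, c1a, c2a, r1a, r2a, h1, h2, h5, h6]
          · skip
            rcases max_choice 0 (m2 - (a02 + a22 + b02 + b22)) with e | e <;> rw [e] at h7
            · skip
              linarith only [pa00, pa01, pa02, pa10, pa11, pa12, pa20, pa21, pa22, pb00, pb01, pb02, pb10, pb11, pb12, pb20, pb21, pb22, hA, hB, c1a, c1b, c2a, r1a, r1b, r2a, r2b, h0, h1, h2, h5, h7]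
            · skip
              linarith only [pa00, pa01, pa02, pa10, pa11, pa12, pa20, pa21, pa22, pb00, pb01, pb02, pb10, pb11, pb12, pb20, pb21, pb22, hA, c1a, c2a, r1a, r2a, r2b, h1, h2, h5, h6, h7]
        · skip
          linarith only [pa00, pa01, pa02, pa10, pa11, pa12, pa20, pa21, pa22, pb00, pb01, pb02, pb10, pb11, pb12, pb20, pb21, pb22, hA, c1a, c2a, r1a, r1b, r2a, h0, h1, h5, h6]
      · skip
        rcases max_choice 0 (m1 - (a01 + a11 + b01 + b11)) with e | e <;> rw [e] at h4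
        · skip
          linarith only [pa00, pa01, pa02, pa10, pa11, pa12, pa20, pa21, pa22, pb00, pb01, pb02, pb10, pb11, pb12, pb20, pb21, pb22, hA, c1a, c2a, r1a, r1b, r2a, h0, h4, h5, h6]
        · skip
          linarith only [pa00, pa01, pa02, pa10, pa11, pa12, pa20, pa21, pa22, pb00, pb01, pb02, pb10, pb11, pb12, pb20, pb21, pb22, hA, hB, c1a, c1b, c2a, c2b, r1a, r1b, h0, h4, h5]
    · skip
      rcases max_choice 0 (n1 - (a10 + a12 + b10 + b12)) with e | e <;> rw [e] at h1
      · skip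
        rcases max_choice 0 (n2 - (a20 + a21 + b20 + b21)) with e | e <;> rw [e] at h2
        · skip
          linarith only [pa00, pa01, pa02, pa10, pa11, pa12, pa20, pa21, pa22, pb00, pb01, pb02, pb10, pb11, pb12, pb20, pb21, pb22, hA, c1a, c1b, c2a, r1a, r2a, h0, h1, h2, h6]
        · skip
          linarith only [pa00, pa01, pa02, pa10, pa11, pa12, pa20, pa21, pa22, pb00, pb01, pb02, pb10, pb11, pb12, pb20, pb21, pb22, hA, hB, c1a, c1b, r1a, r1b, r2a, r2b, h0, h2, h6]
      · skip
        linarith only [pa00, pa01, pa02, pa10, pa11, pa12, pa20, pa21, pa22, pb00, pb01, pb02, pb10, pb11, pb12, pb20, pb21, pb22, hA, c1a, c1b, c2a, r1a, r1b, r2a, h0, h1, h6]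

/-- block sums -/
noncomputable def lpB00 (e : Fin 5 → Fin 5 → ℕ) : ℝ := (e 0 0 : ℝ)
noncomputable def lpB01 (e : Fin 5 → Fin 5 → ℕ) : ℝ := (e 0 1 : ℝ) + e 0 2
noncomputable def lpB02 (e : Fin 5 → Fin 5 → ℕ) : ℝ := (e 0 3 : ℝ) + e 0 4
noncomputable def lpB10 (e : Fin 5 → Fin 5 → ℕ) : ℝ := (e 1 0 : ℝ) + e 2 0
noncomputable def lpB11 (e : Fin 5 → Fin 5 → ℕ) : ℝ := (e 1 1 : ℝ) + e 1 2 + e 2 1 + e 2 2
noncomputable def lpB12 (e : Fin 5 → Fin 5 → ℕ) : ℝ := (e 1 3 : ℝ) + e 1 4 + e 2 3 + e 2 4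
noncomputable def lpB20 (e : Fin 5 → Fin 5 → ℕ) : ℝ := (e 3 0 : ℝ) + e 4 0
noncomputable def lpB21 (e : Fin 5 → Fin 5 → ℕ) : ℝ := (e 3 1 : ℝ) + e 3 2 + e 4 1 + e 4 2
noncomputable def lpB22 (e : Fin 5 → Fin 5 → ℕ) : ℝ := (e 3 3 : ℝ) + e 3 4 + e 4 3 + e 4 4

noncomputable def lpC1 (e : Fin 5 → Fin 5 → ℕ) : ℝ := lpB01 e + lpB11 e + lpB21 e
noncomputable def lpC2 (e : Fin 5 → Fin 5 → ℕ) : ℝ := lpB02 e + lpB12 e + lpB22 e
noncomputable def lpR1 (e : Fin 5 → Fin 5 → ℕ) : ℝ := lpB10 e + lpB11 e + lpB12 e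
noncomputable def lpR2 (e : Fin 5 → Fin 5 → ℕ) : ℝ := lpB20 e + lpB21 e + lpB22 e

lemma lp_sum (e : Fin 5 → Fin 5 → ℕ) : ∑ i, ∑ j, (e i j : ℝ) =
    lpB00 e + lpB01 e + lpB02 e + lpB10 e + lpB11 e + lpB12 e + lpB20 e + lpB21 e + lpB22 e := by
  simp only [Fin.sum_univ_five, lpB00, lpB01, lpB02, lpB10, lpB11, lpB12, lpB20, lpB21, lpB22]
  ring

lemma lp_bnd0 (eg eh : Fin 5 → Fin 5 → ℕ) :
    bnd (fun i j => eg (if false then pm i else i) (if false then pm j else j))
      (fun i j => eh (if false then pm i else i) (if false then pm j else j)) =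
    (lpB00 eg + lpB10 eg + lpB20 eg) / 2 + lpB02 eg / 2 + min (lpC1 eg) (lpC1 eh) +
      max 0 (min (lpR1 eg) (lpR1 eh) - (lpB10 eg + lpB11 eg + lpB10 eh + lpB11 eh)) + lpB22 eg / 4 := by
  have r1 : rq (fun i j => eg (if false then pm i else i) (if false then pm j else j))
      (fun i j => eh (if false then pm i else i) (if false then pm j else j)) = min (lpC1 eg) (lpC1 eh) := by
    unfold rq
    congr 1 <;> (simp [Fin.sum_univ_five, pm, lpC1, lpC2, lpR1, lpR2, lpB00, lpB01, lpB02, lpB10, lpB11, lpB12, lpB20, lpB21, lpB22]; try ring)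
  have r2 : rp (fun i j => eg (if false then pm i else i) (if false then pm j else j))
      (fun i j => eh (if false then pm i else i) (if false then pm j else j)) = min (lpR1 eg) (lpR1 eh) := by
    unfold rp
    congr 1 <;> (simp [Fin.sum_univ_five, pm, lpC1, lpC2, lpR1, lpR2, lpB00, lpB01, lpB02, lpB10, lpB11, lpB12, lpB20, lpB21, lpB22]; try ring)
  have r3 : dd (fun i j => eg (if false then pm i else i) (if false then pm j else j))
      (fun i j => eh (if false then pm i else i) (if false then pm j else j)) = lpB10 eg + lpB11 eg + lpB10 eh + lpB11 eh := by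
    unfold dd
    simp [pm, lpB00, lpB01, lpB02, lpB10, lpB11, lpB12, lpB20, lpB21, lpB22]; try ring
  unfold bnd
  rw [r1, r2, r3]
  generalize max 0 (min (lpR1 eg) (lpR1 eh) - (lpB10 eg + lpB11 eg + lpB10 eh + lpB11 eh)) = q
  generalize min (lpC1 eg) (lpC1 eh) = m
  simp [Fin.sum_univ_five, pm, lpB00, lpB01, lpB02, lpB10, lpB11, lpB12, lpB20, lpB21, lpB22]; try ring

lemma lp_bnd1 (eg eh : Fin 5 → Fin 5 → ℕ) :
    bnd (fun i j => eg (if false then pm i else i) (if true then pm j else j))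
      (fun i j => eh (if false then pm i else i) (if true then pm j else j)) =
    (lpB00 eg + lpB10 eg + lpB20 eg) / 2 + lpB01 eg / 2 + min (lpC2 eg) (lpC2 eh) +
      max 0 (min (lpR1 eg) (lpR1 eh) - (lpB10 eg + lpB12 eg + lpB10 eh + lpB12 eh)) + lpB21 eg / 4 := by
  have r1 : rq (fun i j => eg (if false then pm i else i) (if true then pm j else j))
      (fun i j => eh (if false then pm i else i) (if true then pm j else j)) = min (lpC2 eg) (lpC2 eh) := by
    unfold rq
    congr 1 <;> (simp [Fin.sum_univ_five, pm, lpC1, lpC2, lpR1, lpR2, lpB00, lpB01, lpB02, lpB10, lpB11, lpB12, lpB20, lpB21, lpB22]; try ring)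
  have r2 : rp (fun i j => eg (if false then pm i else i) (if true then pm j else j))
      (fun i j => eh (if false then pm i else i) (if true then pm j else j)) = min (lpR1 eg) (lpR1 eh) := by
    unfold rp
    congr 1 <;> (simp [Fin.sum_univ_five, pm, lpC1, lpC2, lpR1, lpR2, lpB00, lpB01, lpB02, lpB10, lpB11, lpB12, lpB20, lpB21, lpB22]; try ring)
  have r3 : dd (fun i j => eg (if false then pm i else i) (if true then pm j else j))
      (fun i j => eh (if false then pm i else i) (if true then pm j else j)) = lpB10 eg + lpB12 eg + lpB10 eh + lpB12 eh := by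
    unfold dd
    simp [pm, lpB00, lpB01, lpB02, lpB10, lpB11, lpB12, lpB20, lpB21, lpB22]; try ring
  unfold bnd
  rw [r1, r2, r3]
  generalize max 0 (min (lpR1 eg) (lpR1 eh) - (lpB10 eg + lpB12 eg + lpB10 eh + lpB12 eh)) = q
  generalize min (lpC2 eg) (lpC2 eh) = m
  simp [Fin.sum_univ_five, pm, lpB00, lpB01, lpB02, lpB10, lpB11, lpB12, lpB20, lpB21, lpB22]; try ring

lemma lp_bnd2 (eg eh : Fin 5 → Fin 5 → ℕ) :
    bnd (fun i j => eg (if true then pm i else i) (if false then pm j else j))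
      (fun i j => eh (if true then pm i else i) (if false then pm j else j)) =
    (lpB00 eg + lpB10 eg + lpB20 eg) / 2 + lpB02 eg / 2 + min (lpC1 eg) (lpC1 eh) +
      max 0 (min (lpR2 eg) (lpR2 eh) - (lpB20 eg + lpB21 eg + lpB20 eh + lpB21 eh)) + lpB12 eg / 4 := by
  have r1 : rq (fun i j => eg (if true then pm i else i) (if false then pm j else j))
      (fun i j => eh (if true then pm i else i) (if false then pm j else j)) = min (lpC1 eg) (lpC1 eh) := by
    unfold rq
    congr 1 <;> (simp [Fin.sum_univ_five, pm, lpC1, lpC2, lpR1, lpR2, lpB00, lpB01, lpB02, lpB10, lpB11, lpB12, lpB20, lpB21, lpB22]; try ring)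
  have r2 : rp (fun i j => eg (if true then pm i else i) (if false then pm j else j))
      (fun i j => eh (if true then pm i else i) (if false then pm j else j)) = min (lpR2 eg) (lpR2 eh) := by
    unfold rp
    congr 1 <;> (simp [Fin.sum_univ_five, pm, lpC1, lpC2, lpR1, lpR2, lpB00, lpB01, lpB02, lpB10, lpB11, lpB12, lpB20, lpB21, lpB22]; try ring)
  have r3 : dd (fun i j => eg (if true then pm i else i) (if false then pm j else j))
      (fun i j => eh (if true then pm i else i) (if false then pm j else j)) = lpB20 eg + lpB21 eg + lpB20 eh + lpB21 eh := by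
    unfold dd
    simp [pm, lpB00, lpB01, lpB02, lpB10, lpB11, lpB12, lpB20, lpB21, lpB22]; try ring
  unfold bnd
  rw [r1, r2, r3]
  generalize max 0 (min (lpR2 eg) (lpR2 eh) - (lpB20 eg + lpB21 eg + lpB20 eh + lpB21 eh)) = q
  generalize min (lpC1 eg) (lpC1 eh) = m
  simp [Fin.sum_univ_five, pm, lpB00, lpB01, lpB02, lpB10, lpB11, lpB12, lpB20, lpB21, lpB22]; try ring

lemma lp_bnd3 (eg eh : Fin 5 → Fin 5 → ℕ) :
    bnd (fun i j => eg (if true then pm i else i) (if true then pm j else j))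
      (fun i j => eh (if true then pm i else i) (if true then pm j else j)) =
    (lpB00 eg + lpB10 eg + lpB20 eg) / 2 + lpB01 eg / 2 + min (lpC2 eg) (lpC2 eh) +
      max 0 (min (lpR2 eg) (lpR2 eh) - (lpB20 eg + lpB22 eg + lpB20 eh + lpB22 eh)) + lpB11 eg / 4 := by
  have r1 : rq (fun i j => eg (if true then pm i else i) (if true then pm j else j))
      (fun i j => eh (if true then pm i else i) (if true then pm j else j)) = min (lpC2 eg) (lpC2 eh) := by
    unfold rq
    congr 1 <;> (simp [Fin.sum_univ_five, pm, lpC1, lpC2, lpR1, lpR2, lpB00, lpB01, lpB02, lpB10, lpB11, lpB12, lpB20, lpB21, lpB22]; try ring)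
  have r2 : rp (fun i j => eg (if true then pm i else i) (if true then pm j else j))
      (fun i j => eh (if true then pm i else i) (if true then pm j else j)) = min (lpR2 eg) (lpR2 eh) := by
    unfold rp
    congr 1 <;> (simp [Fin.sum_univ_five, pm, lpC1, lpC2, lpR1, lpR2, lpB00, lpB01, lpB02, lpB10, lpB11, lpB12, lpB20, lpB21, lpB22]; try ring)
  have r3 : dd (fun i j => eg (if true then pm i else i) (if true then pm j else j))
      (fun i j => eh (if true then pm i else i) (if true then pm j else j)) = lpB20 eg + lpB22 eg + lpB20 eh + lpB22 eh := by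
    unfold dd
    simp [pm, lpB00, lpB01, lpB02, lpB10, lpB11, lpB12, lpB20, lpB21, lpB22]; try ring
  unfold bnd
  rw [r1, r2, r3]
  generalize max 0 (min (lpR2 eg) (lpR2 eh) - (lpB20 eg + lpB22 eg + lpB20 eh + lpB22 eh)) = q
  generalize min (lpC2 eg) (lpC2 eh) = m
  simp [Fin.sum_univ_five, pm, lpB00, lpB01, lpB02, lpB10, lpB11, lpB12, lpB20, lpB21, lpB22]; try ring

lemma lp_bnd4 (eg eh : Fin 5 → Fin 5 → ℕ) :
    bnd (fun i j => eg (if false then pm j else j) (if false then pm i else i))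
      (fun i j => eh (if false then pm j else j) (if false then pm i else i)) =
    (lpB00 eg + lpB01 eg + lpB02 eg) / 2 + lpB20 eg / 2 + min (lpR1 eg) (lpR1 eh) +
      max 0 (min (lpC1 eg) (lpC1 eh) - (lpB01 eg + lpB11 eg + lpB01 eh + lpB11 eh)) + lpB22 eg / 4 := by
  have r1 : rq (fun i j => eg (if false then pm j else j) (if false then pm i else i))
      (fun i j => eh (if false then pm j else j) (if false then pm i else i)) = min (lpR1 eg) (lpR1 eh) := by
    unfold rq
    congr 1 <;> (simp [Fin.sum_univ_five, pm, lpC1, lpC2, lpR1, lpR2, lpB00, lpB01, lpB02, lpB10, lpB11, lpB12, lpB20, lpB21, lpB22]; try ring)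
  have r2 : rp (fun i j => eg (if false then pm j else j) (if false then pm i else i))
      (fun i j => eh (if false then pm j else j) (if false then pm i else i)) = min (lpC1 eg) (lpC1 eh) := by
    unfold rp
    congr 1 <;> (simp [Fin.sum_univ_five, pm, lpC1, lpC2, lpR1, lpR2, lpB00, lpB01, lpB02, lpB10, lpB11, lpB12, lpB20, lpB21, lpB22]; try ring)
  have r3 : dd (fun i j => eg (if false then pm j else j) (if false then pm i else i))
      (fun i j => eh (if false then pm j else j) (if false then pm i else i)) = lpB01 eg + lpB11 eg + lpB01 eh + lpB11 eh := by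
    unfold dd
    simp [pm, lpB00, lpB01, lpB02, lpB10, lpB11, lpB12, lpB20, lpB21, lpB22]; try ring
  unfold bnd
  rw [r1, r2, r3]
  generalize max 0 (min (lpC1 eg) (lpC1 eh) - (lpB01 eg + lpB11 eg + lpB01 eh + lpB11 eh)) = q
  generalize min (lpR1 eg) (lpR1 eh) = m
  simp [Fin.sum_univ_five, pm, lpB00, lpB01, lpB02, lpB10, lpB11, lpB12, lpB20, lpB21, lpB22]; try ring

lemma lp_bnd5 (eg eh : Fin 5 → Fin 5 → ℕ) :
    bnd (fun i j => eg (if false then pm j else j) (if true then pm i else i))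
      (fun i j => eh (if false then pm j else j) (if true then pm i else i)) =
    (lpB00 eg + lpB01 eg + lpB02 eg) / 2 + lpB20 eg / 2 + min (lpR1 eg) (lpR1 eh) +
      max 0 (min (lpC2 eg) (lpC2 eh) - (lpB02 eg + lpB12 eg + lpB02 eh + lpB12 eh)) + lpB21 eg / 4 := by
  have r1 : rq (fun i j => eg (if false then pm j else j) (if true then pm i else i))
      (fun i j => eh (if false then pm j else j) (if true then pm i else i)) = min (lpR1 eg) (lpR1 eh) := by
    unfold rq
    congr 1 <;> (simp [Fin.sum_univ_five, pm, lpC1, lpC2, lpR1, lpR2, lpB00, lpB01, lpB02, lpB10, lpB11, lpB12, lpB20, lpB21, lpB22]; try ring)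
  have r2 : rp (fun i j => eg (if false then pm j else j) (if true then pm i else i))
      (fun i j => eh (if false then pm j else j) (if true then pm i else i)) = min (lpC2 eg) (lpC2 eh) := by
    unfold rp
    congr 1 <;> (simp [Fin.sum_univ_five, pm, lpC1, lpC2, lpR1, lpR2, lpB00, lpB01, lpB02, lpB10, lpB11, lpB12, lpB20, lpB21, lpB22]; try ring)
  have r3 : dd (fun i j => eg (if false then pm j else j) (if true then pm i else i))
      (fun i j => eh (if false then pm j else j) (if true then pm i else i)) = lpB02 eg + lpB12 eg + lpB02 eh + lpB12 eh := by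
    unfold dd
    simp [pm, lpB00, lpB01, lpB02, lpB10, lpB11, lpB12, lpB20, lpB21, lpB22]; try ring
  unfold bnd
  rw [r1, r2, r3]
  generalize max 0 (min (lpC2 eg) (lpC2 eh) - (lpB02 eg + lpB12 eg + lpB02 eh + lpB12 eh)) = q
  generalize min (lpR1 eg) (lpR1 eh) = m
  simp [Fin.sum_univ_five, pm, lpB00, lpB01, lpB02, lpB10, lpB11, lpB12, lpB20, lpB21, lpB22]; try ring

lemma lp_bnd6 (eg eh : Fin 5 → Fin 5 → ℕ) :
    bnd (fun i j => eg (if true then pm j else j) (if false then pm i else i))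
      (fun i j => eh (if true then pm j else j) (if false then pm i else i)) =
    (lpB00 eg + lpB01 eg + lpB02 eg) / 2 + lpB10 eg / 2 + min (lpR2 eg) (lpR2 eh) +
      max 0 (min (lpC1 eg) (lpC1 eh) - (lpB01 eg + lpB21 eg + lpB01 eh + lpB21 eh)) + lpB12 eg / 4 := by
  have r1 : rq (fun i j => eg (if true then pm j else j) (if false then pm i else i))
      (fun i j => eh (if true then pm j else j) (if false then pm i else i)) = min (lpR2 eg) (lpR2 eh) := by
    unfold rq
    congr 1 <;> (simp [Fin.sum_univ_five, pm, lpC1, lpC2, lpR1, lpR2, lpB00, lpB01, lpB02, lpB10, lpB11, lpB12, lpB20, lpB21, lpB22]; try ring)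
  have r2 : rp (fun i j => eg (if true then pm j else j) (if false then pm i else i))
      (fun i j => eh (if true then pm j else j) (if false then pm i else i)) = min (lpC1 eg) (lpC1 eh) := by
    unfold rp
    congr 1 <;> (simp [Fin.sum_univ_five, pm, lpC1, lpC2, lpR1, lpR2, lpB00, lpB01, lpB02, lpB10, lpB11, lpB12, lpB20, lpB21, lpB22]; try ring)
  have r3 : dd (fun i j => eg (if true then pm j else j) (if false then pm i else i))
      (fun i j => eh (if true then pm j else j) (if false then pm i else i)) = lpB01 eg + lpB21 eg + lpB01 eh + lpB21 eh := by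
    unfold dd
    simp [pm, lpB00, lpB01, lpB02, lpB10, lpB11, lpB12, lpB20, lpB21, lpB22]; try ring
  unfold bnd
  rw [r1, r2, r3]
  generalize max 0 (min (lpC1 eg) (lpC1 eh) - (lpB01 eg + lpB21 eg + lpB01 eh + lpB21 eh)) = q
  generalize min (lpR2 eg) (lpR2 eh) = m
  simp [Fin.sum_univ_five, pm, lpB00, lpB01, lpB02, lpB10, lpB11, lpB12, lpB20, lpB21, lpB22]; try ring

lemma lp_bnd7 (eg eh : Fin 5 → Fin 5 → ℕ) :
    bnd (fun i j => eg (if true then pm j else j) (if true then pm i else i))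
      (fun i j => eh (if true then pm j else j) (if true then pm i else i)) =
    (lpB00 eg + lpB01 eg + lpB02 eg) / 2 + lpB10 eg / 2 + min (lpR2 eg) (lpR2 eh) +
      max 0 (min (lpC2 eg) (lpC2 eh) - (lpB02 eg + lpB22 eg + lpB02 eh + lpB22 eh)) + lpB11 eg / 4 := by
  have r1 : rq (fun i j => eg (if true then pm j else j) (if true then pm i else i))
      (fun i j => eh (if true then pm j else j) (if true then pm i else i)) = min (lpR2 eg) (lpR2 eh) := by
    unfold rq
    congr 1 <;> (simp [Fin.sum_univ_five, pm, lpC1, lpC2, lpR1, lpR2, lpB00, lpB01, lpB02, lpB10, lpB11, lpB12, lpB20, lpB21, lpB22]; try ring)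
  have r2 : rp (fun i j => eg (if true then pm j else j) (if true then pm i else i))
      (fun i j => eh (if true then pm j else j) (if true then pm i else i)) = min (lpC2 eg) (lpC2 eh) := by
    unfold rp
    congr 1 <;> (simp [Fin.sum_univ_five, pm, lpC1, lpC2, lpR1, lpR2, lpB00, lpB01, lpB02, lpB10, lpB11, lpB12, lpB20, lpB21, lpB22]; try ring)
  have r3 : dd (fun i j => eg (if true then pm j else j) (if true then pm i else i))
      (fun i j => eh (if true then pm j else j) (if true then pm i else i)) = lpB02 eg + lpB22 eg + lpB02 eh + lpB22 eh := by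
    unfold dd
    simp [pm, lpB00, lpB01, lpB02, lpB10, lpB11, lpB12, lpB20, lpB21, lpB22]; try ring
  unfold bnd
  rw [r1, r2, r3]
  generalize max 0 (min (lpC2 eg) (lpC2 eh) - (lpB02 eg + lpB22 eg + lpB02 eh + lpB22 eh)) = q
  generalize min (lpR2 eg) (lpR2 eh) = m
  simp [Fin.sum_univ_five, pm, lpB00, lpB01, lpB02, lpB10, lpB11, lpB12, lpB20, lpB21, lpB22]; try ring

/-- One of the eight bounds is at most `19/30` of the total. (The constant is the best possible:
`M = 30`, `eg 0 1 = eg 0 3 = 8`, `eg 1 1 = eg 1 3 = 4`, `eg 3 0 = 6`, `eh 1 1 = eh 1 3 = 12`,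
`eh 3 0 = 6`, all others `0`, gives the eight values 19, 19, 20, 20, 19, 19, 19, 19.) -/
theorem lp (eg eh : Fin 5 → Fin 5 → ℕ) (M : ℝ) (h1 : ∑ i, ∑ j, (eg i j : ℝ) ≤ M)
    (h2 : ∑ i, ∑ j, (eh i j : ℝ) ≤ M) :
    (∃ a b : Bool, bnd (fun i j => eg (if a then pm i else i) (if b then pm j else j))
      (fun i j => eh (if a then pm i else i) (if b then pm j else j)) ≤ 19 / 30 * M) ∨
    (∃ a b : Bool, bnd (fun i j => eg (if b then pm j else j) (if a then pm i else i))
      (fun i j => eh (if b then pm j else j) (if a then pm i else i)) ≤ 19 / 30 * M) := by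
  by_contra hc
  rw [not_or] at hc
  obtain ⟨hc1, hc2⟩ := hc
  push Not at hc1 hc2
  have k0 := hc1 false false
  have k1 := hc1 false true
  have k2 := hc1 true false
  have k3 := hc1 true true
  have k4 := hc2 false false
  have k5 := hc2 true false
  have k6 := hc2 false true
  have k7 := hc2 true true
  rw [lp_bnd0] at k0
  rw [lp_bnd1] at k1
  rw [lp_bnd2] at k2
  rw [lp_bnd3] at k3
  rw [lp_bnd4] at k4
  rw [lp_bnd5] at k5
  rw [lp_bnd6] at k6
  rw [lp_bnd7] at k7
  rw [lp_sum] at h1 h2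
  refine lp_core (lpB00 eg) (lpB01 eg) (lpB02 eg) (lpB10 eg) (lpB11 eg) (lpB12 eg) (lpB20 eg)
    (lpB21 eg) (lpB22 eg) (lpB00 eh) (lpB01 eh) (lpB02 eh) (lpB10 eh) (lpB11 eh) (lpB12 eh)
    (lpB20 eh) (lpB21 eh) (lpB22 eh) (min (lpC1 eg) (lpC1 eh)) (min (lpC2 eg) (lpC2 eh))
    (min (lpR1 eg) (lpR1 eh)) (min (lpR2 eg) (lpR2 eh)) M
    ?_ ?_ ?_ ?_ ?_ ?_ ?_ ?_ ?_ ?_ ?_ ?_ ?_ ?_ ?_ ?_ ?_ ?_ h1 h2
    (min_le_left _ _) (min_le_right _ _) (min_le_left _ _) (min_le_right _ _)
    (min_le_left _ _) (min_le_right _ _) (min_le_left _ _) (min_le_right _ _)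
    k0 k1 k2 k3 k4 k5 k6 k7 <;>
  first
  | (unfold lpB00; positivity)
  | (unfold lpB01; positivity)
  | (unfold lpB02; positivity)
  | (unfold lpB10; positivity)
  | (unfold lpB11; positivity)
  | (unfold lpB12; positivity)
  | (unfold lpB20; positivity)
  | (unfold lpB21; positivity)
  | (unfold lpB22; positivity)

end H38.HF
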