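import Pool.Agent.H38.HF.Defs

/-!
The linear programme, exact value `19/30`. The case tree was found with exact rational linear
programming (dual certificates), the leaves are closed by `linarith`.
-/

set_option autoImplicit false

open Finset

namespace H38.HF

/-- the bound in terms of the sums over the 3 x 3 blocks -/
noncomputable def bd (a00 a01 a02 a10 a11 a12 a20 a21 a22 b00 b01 b02 b10 b11 b12 b20 b21 b22 : ℝ) :
    ℝ :=
  (a00 + a10 + a20) / 2 + a02 / 2 + min (a01 + a11 + a21) (b01 + b11 + b21) +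
    max 0 (min (a10 + a11 + a12) (b10 + b11 + b12) - (a10 + a11 + b10 + b11)) + a22 / 4

set_option linter.unusedVariables false in
theorem bd_cases {a00 a01 a02 a10 a11 a12 a20 a21 a22 b00 b01 b02 b10 b11 b12 b20 b21 b22 t : ℝ}
    (h : t < bd a00 a01 a02 a10 a11 a12 a20 a21 a22 b00 b01 b02 b10 b11 b12 b20 b21 b22) :
    (t < (a00 + a10 + a20) / 2 + a02 / 2 + (a01 + a11 + a21) + a22 / 4 ∧
      t < (a00 + a10 + a20) / 2 + a02 / 2 + (b01 + b11 + b21) + a22 / 4) ∨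
    (t < (a00 + a10 + a20) / 2 + a02 / 2 + (a01 + a11 + a21) + a22 / 4 +
        (a10 + a11 + a12) - (a10 + a11 + b10 + b11) ∧
      t < (a00 + a10 + a20) / 2 + a02 / 2 + (a01 + a11 + a21) + a22 / 4 +
        (b10 + b11 + b12) - (a10 + a11 + b10 + b11) ∧
      t < (a00 + a10 + a20) / 2 + a02 / 2 + (b01 + b11 + b21) + a22 / 4 +
        (a10 + a11 + a12) - (a10 + a11 + b10 + b11) ∧
      t < (a00 + a10 + a20) / 2 + a02 / 2 + (b01 + b11 + b21) + a22 / 4 +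
        (b10 + b11 + b12) - (a10 + a11 + b10 + b11)) := by
  unfold bd at h
  have m1 := min_le_left (a01 + a11 + a21) (b01 + b11 + b21)
  have m2 := min_le_right (a01 + a11 + a21) (b01 + b11 + b21)
  have m3 := min_le_left (a10 + a11 + a12) (b10 + b11 + b12)
  have m4 := min_le_right (a10 + a11 + a12) (b10 + b11 + b12)
  rcases max_choice 0 (min (a10 + a11 + a12) (b10 + b11 + b12) - (a10 + a11 + b10 + b11)) with e | e
  · rw [e] at h
    exact Or.inl ⟨by linarith, by linarith⟩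
  · rw [e] at h
    exact Or.inr ⟨by linarith, by linarith, by linarith, by linarith⟩

theorem lp_core {M a00 a01 a02 a10 a11 a12 a20 a21 a22 b00 b01 b02 b10 b11 b12 b20 b21 b22 : ℝ}
    (n_a00 : 0 ≤ a00)
    (n_a01 : 0 ≤ a01)
    (n_a02 : 0 ≤ a02)
    (n_a10 : 0 ≤ a10)
    (n_a11 : 0 ≤ a11)
    (n_a12 : 0 ≤ a12)
    (n_a20 : 0 ≤ a20)
    (n_a21 : 0 ≤ a21)
    (n_a22 : 0 ≤ a22)
    (n_b00 : 0 ≤ b00)
    (n_b01 : 0 ≤ b01)
    (n_b02 : 0 ≤ b02)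
    (n_b10 : 0 ≤ b10)
    (n_b11 : 0 ≤ b11)
    (n_b12 : 0 ≤ b12)
    (n_b20 : 0 ≤ b20)
    (n_b21 : 0 ≤ b21)
    (n_b22 : 0 ≤ b22)
    (hA : a00 + a01 + a02 + a10 + a11 + a12 + a20 + a21 + a22 ≤ M)
    (hB : b00 + b01 + b02 + b10 + b11 + b12 + b20 + b21 + b22 ≤ M)
    (h0 : 19 / 30 * M < bd a00 a01 a02 a10 a11 a12 a20 a21 a22
      b00 b01 b02 b10 b11 b12 b20 b21 b22)
    (h1 : 19 / 30 * M < bd a00 a02 a01 a10 a12 a11 a20 a22 a21
      b00 b02 b01 b10 b12 b11 b20 b22 b21)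
    (h2 : 19 / 30 * M < bd a00 a01 a02 a20 a21 a22 a10 a11 a12
      b00 b01 b02 b20 b21 b22 b10 b11 b12)
    (h3 : 19 / 30 * M < bd a00 a02 a01 a20 a22 a21 a10 a12 a11
      b00 b02 b01 b20 b22 b21 b10 b12 b11)
    (h4 : 19 / 30 * M < bd a00 a10 a20 a01 a11 a21 a02 a12 a22
      b00 b10 b20 b01 b11 b21 b02 b12 b22)
    (h5 : 19 / 30 * M < bd a00 a20 a10 a01 a21 a11 a02 a22 a12
      b00 b20 b10 b01 b21 b11 b02 b22 b12)
    (h6 : 19 / 30 * M < bd a00 a10 a20 a02 a12 a22 a01 a11 a21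
      b00 b10 b20 b02 b12 b22 b01 b11 b21)
    (h7 : 19 / 30 * M < bd a00 a20 a10 a02 a22 a12 a01 a21 a11
      b00 b20 b10 b02 b22 b12 b01 b21 b11) : False := by
  rcases bd_cases h0 with ⟨h0_a, h0_b⟩ | ⟨h0_aa, h0_ab, h0_ba, h0_bb⟩
  · rcases bd_cases h1 with ⟨h1_a, h1_b⟩ | ⟨h1_aa, h1_ab, h1_ba, h1_bb⟩
    · rcases bd_cases h4 with ⟨h4_a, h4_b⟩ | ⟨h4_aa, h4_ab, h4_ba, h4_bb⟩
      · rcases bd_cases h5 with ⟨h5_a, h5_b⟩ | ⟨h5_aa, h5_ab, h5_ba, h5_bb⟩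
        · linarith only [h0_a, h1_a, h4_a, h5_a, hA, hB, n_a00, n_a01, n_a02, n_a10, n_a11,
            n_a12, n_a20, n_a21, n_a22, n_b00, n_b01, n_b02, n_b10, n_b11, n_b12, n_b20, n_b21,
            n_b22]
        · rcases bd_cases h7 with ⟨h7_a, h7_b⟩ | ⟨h7_aa, h7_ab, h7_ba, h7_bb⟩
          · linarith only [h0_a, h1_a, h4_a, h7_a, hA, hB, n_a00, n_a01, n_a02, n_a10, n_a11,
              n_a12, n_a20, n_a21, n_a22, n_b00, n_b01, n_b02, n_b10, n_b11, n_b12, n_b20, n_b21,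
              n_b22]
          · linarith only [h0_a, h0_b, h1_a, h1_b, h4_a, h5_aa, h5_ba, h7_aa, hA, hB, n_a00,
              n_a01, n_a02, n_a10, n_a11, n_a12, n_a20, n_a21, n_a22, n_b00, n_b01, n_b02, n_b10,
              n_b11, n_b12, n_b20, n_b21, n_b22]
      · rcases bd_cases h2 with ⟨h2_a, h2_b⟩ | ⟨h2_aa, h2_ab, h2_ba, h2_bb⟩
        · rcases bd_cases h5 with ⟨h5_a, h5_b⟩ | ⟨h5_aa, h5_ab, h5_ba, h5_bb⟩
          · rcases bd_cases h6 with ⟨h6_a, h6_b⟩ | ⟨h6_aa, h6_ab, h6_ba, h6_bb⟩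
            · linarith only [h1_a, h2_a, h5_a, h6_a, hA, hB, n_a00, n_a01, n_a02, n_a10, n_a11,
                n_a12, n_a20, n_a21, n_a22, n_b00, n_b01, n_b02, n_b10, n_b11, n_b12, n_b20,
                n_b21, n_b22]
            · rcases bd_cases h3 with ⟨h3_a, h3_b⟩ | ⟨h3_aa, h3_ab, h3_ba, h3_bb⟩
              · linarith only [h4_aa, h4_ab, h4_ba, h2_a, h5_a, h6_aa, h3_a, h3_b, hA, hB, n_a00,
                  n_a01, n_a02, n_a10, n_a11, n_a12, n_a20, n_a21, n_a22, n_b00, n_b01, n_b02,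
                  n_b10, n_b11, n_b12, n_b20, n_b21, n_b22]
              · linarith only [h1_a, h1_b, h2_a, h5_a, h6_aa, h3_aa, hA, hB, n_a00, n_a01, n_a02,
                  n_a10, n_a11, n_a12, n_a20, n_a21, n_a22, n_b00, n_b01, n_b02, n_b10, n_b11,
                  n_b12, n_b20, n_b21, n_b22]
          · linarith only [h1_a, h4_ab, h2_a, h5_aa, hA, hB, n_a00, n_a01, n_a02, n_a10, n_a11,
              n_a12, n_a20, n_a21, n_a22, n_b00, n_b01, n_b02, n_b10, n_b11, n_b12, n_b20, n_b21,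
              n_b22]
        · linarith only [h0_a, h0_b, h1_a, h4_aa, h2_aa, hA, hB, n_a00, n_a01, n_a02, n_a10,
            n_a11, n_a12, n_a20, n_a21, n_a22, n_b00, n_b01, n_b02, n_b10, n_b11, n_b12, n_b20,
            n_b21, n_b22]
    · rcases bd_cases h7 with ⟨h7_a, h7_b⟩ | ⟨h7_aa, h7_ab, h7_ba, h7_bb⟩
      · rcases bd_cases h4 with ⟨h4_a, h4_b⟩ | ⟨h4_aa, h4_ab, h4_ba, h4_bb⟩
        · rcases bd_cases h3 with ⟨h3_a, h3_b⟩ | ⟨h3_aa, h3_ab, h3_ba, h3_bb⟩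
          · linarith only [h0_a, h7_a, h4_a, h3_a, hA, hB, n_a00, n_a01, n_a02, n_a10, n_a11,
              n_a12, n_a20, n_a21, n_a22, n_b00, n_b01, n_b02, n_b10, n_b11, n_b12, n_b20, n_b21,
              n_b22]
          · rcases bd_cases h5 with ⟨h5_a, h5_b⟩ | ⟨h5_aa, h5_ab, h5_ba, h5_bb⟩
            · linarith only [h0_a, h1_aa, h1_ab, h1_ba, h4_a, h3_aa, h3_ab, h5_a, hA, hB, n_a00,
                n_a01, n_a02, n_a10, n_a11, n_a12, n_a20, n_a21, n_a22, n_b00, n_b01, n_b02,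
                n_b10, n_b11, n_b12, n_b20, n_b21, n_b22]
            · linarith only [h0_a, h7_a, h7_b, h4_a, h3_aa, h5_aa, hA, hB, n_a00, n_a01, n_a02,
                n_a10, n_a11, n_a12, n_a20, n_a21, n_a22, n_b00, n_b01, n_b02, n_b10, n_b11,
                n_b12, n_b20, n_b21, n_b22]
        · rcases bd_cases h6 with ⟨h6_a, h6_b⟩ | ⟨h6_aa, h6_ab, h6_ba, h6_bb⟩
          · linarith only [h0_a, h1_ab, h7_a, h4_aa, h6_a, hA, hB, n_a00, n_a01, n_a02, n_a10,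
              n_a11, n_a12, n_a20, n_a21, n_a22, n_b00, n_b01, n_b02, n_b10, n_b11, n_b12, n_b20,
              n_b21, n_b22]
          · linarith only [h0_b, h1_ab, h1_bb, h4_aa, h4_ba, h6_aa, hA, hB, n_a00, n_a01, n_a02,
              n_a10, n_a11, n_a12, n_a20, n_a21, n_a22, n_b00, n_b01, n_b02, n_b10, n_b11, n_b12,
              n_b20, n_b21, n_b22]
      · rcases bd_cases h3 with ⟨h3_a, h3_b⟩ | ⟨h3_aa, h3_ab, h3_ba, h3_bb⟩
        · linarith only [h0_a, h1_aa, h1_ba, h7_aa, h3_a, hA, hB, n_a00, n_a01, n_a02, n_a10,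
            n_a11, n_a12, n_a20, n_a21, n_a22, n_b00, n_b01, n_b02, n_b10, n_b11, n_b12, n_b20,
            n_b21, n_b22]
        · linarith only [h1_ab, h1_ba, h7_aa, h7_ba, h3_aa, hA, hB, n_a00, n_a01, n_a02, n_a10,
            n_a11, n_a12, n_a20, n_a21, n_a22, n_b00, n_b01, n_b02, n_b10, n_b11, n_b12, n_b20,
            n_b21, n_b22]
  · rcases bd_cases h5 with ⟨h5_a, h5_b⟩ | ⟨h5_aa, h5_ab, h5_ba, h5_bb⟩
    · rcases bd_cases h6 with ⟨h6_a, h6_b⟩ | ⟨h6_aa, h6_ab, h6_ba, h6_bb⟩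
      · rcases bd_cases h1 with ⟨h1_a, h1_b⟩ | ⟨h1_aa, h1_ab, h1_ba, h1_bb⟩
        · rcases bd_cases h2 with ⟨h2_a, h2_b⟩ | ⟨h2_aa, h2_ab, h2_ba, h2_bb⟩
          · linarith only [h5_a, h6_a, h1_a, h2_a, hA, hB, n_a00, n_a01, n_a02, n_a10, n_a11,
              n_a12, n_a20, n_a21, n_a22, n_b00, n_b01, n_b02, n_b10, n_b11, n_b12, n_b20, n_b21,
              n_b22]
          · rcases bd_cases h7 with ⟨h7_a, h7_b⟩ | ⟨h7_aa, h7_ab, h7_ba, h7_bb⟩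
            · linarith only [h0_aa, h0_bb, h6_a, h1_a, h2_aa, h7_a, h7_b, hA, hB, n_a00, n_a01,
                n_a02, n_a10, n_a11, n_a12, n_a20, n_a21, n_a22, n_b00, n_b01, n_b02, n_b10,
                n_b11, n_b12, n_b20, n_b21, n_b22]
            · linarith only [h5_a, h6_a, h1_a, h2_ab, h7_aa, hA, hB, n_a00, n_a01, n_a02, n_a10,
                n_a11, n_a12, n_a20, n_a21, n_a22, n_b00, n_b01, n_b02, n_b10, n_b11, n_b12,
                n_b20, n_b21, n_b22]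
        · linarith only [h0_ab, h5_a, h6_a, h1_aa, hA, hB, n_a00, n_a01, n_a02, n_a10, n_a11,
            n_a12, n_a20, n_a21, n_a22, n_b00, n_b01, n_b02, n_b10, n_b11, n_b12, n_b20, n_b21,
            n_b22]
      · rcases bd_cases h4 with ⟨h4_a, h4_b⟩ | ⟨h4_aa, h4_ab, h4_ba, h4_bb⟩
        · linarith only [h0_ab, h5_a, h6_aa, h4_a, hA, hB, n_a00, n_a01, n_a02, n_a10, n_a11,
            n_a12, n_a20, n_a21, n_a22, n_b00, n_b01, n_b02, n_b10, n_b11, n_b12, n_b20, n_b21,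
            n_b22]
        · linarith only [h0_ab, h0_bb, h6_aa, h6_ab, h6_ba, h4_aa, hA, hB, n_a00, n_a01, n_a02,
            n_a10, n_a11, n_a12, n_a20, n_a21, n_a22, n_b00, n_b01, n_b02, n_b10, n_b11, n_b12,
            n_b20, n_b21, n_b22]
    · rcases bd_cases h2 with ⟨h2_a, h2_b⟩ | ⟨h2_aa, h2_ab, h2_ba, h2_bb⟩
      · rcases bd_cases h3 with ⟨h3_a, h3_b⟩ | ⟨h3_aa, h3_ab, h3_ba, h3_bb⟩
        · linarith only [h0_ba, h5_aa, h2_a, h3_a, hA, hB, n_a00, n_a01, n_a02, n_a10, n_a11,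
            n_a12, n_a20, n_a21, n_a22, n_b00, n_b01, n_b02, n_b10, n_b11, n_b12, n_b20, n_b21,
            n_b22]
        · linarith only [h0_ba, h5_aa, h5_ba, h2_a, h3_aa, hA, hB, n_a00, n_a01, n_a02, n_a10,
            n_a11, n_a12, n_a20, n_a21, n_a22, n_b00, n_b01, n_b02, n_b10, n_b11, n_b12, n_b20,
            n_b21, n_b22]
      · linarith only [h0_ab, h0_ba, h5_aa, h5_ba, h2_aa, hA, hB, n_a00, n_a01, n_a02, n_a10,
          n_a11, n_a12, n_a20, n_a21, n_a22, n_b00, n_b01, n_b02, n_b10, n_b11, n_b12, n_b20,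
          n_b21, n_b22]

theorem bnd_bd (eg eh : Fin 5 → Fin 5 → ℕ) : bnd eg eh =
    bd (eg 0 0) (eg 0 1 + eg 0 2) (eg 0 3 + eg 0 4)
      (eg 1 0 + eg 2 0) (eg 1 1 + eg 1 2 + eg 2 1 + eg 2 2) (eg 1 3 + eg 1 4 + eg 2 3 + eg 2 4)
      (eg 3 0 + eg 4 0) (eg 3 1 + eg 3 2 + eg 4 1 + eg 4 2) (eg 3 3 + eg 3 4 + eg 4 3 + eg 4 4)
      (eh 0 0) (eh 0 1 + eh 0 2) (eh 0 3 + eh 0 4)
      (eh 1 0 + eh 2 0) (eh 1 1 + eh 1 2 + eh 2 1 + eh 2 2) (eh 1 3 + eh 1 4 + eh 2 3 + eh 2 4)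
      (eh 3 0 + eh 4 0) (eh 3 1 + eh 3 2 + eh 4 1 + eh 4 2)
      (eh 3 3 + eh 3 4 + eh 4 3 + eh 4 4) := by
  have e1 : ∀ e : Fin 5 → Fin 5 → ℕ, ∑ i, (e i 0 : ℝ) = e 0 0 + (e 1 0 + e 2 0) + (e 3 0 + e 4 0) := by
    intro e
    rw [Fin.sum_univ_five]; ring
  have e2 : ∀ e : Fin 5 → Fin 5 → ℕ, ∑ i, ((e i 1 : ℝ) + e i 2) = (e 0 1 + e 0 2) +
      (e 1 1 + e 1 2 + e 2 1 + e 2 2) + (e 3 1 + e 3 2 + e 4 1 + e 4 2) := by
    intro e
    rw [Fin.sum_univ_five]; ring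
  have e3 : ∀ e : Fin 5 → Fin 5 → ℕ, ∑ j, ((e 1 j : ℝ) + e 2 j) = (e 1 0 + e 2 0) +
      (e 1 1 + e 1 2 + e 2 1 + e 2 2) + (e 1 3 + e 1 4 + e 2 3 + e 2 4) := by
    intro e
    rw [Fin.sum_univ_five]; ring
  have e4 : dd eg eh = (eg 1 0 + eg 2 0) + (eg 1 1 + eg 1 2 + eg 2 1 + eg 2 2) + (eh 1 0 + eh 2 0) +
      (eh 1 1 + eh 1 2 + eh 2 1 + eh 2 2) := by
    unfold dd; ring
  rw [bnd, rq, rp, e1, e2, e2, e3, e3, e4, bd]

/-- One of the eight bounds is at most `19/30` of the total; `19/30` is the exact value. -/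
theorem lp19 (eg eh : Fin 5 → Fin 5 → ℕ) (M : ℝ) (h1 : ∑ i, ∑ j, (eg i j : ℝ) ≤ M)
    (h2 : ∑ i, ∑ j, (eh i j : ℝ) ≤ M) :
    (∃ a b : Bool, bnd (fun i j => eg (if a then pm i else i) (if b then pm j else j))
      (fun i j => eh (if a then pm i else i) (if b then pm j else j)) ≤ 19 / 30 * M) ∨
    (∃ a b : Bool, bnd (fun i j => eg (if b then pm j else j) (if a then pm i else i))
      (fun i j => eh (if b then pm j else j) (if a then pm i else i)) ≤ 19 / 30 * M) := by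
  by_contra hcon
  push Not at hcon
  obtain ⟨k1, k2⟩ := hcon
  have p0 : pm 0 = 0 := rfl
  have p1 : pm 1 = 3 := rfl
  have p2 : pm 2 = 4 := rfl
  have p3 : pm 3 = 1 := rfl
  have p4 : pm 4 = 2 := rfl
  have f0 := k1 false false
  have f1 := k1 false true
  have f2 := k1 true false
  have f3 := k1 true true
  have f4 := k2 false false
  have f5 := k2 false true
  have f6 := k2 true false
  have f7 := k2 true true
  simp only [bnd_bd, Bool.false_eq_true, if_false, if_true, p0, p1, p2, p3, p4] at f0 f1 f2 f3 f4 f5 f6 f7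
  have hsum : ∀ e : Fin 5 → Fin 5 → ℕ, ∑ i, ∑ j, (e i j : ℝ) = (e 0 0 : ℝ) + (e 0 1 + e 0 2) +
      (e 0 3 + e 0 4) + (e 1 0 + e 2 0) + (e 1 1 + e 1 2 + e 2 1 + e 2 2) +
      (e 1 3 + e 1 4 + e 2 3 + e 2 4) + (e 3 0 + e 4 0) + (e 3 1 + e 3 2 + e 4 1 + e 4 2) +
      (e 3 3 + e 3 4 + e 4 3 + e 4 4) := by
    intro e
    simp only [Fin.sum_univ_five]
    ring
  rw [hsum] at h1 h2
  have sw : ∀ w x y z : ℝ, w + x + y + z = w + y + x + z := fun w x y z => by ring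
  refine lp_core (M := M) (a00 := eg 0 0) (a01 := eg 0 1 + eg 0 2) (a02 := eg 0 3 + eg 0 4)
    (a10 := eg 1 0 + eg 2 0) (a11 := eg 1 1 + eg 1 2 + eg 2 1 + eg 2 2)
    (a12 := eg 1 3 + eg 1 4 + eg 2 3 + eg 2 4) (a20 := eg 3 0 + eg 4 0)
    (a21 := eg 3 1 + eg 3 2 + eg 4 1 + eg 4 2) (a22 := eg 3 3 + eg 3 4 + eg 4 3 + eg 4 4)
    (b00 := eh 0 0) (b01 := eh 0 1 + eh 0 2) (b02 := eh 0 3 + eh 0 4)
    (b10 := eh 1 0 + eh 2 0) (b11 := eh 1 1 + eh 1 2 + eh 2 1 + eh 2 2)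
    (b12 := eh 1 3 + eh 1 4 + eh 2 3 + eh 2 4) (b20 := eh 3 0 + eh 4 0)
    (b21 := eh 3 1 + eh 3 2 + eh 4 1 + eh 4 2) (b22 := eh 3 3 + eh 3 4 + eh 4 3 + eh 4 4)
    ?_ ?_ ?_ ?_ ?_ ?_ ?_ ?_ ?_ ?_ ?_ ?_ ?_ ?_ ?_ ?_ ?_ ?_ h1 h2 f0 f1 f2 f3 ?_ ?_ ?_ ?_
  all_goals try positivity
  · refine lt_of_lt_of_eq f4 ?_
    congr 1 <;> ring
  · refine lt_of_lt_of_eq f5 ?_
    congr 1 <;> ring
  · refine lt_of_lt_of_eq f6 ?_
    congr 1 <;> ring
  · refine lt_of_lt_of_eq f7 ?_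
    congr 1 <;> ring

end H38.HF
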