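import Pool.Agent.H38.HF.Lp

/-!
The linear programme with the two equalities (up to 5) between the first rows and the first columns.
-/

set_option autoImplicit false
set_option linter.unusedTactic false

open Finset

namespace H38.HF

lemma lp58_core (a00 a01 a02 a10 a11 a12 a20 a21 a22 b00 b01 b02 b10 b11 b12 b20 b21 b22 m1 m2 n1 n2 M : ℝ)
    (pa00 : 0 ≤ a00)
    (pa01 : 0 ≤ a01)
    (pa02 : 0 ≤ a02)
    (pa10 : 0 ≤ a10)
    (pa11 : 0 ≤ a11)
    (pa12 : 0 ≤ a12)
    (pa20 : 0 ≤ a20)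
    (pa21 : 0 ≤ a21)
    (pa22 : 0 ≤ a22)
    (pb00 : 0 ≤ b00)
    (pb01 : 0 ≤ b01)
    (pb02 : 0 ≤ b02)
    (pb10 : 0 ≤ b10)
    (pb11 : 0 ≤ b11)
    (pb12 : 0 ≤ b12)
    (pb20 : 0 ≤ b20)
    (pb21 : 0 ≤ b21)
    (pb22 : 0 ≤ b22)
    (hA : a00 + a01 + a02 + a10 + a11 + a12 + a20 + a21 + a22 ≤ M)
    (hB : b00 + b01 + b02 + b10 + b11 + b12 + b20 + b21 + b22 ≤ M)
    (c1a : m1 ≤ a01 + a11 + a21) (c1b : m1 ≤ b01 + b11 + b21)
    (c2a : m2 ≤ a02 + a12 + a22) (c2b : m2 ≤ b02 + b12 + b22)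
    (r1a : n1 ≤ a10 + a11 + a12) (r1b : n1 ≤ b10 + b11 + b12)
    (r2a : n2 ≤ a20 + a21 + a22) (r2b : n2 ≤ b20 + b21 + b22)
    (rowp : a00 + a01 + a02 ≤ b00 + b01 + b02 + 5)
    (rowm : b00 + b01 + b02 ≤ a00 + a01 + a02 + 5)
    (colp : a00 + a10 + a20 ≤ b00 + b10 + b20 + 5)
    (colm : b00 + b10 + b20 ≤ a00 + a10 + a20 + 5)
    (h0 : 5 / 8 * M + 40 < (a00 + a10 + a20) / 2 + a02 / 2 + m1 + max 0 (n1 - (a10 + a11 + b10 + b11)) + a22 / 4)
    (h1 : 5 / 8 * M + 40 < (a00 + a10 + a20) / 2 + a01 / 2 + m2 + max 0 (n1 - (a10 + a12 + b10 + b12)) + a21 / 4)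
    (h2 : 5 / 8 * M + 40 < (a00 + a10 + a20) / 2 + a02 / 2 + m1 + max 0 (n2 - (a20 + a21 + b20 + b21)) + a12 / 4)
    (h3 : 5 / 8 * M + 40 < (a00 + a10 + a20) / 2 + a01 / 2 + m2 + max 0 (n2 - (a20 + a22 + b20 + b22)) + a11 / 4)
    (h4 : 5 / 8 * M + 40 < (a00 + a01 + a02) / 2 + a20 / 2 + n1 + max 0 (m1 - (a01 + a11 + b01 + b11)) + a22 / 4)
    (h5 : 5 / 8 * M + 40 < (a00 + a01 + a02) / 2 + a20 / 2 + n1 + max 0 (m2 - (a02 + a12 + b02 + b12)) + a21 / 4)
    (h6 : 5 / 8 * M + 40 < (a00 + a01 + a02) / 2 + a10 / 2 + n2 + max 0 (m1 - (a01 + a21 + b01 + b21)) + a12 / 4)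
    (h7 : 5 / 8 * M + 40 < (a00 + a01 + a02) / 2 + a10 / 2 + n2 + max 0 (m2 - (a02 + a22 + b02 + b22)) + a11 / 4)
    : False := by
  rcases max_choice 0 (n1 - (a10 + a11 + b10 + b11)) with e | e <;> rw [e] at h0
  · skip
    rcases max_choice 0 (n1 - (a10 + a12 + b10 + b12)) with e | e <;> rw [e] at h1
    · skip
      rcases max_choice 0 (m1 - (a01 + a11 + b01 + b11)) with e | e <;> rw [e] at h4
      · skip
        rcases max_choice 0 (m1 - (a01 + a21 + b01 + b21)) with e | e <;> rw [e] at h6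
        · skip
          linarith only [pa00, pa01, pa02, pa10, pa11, pa12, pa20, pa21, pa22, pb00, pb01, pb02, pb10, pb11, pb12, pb20, pb21, pb22, hA, c1a, c2a, r1a, r2a, h0, h1, h4, h6]
        · skip
          rcases max_choice 0 (m2 - (a02 + a22 + b02 + b22)) with e | e <;> rw [e] at h7
          · skip
            linarith only [pa00, pa01, pa02, pa10, pa11, pa12, pa20, pa21, pa22, pb00, pb01, pb02, pb10, pb11, pb12, pb20, pb21, pb22, hA, hB, c1a, c1b, c2a, r1a, r2a, r2b, rowp, h0, h1, h4, h6, h7]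
          · skip
            linarith only [pa00, pa01, pa02, pa10, pa11, pa12, pa20, pa21, pa22, pb00, pb01, pb02, pb10, pb11, pb12, pb20, pb21, pb22, hA, hB, c1a, c1b, c2a, c2b, r2a, r2b, rowp, h0, h1, h6, h7]
      · skip
        rcases max_choice 0 (m2 - (a02 + a12 + b02 + b12)) with e | e <;> rw [e] at h5
        · skip
          rcases max_choice 0 (m1 - (a01 + a21 + b01 + b21)) with e | e <;> rw [e] at h6
          · skip
            linarith only [pa00, pa01, pa02, pa10, pa11, pa12, pa20, pa21, pa22, pb00, pb01, pb02, pb10, pb11, pb12, pb20, pb21, pb22, hA, c1a, c2a, r1a, r2a, h0, h1, h5, h6]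
          · skip
            linarith only [pa00, pa01, pa02, pa10, pa11, pa12, pa20, pa21, pa22, pb00, pb01, pb02, pb10, pb11, pb12, pb20, pb21, pb22, hA, c1a, c1b, c2a, r1a, r2a, h0, h1, h4, h6]
        · skip
          linarith only [pa00, pa01, pa02, pa10, pa11, pa12, pa20, pa21, pa22, pb00, pb01, pb02, pb10, pb11, pb12, pb20, pb21, pb22, hA, hB, c1a, c1b, c2a, c2b, r1a, r1b, rowp, h0, h1, h4, h5]
    · skip
      rcases max_choice 0 (m1 - (a01 + a11 + b01 + b11)) with e | e <;> rw [e] at h4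
      · skip
        rcases max_choice 0 (n2 - (a20 + a22 + b20 + b22)) with e | e <;> rw [e] at h3
        · skip
          rcases max_choice 0 (m2 - (a02 + a22 + b02 + b22)) with e | e <;> rw [e] at h7
          · skip
            linarith only [pa00, pa01, pa02, pa10, pa11, pa12, pa20, pa21, pa22, pb00, pb01, pb02, pb10, pb11, pb12, pb20, pb21, pb22, hA, c1a, c2a, r1a, r2a, h0, h3, h4, h7]
          · skip
            linarith only [pa00, pa01, pa02, pa10, pa11, pa12, pa20, pa21, pa22, pb00, pb01, pb02, pb10, pb11, pb12, pb20, pb21, pb22, hA, c1a, c2a, c2b, r1a, r2a, h0, h1, h3, h4, h7]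
        · skip
          rcases max_choice 0 (m2 - (a02 + a22 + b02 + b22)) with e | e <;> rw [e] at h7
          · skip
            linarith only [pa00, pa01, pa02, pa10, pa11, pa12, pa20, pa21, pa22, pb00, pb01, pb02, pb10, pb11, pb12, pb20, pb21, pb22, hA, hB, c2a, c2b, r1a, r1b, r2a, r2b, colp, h1, h3, h4, h7]
          · skip
            linarith only [pa00, pa01, pa02, pa10, pa11, pa12, pa20, pa21, pa22, pb00, pb01, pb02, pb10, pb11, pb12, pb20, pb21, pb22, hA, hB, c2a, c2b, r1a, r1b, r2a, r2b, colp, h1, h3, h4, h7]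
      · skip
        rcases max_choice 0 (m2 - (a02 + a12 + b02 + b12)) with e | e <;> rw [e] at h5
        · skip
          linarith only [pa00, pa01, pa02, pa10, pa11, pa12, pa20, pa21, pa22, pb00, pb01, pb02, pb10, pb11, pb12, pb20, pb21, pb22, hA, hB, c1a, c1b, c2a, r1a, r1b, rowp, h0, h1, h4, h5]
        · skip
          linarith only [pa00, pa01, pa02, pa10, pa11, pa12, pa20, pa21, pa22, pb00, pb01, pb02, pb10, pb11, pb12, pb20, pb21, pb22, hA, hB, c1a, c1b, c2a, c2b, r1a, r1b, rowp, h1, h4, h5]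
  · skip
    rcases max_choice 0 (m1 - (a01 + a21 + b01 + b21)) with e | e <;> rw [e] at h6
    · skip
      rcases max_choice 0 (m2 - (a02 + a12 + b02 + b12)) with e | e <;> rw [e] at h5
      · skip
        rcases max_choice 0 (n1 - (a10 + a12 + b10 + b12)) with e | e <;> rw [e] at h1
        · skip
          rcases max_choice 0 (n2 - (a20 + a21 + b20 + b21)) with e | e <;> rw [e] at h2
          · skip
            linarith only [pa00, pa01, pa02, pa10, pa11, pa12, pa20, pa21, pa22, pb00, pb01, pb02, pb10, pb11, pb12, pb20, pb21, pb22, hA, c1a, c2a, r1a, r2a, h1, h2, h5, h6]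
          · skip
            linarith only [pa00, pa01, pa02, pa10, pa11, pa12, pa20, pa21, pa22, pb00, pb01, pb02, pb10, pb11, pb12, pb20, pb21, pb22, hA, hB, c1a, c1b, r1a, r1b, r2a, r2b, colp, h0, h2, h5, h6]
        · skip
          linarith only [pa00, pa01, pa02, pa10, pa11, pa12, pa20, pa21, pa22, pb00, pb01, pb02, pb10, pb11, pb12, pb20, pb21, pb22, hA, c1a, c2a, r1a, r1b, r2a, h0, h1, h5, h6]
      · skip
        rcases max_choice 0 (m1 - (a01 + a11 + b01 + b11)) with e | e <;> rw [e] at h4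
        · skip
          linarith only [pa00, pa01, pa02, pa10, pa11, pa12, pa20, pa21, pa22, pb00, pb01, pb02, pb10, pb11, pb12, pb20, pb21, pb22, hA, c1a, c2a, r1a, r1b, r2a, h0, h4, h5, h6]
        · skip
          linarith only [pa00, pa01, pa02, pa10, pa11, pa12, pa20, pa21, pa22, pb00, pb01, pb02, pb10, pb11, pb12, pb20, pb21, pb22, hA, hB, c1a, c1b, c2a, c2b, r1a, r1b, rowp, h0, h4, h5]
    · skip
      rcases max_choice 0 (n1 - (a10 + a12 + b10 + b12)) with e | e <;> rw [e] at h1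
      · skip
        rcases max_choice 0 (n2 - (a20 + a21 + b20 + b21)) with e | e <;> rw [e] at h2
        · skip
          linarith only [pa00, pa01, pa02, pa10, pa11, pa12, pa20, pa21, pa22, pb00, pb01, pb02, pb10, pb11, pb12, pb20, pb21, pb22, hA, c1a, c1b, c2a, r1a, r2a, h0, h1, h2, h6]
        · skip
          linarith only [pa00, pa01, pa02, pa10, pa11, pa12, pa20, pa21, pa22, pb00, pb01, pb02, pb10, pb11, pb12, pb20, pb21, pb22, hA, hB, c1a, c1b, r1a, r1b, r2a, r2b, colp, h0, h2, h6]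
      · skip
        linarith only [pa00, pa01, pa02, pa10, pa11, pa12, pa20, pa21, pa22, pb00, pb01, pb02, pb10, pb11, pb12, pb20, pb21, pb22, hA, c1a, c1b, c2a, r1a, r1b, r2a, h0, h1, h6]

lemma lp58_row (e : Fin 5 → Fin 5 → ℕ) : ∑ j, (e 0 j : ℝ) = lpB00 e + lpB01 e + lpB02 e := by
  simp only [Fin.sum_univ_five, lpB00, lpB01, lpB02]
  ring

lemma lp58_col (e : Fin 5 → Fin 5 → ℕ) : ∑ i, (e i 0 : ℝ) = lpB00 e + lpB10 e + lpB20 e := by
  simp only [Fin.sum_univ_five, lpB00, lpB10, lpB20]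
  ring

/-- With the equalities (up to `5`) of the first row sums and of the first column sums one of the
eight bounds is at most `5/8` of the total (plus a constant). -/
theorem lp58 (eg eh : Fin 5 → Fin 5 → ℕ) (M : ℝ) (h1 : ∑ i, ∑ j, (eg i j : ℝ) ≤ M)
    (h2 : ∑ i, ∑ j, (eh i j : ℝ) ≤ M)
    (h3 : |∑ j, (eg 0 j : ℝ) - ∑ j, (eh 0 j : ℝ)| ≤ 5)
    (h4 : |∑ i, (eg i 0 : ℝ) - ∑ i, (eh i 0 : ℝ)| ≤ 5) :
    (∃ a b : Bool, bnd (fun i j => eg (if a then pm i else i) (if b then pm j else j))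
      (fun i j => eh (if a then pm i else i) (if b then pm j else j)) ≤ 5 / 8 * M + 40) ∨
    (∃ a b : Bool, bnd (fun i j => eg (if b then pm j else j) (if a then pm i else i))
      (fun i j => eh (if b then pm j else j) (if a then pm i else i)) ≤ 5 / 8 * M + 40) := by
  by_contra hc
  rw [not_or] at hc
  obtain ⟨hc1, hc2⟩ := hc
  push Not at hc1 hc2
  have k0 := hc1 false false
  have k1 := hc1 false true
  have k2 := hc1 true false
  have k3 := hc1 true true
  have k4 := hc2 false false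
  have k5 := hc2 true false
  have k6 := hc2 false true
  have k7 := hc2 true true
  rw [lp_bnd0] at k0
  rw [lp_bnd1] at k1
  rw [lp_bnd2] at k2
  rw [lp_bnd3] at k3
  rw [lp_bnd4] at k4
  rw [lp_bnd5] at k5
  rw [lp_bnd6] at k6
  rw [lp_bnd7] at k7
  rw [lp_sum] at h1 h2
  rw [lp58_row, lp58_row, abs_le] at h3
  rw [lp58_col, lp58_col, abs_le] at h4
  obtain ⟨h3a, h3b⟩ := h3
  obtain ⟨h4a, h4b⟩ := h4
  refine lp58_core (lpB00 eg) (lpB01 eg) (lpB02 eg) (lpB10 eg) (lpB11 eg) (lpB12 eg) (lpB20 eg)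
    (lpB21 eg) (lpB22 eg) (lpB00 eh) (lpB01 eh) (lpB02 eh) (lpB10 eh) (lpB11 eh) (lpB12 eh)
    (lpB20 eh) (lpB21 eh) (lpB22 eh) (min (lpC1 eg) (lpC1 eh)) (min (lpC2 eg) (lpC2 eh))
    (min (lpR1 eg) (lpR1 eh)) (min (lpR2 eg) (lpR2 eh)) M
    ?_ ?_ ?_ ?_ ?_ ?_ ?_ ?_ ?_ ?_ ?_ ?_ ?_ ?_ ?_ ?_ ?_ ?_ h1 h2
    (min_le_left _ _) (min_le_right _ _) (min_le_left _ _) (min_le_right _ _)
    (min_le_left _ _) (min_le_right _ _) (min_le_left _ _) (min_le_right _ _)
    (by linarith) (by linarith) (by linarith) (by linarith)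
    k0 k1 k2 k3 k4 k5 k6 k7 <;>
  first
  | (unfold lpB00; positivity)
  | (unfold lpB01; positivity)
  | (unfold lpB02; positivity)
  | (unfold lpB10; positivity)
  | (unfold lpB11; positivity)
  | (unfold lpB12; positivity)
  | (unfold lpB20; positivity)
  | (unfold lpB21; positivity)
  | (unfold lpB22; positivity)

end H38.HF
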