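import Mathlib

/-!
Common refinement of two factorisations into five factors.
-/

set_option autoImplicit false

open Finset

namespace H38.HF

private theorem Ref_dvd (m : ℕ) : ∀ (a : ℕ) (b : Fin m → ℕ), a ∣ ∏ j, b j →
    ∃ d : Fin m → ℕ, (∀ j, d j ∣ b j) ∧ a = ∏ j, d j := by
  induction m with
  | zero =>
    intro a b h
    refine ⟨fun _ => 1, fun j => j.elim0, ?_⟩
    simpa using h
  | succ m ih =>
    intro a b h
    rw [Fin.prod_univ_succ] at h
    obtain ⟨d1, d2, h1, h2, h3⟩ := exists_dvd_and_dvd_of_dvd_mul h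
    obtain ⟨d, hd, hd'⟩ := ih d2 (fun j => b j.succ) h2
    refine ⟨Fin.cons d1 d, ?_, ?_⟩
    · intro j
      refine Fin.cases ?_ ?_ j
      · simpa using h1
      · intro i
        simpa using hd i
    · rw [Fin.prod_univ_succ]
      simp only [Fin.cons_zero, Fin.cons_succ]
      rw [h3, hd']

private theorem Ref_gen (n m : ℕ) : ∀ (a : Fin n → ℕ) (b : Fin m → ℕ), (∀ i, 0 < a i) →
    (∀ j, 0 < b j) → ∏ i, a i = ∏ j, b j →
    ∃ g : Fin n → Fin m → ℕ, (∀ i, a i = ∏ j, g i j) ∧ ∀ j, b j = ∏ i, g i j := by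
  induction n with
  | zero =>
    intro a b _ _ h
    refine ⟨fun i => i.elim0, fun i => i.elim0, fun j => ?_⟩
    have h' : ∏ j, b j = 1 := by simpa using h.symm
    have := (Finset.prod_eq_one_iff).1 h' j (Finset.mem_univ j)
    simpa using this
  | succ n ih =>
    intro a b ha hb h
    have hdv : a 0 ∣ ∏ j, b j := by
      rw [← h, Fin.prod_univ_succ]
      exact Dvd.intro _ rfl
    obtain ⟨d, hd, hd'⟩ := Ref_dvd m (a 0) b hdv
    choose c hc using hd
    have hcp : ∀ j, 0 < c j := fun j => Nat.pos_of_ne_zero fun h0 => by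
      have := hb j
      rw [hc j, h0] at this
      simp at this
    have h2 : ∏ i : Fin n, a i.succ = ∏ j, c j := by
      have h3 : a 0 * ∏ i : Fin n, a i.succ = a 0 * ∏ j, c j := by
        rw [← Fin.prod_univ_succ, h]
        conv_rhs => rw [hd', ← Finset.prod_mul_distrib]
        exact Finset.prod_congr rfl fun j _ => hc j
      exact Nat.eq_of_mul_eq_mul_left (ha 0) h3
    obtain ⟨g, hg1, hg2⟩ := ih (fun i => a i.succ) c (fun i => ha _) hcp h2
    refine ⟨Fin.cons d g, ?_, ?_⟩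
    · intro i
      refine Fin.cases ?_ ?_ i
      · simpa using hd'
      · intro i
        simpa using hg1 i
    · intro j
      rw [Fin.prod_univ_succ]
      simp only [Fin.cons_zero, Fin.cons_succ]
      rw [hc j, ← hg2 j]

theorem refine5 (a b : Fin 5 → ℕ) (ha : ∀ i, 0 < a i) (hb : ∀ j, 0 < b j)
    (h : ∏ i, a i = ∏ j, b j) : ∃ g : Fin 5 → Fin 5 → ℕ,
    (∀ i, a i = ∏ j, g i j) ∧ ∀ j, b j = ∏ i, g i j :=
  Ref_gen 5 5 a b ha hb h

end H38.HF
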