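import Pool.Agent.H38.HF.Defs

/-!
Symmetries of the configurations.
-/

set_option autoImplicit false

open Finset

namespace H38.HF

/-- `pm` as a permutation -/
private def syma_e : Equiv.Perm (Fin 5) := ⟨pm, pm, by decide, by decide⟩

private def syma_s (a : Bool) : Equiv.Perm (Fin 5) := if a then syma_e else Equiv.refl _

private theorem syma_s_apply (a : Bool) (i : Fin 5) : syma_s a i = if a then pm i else i := by
  cases a <;> rfl

private theorem syma_s_s (a : Bool) (i : Fin 5) : syma_s a (syma_s a i) = i := by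
  cases a
  · rfl
  · revert i
    decide

private def syma_P (a : Bool) (x : Fin 5 → ℕ) : Fin 5 → ℕ := fun i => x (syma_s a i)

private theorem syma_PP (a : Bool) (x : Fin 5 → ℕ) : syma_P a (syma_P a x) = x := by
  funext i
  unfold syma_P
  rw [syma_s_s]

private theorem syma_P_false (x : Fin 5 → ℕ) : syma_P false x = x := rfl

private theorem syma_P_true (x : Fin 5 → ℕ) : syma_P true x = ![x 0, x 3, x 4, x 1, x 2] := by
  funext i
  fin_cases i <;> rfl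

private theorem syma_fa (a : Bool) (x : Fin 5 → ℕ) (i : Fin 5) : fa (syma_P a x) i = fa x (syma_s a i) := by
  cases a
  · rfl
  · fin_cases i <;> rfl

private theorem syma_fc (a : Bool) (x : Fin 5 → ℕ) (i : Fin 5) : fc (syma_P a x) i = fc x (syma_s a i) := by
  cases a
  · rfl
  · rw [syma_P_true]
    have h1 : ∀ u v : ℤ, (u - v).natAbs = (v - u).natAbs := fun u v => by
      rw [← Int.natAbs_neg, neg_sub]
    fin_cases i
    · rfl
    · exact h1 (x 4 : ℤ) (x 3 : ℤ)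
    · rfl
    · exact h1 (x 1 : ℤ) (x 2 : ℤ)
    · rfl

private theorem syma_cc (a : Bool) (x : Fin 5 → ℕ) : cc (syma_P a x) = cc x := by
  cases a
  · rfl
  · rw [syma_P_true]
    show (x 0 : ℤ) ^ 2 * ((x 4 : ℤ) ^ 2 - (x 3 : ℤ) ^ 2) * ((x 1 : ℤ) ^ 2 - (x 2 : ℤ) ^ 2) =
      (x 0 : ℤ) ^ 2 * ((x 2 : ℤ) ^ 2 - (x 1 : ℤ) ^ 2) * ((x 3 : ℤ) ^ 2 - (x 4 : ℤ) ^ 2)
    ring

private theorem syma_tt (a : Bool) (x : Fin 5 → ℕ) : tt (syma_P a x) = tt x := by
  cases a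
  · rfl
  · rw [syma_P_true]
    show (x 0 : ℤ) ^ 2 * ((x 3 : ℤ) ^ 2 * (x 1 : ℤ) ^ 2 + (x 4 : ℤ) ^ 2 * (x 2 : ℤ) ^ 2) =
      (x 0 : ℤ) ^ 2 * ((x 1 : ℤ) ^ 2 * (x 3 : ℤ) ^ 2 + (x 2 : ℤ) ^ 2 * (x 4 : ℤ) ^ 2)
    ring

private theorem syma_Fc (a : Bool) (x : Fin 5 → ℕ) (h : Fc x) : Fc (syma_P a x) := by
  cases a
  · exact h
  · exact ⟨fun i => h.1 _, h.2.2, h.2.1⟩

private theorem syma_prod (a : Bool) (x : Fin 5 → ℕ) : ∏ i, fa (syma_P a x) i = ∏ i, fa x i := by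
  simp only [syma_fa]
  exact Equiv.prod_comp (syma_s a) (fa x)

private theorem syma_Cfg {N : ℕ} {x y : Fin 5 → ℕ} (h : Cfg N x y) (a b : Bool) :
    Cfg N (syma_P a x) (syma_P b y) := by
  obtain ⟨h1, h2, h3, h4, h5, h6, h7, h8⟩ := h
  refine ⟨syma_Fc a x h1, syma_Fc b y h2, ?_, ?_, ?_, ?_, ?_, ?_⟩
  · rw [syma_prod, syma_prod]
    exact h3
  · rw [syma_prod]
    exact h4
  · rw [syma_cc, syma_cc]
    exact h5
  · rw [syma_cc]
    exact h6
  · rw [syma_cc]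
    exact h7
  · rw [syma_tt, syma_tt]
    exact h8

private theorem syma_Mat {x y : Fin 5 → ℕ} {g h : Fin 5 → Fin 5 → ℕ} (H : Mat x y g h) (a b : Bool) :
    Mat (syma_P a x) (syma_P b y) (fun i j => g (syma_s a i) (syma_s b j))
      (fun i j => h (syma_s a i) (syma_s b j)) := by
  obtain ⟨h1, h2, h3, h4⟩ := H
  refine ⟨fun i => ?_, fun j => ?_, fun i => ?_, fun j => ?_⟩
  · rw [syma_fa, h1]
    exact (Equiv.prod_comp (syma_s b) (fun j => g (syma_s a i) j)).symm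
  · rw [syma_fa, h2]
    exact (Equiv.prod_comp (syma_s a) (fun i => g i (syma_s b j))).symm
  · rw [syma_fc, h3]
    exact (Equiv.prod_comp (syma_s b) (fun j => h (syma_s a i) j)).symm
  · rw [syma_fc, h4]
    exact (Equiv.prod_comp (syma_s a) (fun i => h i (syma_s b j))).symm

/-- `x ↦ x ∘ pm` (if `a`), `y ↦ y ∘ pm` (if `b`): keeps `Fc`, `cc`, `tt`, permutes `fa x`, `fc x` by
`pm` (an involution); `F' = F.image`, `G' q' = G q` with rows / columns permuted. -/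
theorem ok_perm (N : ℕ) (eg eh : Fin 5 → Fin 5 → ℕ) (F : Finset Cf)
    (G H : Cf → Fin 5 → Fin 5 → ℕ) (h : Ok N eg eh F G H) (a b : Bool) :
    ∃ (F' : Finset Cf) (G' H' : Cf → Fin 5 → Fin 5 → ℕ), F'.card = F.card ∧
      Ok N (fun i j => eg (if a then pm i else i) (if b then pm j else j))
        (fun i j => eh (if a then pm i else i) (if b then pm j else j)) F' G' H' := by
  classical
  obtain ⟨φ, hφ⟩ : ∃ φ : Cf → Cf, φ = fun q => (syma_P a q.1, syma_P b q.2) := ⟨_, rfl⟩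
  have hφφ : ∀ q, φ (φ q) = q := by
    intro q
    rw [hφ]
    show (syma_P a (syma_P a q.1), syma_P b (syma_P b q.2)) = q
    rw [syma_PP, syma_PP]
  have hinj : Function.Injective φ := fun q q' hq => by
    rw [← hφφ q, ← hφφ q', hq]
  refine ⟨F.image φ, fun q i j => G (φ q) (syma_s a i) (syma_s b j),
    fun q i j => H (φ q) (syma_s a i) (syma_s b j), card_image_of_injective F hinj, ?_⟩
  intro q' hq'
  obtain ⟨q, hq, rfl⟩ := mem_image.1 hq'
  obtain ⟨h1, h2, h3, h4⟩ := h q hq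
  beta_reduce
  rw [hφφ]
  have e1 : (φ q).1 = syma_P a q.1 := by rw [hφ]
  have e2 : (φ q).2 = syma_P b q.2 := by rw [hφ]
  refine ⟨?_, ?_, ?_, ?_⟩
  · rw [e1, e2]
    exact syma_Cfg h1 a b
  · rw [e1, e2]
    exact syma_Mat h2 a b
  · intro i j
    have h5 := h3 (syma_s a i) (syma_s b j)
    simp only [← syma_s_apply]
    exact h5
  · intro i j
    have h5 := h4 (syma_s a i) (syma_s b j)
    simp only [← syma_s_apply]
    exact h5

/-- exchange of `x` and `y` -/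
theorem ok_tr (N : ℕ) (eg eh : Fin 5 → Fin 5 → ℕ) (F : Finset Cf)
    (G H : Cf → Fin 5 → Fin 5 → ℕ) (h : Ok N eg eh F G H) :
    ∃ (F' : Finset Cf) (G' H' : Cf → Fin 5 → Fin 5 → ℕ), F'.card = F.card ∧
      Ok N (fun i j => eg j i) (fun i j => eh j i) F' G' H' := by
  classical
  refine ⟨F.image Prod.swap, fun q i j => G q.swap j i, fun q i j => H q.swap j i,
    card_image_of_injective F Prod.swap_injective, ?_⟩
  intro q' hq'
  obtain ⟨q, hq, rfl⟩ := mem_image.1 hq'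
  obtain ⟨h1, h2, h3, h4⟩ := h q hq
  beta_reduce
  rw [Prod.swap_swap]
  obtain ⟨x, y⟩ := q
  refine ⟨?_, ?_, fun i j => h3 j i, fun i j => h4 j i⟩
  · obtain ⟨k1, k2, k3, k4, k5, k6, k7, k8⟩ := h1
    exact ⟨k2, k1, k3.symm, k3 ▸ k4, k5.symm, k5 ▸ k6, k5 ▸ k7, k8.symm⟩
  · obtain ⟨k1, k2, k3, k4⟩ := h2
    exact ⟨k2, k1, k4, k3⟩

end H38.HF
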