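import Pool.Agent.H38.HF.Kb
import Pool.Agent.H38.HF.Sym
import Pool.Agent.H38.HF.Conf

/-!
The exponent `19/30`.
-/

set_option autoImplicit false

namespace H38.HF

open H38.HC H38.HD

theorem main (d : ℕ) (hd : 3 ≤ d) (ε : ℝ) (hε : 0 < ε) : ∃ C : ℝ, ∀ N : ℕ, 1 ≤ N →
      (Cubes d N).Finite ∧ ((Cubes d N).ncard : ℝ) ≤ C * (N : ℝ) ^ (19 / 30 + ε) :=
  from_cfg_gen (19 / 30) (cfg_of_kb kb) d hd ε hε

end H38.HF
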