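import Pool.Agent.H38.HF.Defs
import Pool.Agent.H38.HF.Ref
import Pool.Agent.H38.HF.SymA

/-!
Symmetries and the sum over the dyadic classes.
-/

set_option autoImplicit false

open Finset

namespace H38.HF

private theorem symB_fa_pos {x : Fin 5 → ℕ} (h : Fc x) (i : Fin 5) : 0 < fa x i := by
  have h0 := h.1
  fin_cases i
  · exact pow_pos (h0 0) 2
  · exact h0 1
  · exact h0 2
  · exact h0 3
  · exact h0 4

private theorem symB_fc_prod (x : Fin 5 → ℕ) : ((∏ i, fc x i : ℕ) : ℤ) = |cc x| := by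
  have e : cc x = (x 0 : ℤ) ^ 2 * (((x 2 : ℤ) - x 1) * ((x 1 : ℤ) + x 2)) *
      (((x 3 : ℤ) - x 4) * ((x 3 : ℤ) + x 4)) := by
    unfold cc; ring
  rw [e, abs_mul, abs_mul, abs_mul, abs_mul,
    abs_of_nonneg (by positivity : (0 : ℤ) ≤ (x 0 : ℤ) ^ 2),
    abs_of_nonneg (by positivity : (0 : ℤ) ≤ (x 1 : ℤ) + x 2),
    abs_of_nonneg (by positivity : (0 : ℤ) ≤ (x 3 : ℤ) + x 4), Fin.prod_univ_five]
  simp only [fc, Matrix.cons_val_zero, Matrix.cons_val_one, Matrix.cons_val]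
  push_cast
  ring

private theorem symB_fc_pos {x : Fin 5 → ℕ} (h : cc x ≠ 0) (i : Fin 5) : 0 < fc x i := by
  rw [pos_iff_ne_zero]
  intro h0
  apply h
  have h1 : ∏ i, fc x i = 0 := Finset.prod_eq_zero (mem_univ i) h0
  have h2 := symB_fc_prod x
  rw [h1] at h2
  exact abs_eq_zero.mp h2.symm

private theorem symB_ref {N : ℕ} {x y : Fin 5 → ℕ} (h : Cfg N x y) : ∃ g k, Mat x y g k := by
  obtain ⟨hx, hy, h1, h2, h3, h4, h5, h6⟩ := h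
  have h7 : ∏ i, fc x i = ∏ i, fc y i := by
    have h8 : ((∏ i, fc x i : ℕ) : ℤ) = ((∏ i, fc y i : ℕ) : ℤ) := by
      rw [symB_fc_prod x, symB_fc_prod y, h3]
    exact_mod_cast h8
  obtain ⟨g, hg1, hg2⟩ := refine5 _ _ (symB_fa_pos hx) (symB_fa_pos hy) h1
  obtain ⟨k, hk1, hk2⟩ := refine5 _ _ (symB_fc_pos h4) (symB_fc_pos (h3 ▸ h4)) h7
  exact ⟨g, k, hg1, hg2, hk1, hk2⟩

private theorem symB_log {g : Fin 5 → Fin 5 → ℕ} {a : Fin 5 → ℕ} {M : ℕ}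
    (h : ∀ i, a i = ∏ j, g i j) (ha : ∀ i, 0 < a i) (hM : ∏ i, a i ≤ M) :
    Bx (fun i j => Nat.log 2 (g i j)) g ∧ 2 ^ (∑ i, ∑ j, Nat.log 2 (g i j)) ≤ M := by
  have hpos : ∀ i j, g i j ≠ 0 := by
    intro i j h0
    have h1 := ha i
    rw [h i, Finset.prod_eq_zero (mem_univ j) h0] at h1
    exact lt_irrefl _ h1
  refine ⟨fun i j => ⟨Nat.pow_log_le_self 2 (hpos i j),
    Nat.lt_pow_succ_log_self (by norm_num) _⟩, ?_⟩
  calc 2 ^ (∑ i, ∑ j, Nat.log 2 (g i j)) = ∏ i, ∏ j, 2 ^ (Nat.log 2 (g i j)) := by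
        rw [← Finset.prod_pow_eq_pow_sum]
        exact Finset.prod_congr rfl fun i _ => (Finset.prod_pow_eq_pow_sum _ _ _).symm
    _ ≤ ∏ i, ∏ j, g i j := Finset.prod_le_prod' fun i _ =>
        Finset.prod_le_prod' fun j _ => Nat.pow_log_le_self 2 (hpos i j)
    _ = ∏ i, a i := Finset.prod_congr rfl fun i _ => (h i).symm
    _ ≤ M := hM

/-- the statement of lp58 -/
def LpStat : Prop := ∀ (eg eh : Fin 5 → Fin 5 → ℕ) (M : ℝ), ∑ i, ∑ j, (eg i j : ℝ) ≤ M →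
    ∑ i, ∑ j, (eh i j : ℝ) ≤ M → |∑ j, (eg 0 j : ℝ) - ∑ j, (eh 0 j : ℝ)| ≤ 5 →
    |∑ i, (eg i 0 : ℝ) - ∑ i, (eh i 0 : ℝ)| ≤ 5 →
    (∃ a b : Bool, bnd (fun i j => eg (if a then pm i else i) (if b then pm j else j))
      (fun i j => eh (if a then pm i else i) (if b then pm j else j)) ≤ 5 / 8 * M + 40) ∨
    (∃ a b : Bool, bnd (fun i j => eg (if b then pm j else j) (if a then pm i else i))
      (fun i j => eh (if b then pm j else j) (if a then pm i else i)) ≤ 5 / 8 * M + 40)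

private theorem symB_box {e g : Fin 5 → ℕ} (h : ∀ j, 2 ^ e j ≤ g j ∧ g j < 2 ^ (e j + 1)) :
    2 ^ (∑ j, e j) ≤ ∏ j, g j ∧ ∏ j, g j < 2 ^ (∑ j, e j + 5) := by
  constructor
  · rw [← Finset.prod_pow_eq_pow_sum]
    exact Finset.prod_le_prod' fun j _ => (h j).1
  · have h1 : ∏ j, g j < ∏ j, 2 ^ (e j + 1) := by
      apply Finset.prod_lt_prod_of_nonempty
      · intro j _
        exact lt_of_lt_of_le (by positivity) (h j).1
      · intro j _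
        exact (h j).2
      · exact Finset.univ_nonempty
    refine lt_of_lt_of_eq h1 ?_
    rw [Finset.prod_pow_eq_pow_sum, Finset.sum_add_distrib]
    simp

private theorem symB_near {e g e' g' : Fin 5 → ℕ} (h : ∀ j, 2 ^ e j ≤ g j ∧ g j < 2 ^ (e j + 1))
    (h' : ∀ j, 2 ^ e' j ≤ g' j ∧ g' j < 2 ^ (e' j + 1)) (hp : ∏ j, g j = ∏ j, g' j) :
    |∑ j, (e j : ℝ) - ∑ j, (e' j : ℝ)| ≤ 5 := by
  obtain ⟨a, b⟩ := symB_box h
  obtain ⟨a', b'⟩ := symB_box h'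
  rw [hp] at a b
  have c1 := (Nat.pow_lt_pow_iff_right (by norm_num : 1 < 2)).1 (lt_of_le_of_lt a b')
  have c2 := (Nat.pow_lt_pow_iff_right (by norm_num : 1 < 2)).1 (lt_of_le_of_lt a' b)
  have d1 : (∑ j, (e j : ℝ)) ≤ ∑ j, (e' j : ℝ) + 5 := by exact_mod_cast c1.le
  have d2 : (∑ j, (e' j : ℝ)) ≤ ∑ j, (e j : ℝ) + 5 := by exact_mod_cast c2.le
  rw [abs_le]
  constructor <;> linarith

private theorem symB_class (hlp : LpStat) {N : ℕ} (hN : 1 ≤ N) {K e : ℝ} (hK : 0 < K)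
    (hkb : ∀ (eg eh : Fin 5 → Fin 5 → ℕ) (F : Finset Cf) (G H : Cf → Fin 5 → Fin 5 → ℕ),
      Ok N eg eh F G H → (F.card : ℝ) ≤ K * (N : ℝ) ^ e * (2 : ℝ) ^ (bnd eg eh))
    (eg eh : Fin 5 → Fin 5 → ℕ) (F : Finset Cf) (G H : Cf → Fin 5 → Fin 5 → ℕ)
    (h : Ok N eg eh F G H) (h1 : 2 ^ (∑ i, ∑ j, eg i j) ≤ 4 * N)
    (h2 : 2 ^ (∑ i, ∑ j, eh i j) ≤ 4 * N) :
    (F.card : ℝ) ≤ K * (N : ℝ) ^ e * (2 ^ 40 * (4 * (N : ℝ)) ^ (5 / 8 : ℝ)) := by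
  have hNr : (1 : ℝ) ≤ N := by exact_mod_cast hN
  have hN' : (0 : ℝ) < 4 * N := by positivity
  obtain ⟨M, hMdef⟩ : ∃ M : ℝ, M = Real.logb 2 (4 * N) := ⟨_, rfl⟩
  have key : ∀ u : Fin 5 → Fin 5 → ℕ, 2 ^ (∑ i, ∑ j, u i j) ≤ 4 * N →
      ∑ i, ∑ j, (u i j : ℝ) ≤ M := by
    intro u hu
    rw [hMdef, Real.le_logb_iff_rpow_le (by norm_num) hN']
    have h3 : (∑ i, ∑ j, (u i j : ℝ)) = ((∑ i, ∑ j, u i j : ℕ) : ℝ) := by push_cast; rfl
    rw [h3, Real.rpow_natCast]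
    exact_mod_cast hu
  have fin : ∀ t : ℝ, t ≤ 5 / 8 * M + 40 → (2 : ℝ) ^ t ≤ 2 ^ 40 * (4 * (N : ℝ)) ^ (5 / 8 : ℝ) := by
    intro t ht
    calc (2 : ℝ) ^ t ≤ (2 : ℝ) ^ (5 / 8 * M + 40) :=
          Real.rpow_le_rpow_of_exponent_le (by norm_num) ht
      _ = 2 ^ 40 * ((2 : ℝ) ^ M) ^ (5 / 8 : ℝ) := by
          rw [Real.rpow_add (by norm_num), ← Real.rpow_mul (by norm_num), mul_comm M,
            mul_comm ((2 : ℝ) ^ (5 / 8 * M))]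
          congr 1
          norm_num
      _ = 2 ^ 40 * (4 * (N : ℝ)) ^ (5 / 8 : ℝ) := by
          rw [hMdef, Real.rpow_logb (by norm_num) (by norm_num) hN']
  have c0 : 0 ≤ K * (N : ℝ) ^ e := by positivity
  rcases F.eq_empty_or_nonempty with hE | ⟨q0, hq0⟩
  · rw [hE, Finset.card_empty]
    push_cast
    positivity
  obtain ⟨-, ⟨m1, m2, m3, m4⟩, bG, bH⟩ := h q0 hq0
  have g3 : |∑ j, (eg 0 j : ℝ) - ∑ j, (eh 0 j : ℝ)| ≤ 5 :=
    symB_near (fun j => bG 0 j) (fun j => bH 0 j) (by rw [← m1 0, ← m3 0]; rfl)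
  have g4 : |∑ i, (eg i 0 : ℝ) - ∑ i, (eh i 0 : ℝ)| ≤ 5 :=
    symB_near (fun i => bG i 0) (fun i => bH i 0) (by rw [← m2 0, ← m4 0]; rfl)
  rcases hlp eg eh M (key eg h1) (key eh h2) g3 g4 with ⟨a, b, hb⟩ | ⟨a, b, hb⟩
  · obtain ⟨F', G', H', hc, hOk⟩ := ok_perm N eg eh F G H h a b
    rw [← hc]
    exact (hkb _ _ F' G' H' hOk).trans (mul_le_mul_of_nonneg_left (fin _ hb) c0)
  · obtain ⟨F1, G1, H1, hc1, hOk1⟩ := ok_tr N eg eh F G H h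
    obtain ⟨F', G', H', hc, hOk⟩ := ok_perm N _ _ F1 G1 H1 hOk1 a b
    rw [← hc1, ← hc]
    exact (hkb _ _ F' G' H' hOk).trans (mul_le_mul_of_nonneg_left (fin _ hb) c0)

private theorem symB_growth (ε : ℝ) (hε : 0 < ε) : ∃ C : ℝ, 0 < C ∧ ∀ N : ℕ, 1 ≤ N →
    ((Nat.log 2 (4 * N) + 1 : ℕ) : ℝ) ^ 50 ≤ C * (N : ℝ) ^ ε := by
  have hl2 : 0 < Real.log 2 := Real.log_pos (by norm_num)
  have hd : 0 < ε / 50 := by positivity
  refine ⟨((8 : ℝ) ^ (ε / 50) / (ε / 50) / Real.log 2) ^ 50, by positivity, ?_⟩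
  intro N hN
  have hNr : (1 : ℝ) ≤ N := by exact_mod_cast hN
  have h1 : ((Nat.log 2 (4 * N) + 1 : ℕ) : ℝ) ≤
      ((8 : ℝ) ^ (ε / 50) / (ε / 50) / Real.log 2) * (N : ℝ) ^ (ε / 50) := by
    have h2 : (2 : ℝ) ^ (Nat.log 2 (4 * N) + 1) ≤ 8 * N := by
      have h3 : 2 ^ Nat.log 2 (4 * N) ≤ 4 * N := Nat.pow_log_le_self 2 (by omega)
      have h4 : ((2 ^ Nat.log 2 (4 * N) : ℕ) : ℝ) ≤ ((4 * N : ℕ) : ℝ) := by exact_mod_cast h3
      push_cast at h4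
      rw [pow_succ]
      linarith
    have h5 : ((Nat.log 2 (4 * N) + 1 : ℕ) : ℝ) * Real.log 2 ≤ Real.log (8 * N) := by
      rw [← Real.log_pow]
      exact Real.log_le_log (by positivity) h2
    have h6 : Real.log (8 * N) ≤ (8 * N : ℝ) ^ (ε / 50) / (ε / 50) :=
      Real.log_le_rpow_div (by positivity) hd
    rw [Real.mul_rpow (by norm_num) (by positivity)] at h6
    have h7 : ((Nat.log 2 (4 * N) + 1 : ℕ) : ℝ) ≤
        ((8 : ℝ) ^ (ε / 50) * (N : ℝ) ^ (ε / 50) / (ε / 50)) / Real.log 2 := by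
      rw [le_div_iff₀ hl2]
      exact h5.trans h6
    refine h7.trans (le_of_eq ?_)
    ring
  calc ((Nat.log 2 (4 * N) + 1 : ℕ) : ℝ) ^ 50
      ≤ (((8 : ℝ) ^ (ε / 50) / (ε / 50) / Real.log 2) * (N : ℝ) ^ (ε / 50)) ^ 50 :=
        pow_le_pow_left₀ (by positivity) h1 50
    _ = ((8 : ℝ) ^ (ε / 50) / (ε / 50) / Real.log 2) ^ 50 * (N : ℝ) ^ ε := by
        rw [mul_pow]
        congr 1
        rw [← Real.rpow_natCast, ← Real.rpow_mul (by positivity)]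
        congr 1
        push_cast
        ring

/-- From the bound for one dyadic class (`hkb`): the bound for all configurations. For every `q ∈ F`
choose `G q`, `H q` (refine5 for `fa`, and for `fc`: `∏ fc x = |cc x|`), classes by
`eg = log2 (G q i j)`, `eh = log2 (H q i j)` (all entries are positive and at most `4 N`:
at most `(log2 (4 N) + 1)^50` classes). In a class: `lp` with `M = log2 (4 N)`; the symmetries:
`x ↦ x ∘ pm` permutes `fa x`, `fc x`, keeps `Fc`, `cc`, `tt`; rows of `g`, `h` permuted by `pm`; the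
same for `y` and the columns; exchange of `x` and `y`: transposed matrices. So `F.card` is at most
`K N^ε 2^(5/8 log2(4N))` in every class. -/
theorem cfg_of_kb58 (hlp : LpStat) (hkb : ∀ ε : ℝ, 0 < ε → ∃ K : ℝ, 0 < K ∧ ∀ N : ℕ, 1 ≤ N →
      ∀ (eg eh : Fin 5 → Fin 5 → ℕ) (F : Finset Cf) (G H : Cf → Fin 5 → Fin 5 → ℕ),
      Ok N eg eh F G H → (F.card : ℝ) ≤ K * (N : ℝ) ^ ε * (2 : ℝ) ^ (bnd eg eh))
    (ε : ℝ) (hε : 0 < ε) : ∃ K : ℝ, 0 < K ∧ ∀ N : ℕ, 1 ≤ N →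
      ∀ F : Finset Cf, (∀ q ∈ F, Cfg N q.1 q.2) → (F.card : ℝ) ≤ K * (N : ℝ) ^ (5 / 8 + ε) := by
  classical
  obtain ⟨K, hK, hkb'⟩ := hkb (ε / 2) (by positivity)
  obtain ⟨C, hC, hgr⟩ := symB_growth (ε / 2) (by positivity)
  refine ⟨K * (2 ^ 40 * (4 : ℝ) ^ (5 / 8 : ℝ)) * C, by positivity, ?_⟩
  intro N hN F hF
  have hNr : (1 : ℝ) ≤ N := by exact_mod_cast hN
  have hN0 : (0 : ℝ) < N := by linarith
  have hex : ∀ q : Cf, ∃ g k : Fin 5 → Fin 5 → ℕ, q ∈ F → Mat q.1 q.2 g k := by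
    intro q
    by_cases hq : q ∈ F
    · obtain ⟨g, k, h⟩ := symB_ref (hF q hq)
      exact ⟨g, k, fun _ => h⟩
    · exact ⟨fun _ _ => 1, fun _ _ => 1, fun h => absurd h hq⟩
  choose G H hGH using hex
  have hg : ∀ q ∈ F, Bx (fun i j => Nat.log 2 (G q i j)) (G q) ∧
      2 ^ (∑ i, ∑ j, Nat.log 2 (G q i j)) ≤ 4 * N := by
    intro q hq
    obtain ⟨hx, hy, h1, h2, h3, h4, h5, h6⟩ := hF q hq
    exact symB_log (hGH q hq).1 (symB_fa_pos hx) (by omega)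
  have hh : ∀ q ∈ F, Bx (fun i j => Nat.log 2 (H q i j)) (H q) ∧
      2 ^ (∑ i, ∑ j, Nat.log 2 (H q i j)) ≤ 4 * N := by
    intro q hq
    obtain ⟨hx, hy, h1, h2, h3, h4, h5, h6⟩ := hF q hq
    refine symB_log (hGH q hq).2.2.1 (symB_fc_pos h4) ?_
    have h7 := symB_fc_prod q.1
    rw [← h7] at h5
    exact_mod_cast h5
  obtain ⟨κ, hκ⟩ : ∃ κ : Cf → (Fin 5 → Fin 5 → ℕ) × (Fin 5 → Fin 5 → ℕ),
      ∀ q, κ q = (fun i j => Nat.log 2 (G q i j), fun i j => Nat.log 2 (H q i j)) :=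
    ⟨fun q => (fun i j => Nat.log 2 (G q i j), fun i j => Nat.log 2 (H q i j)), fun _ => rfl⟩
  have hB0 : 0 ≤ K * (N : ℝ) ^ (ε / 2) * (2 ^ 40 * (4 * (N : ℝ)) ^ (5 / 8 : ℝ)) := by positivity
  have hcl : ∀ c ∈ F.image κ, (F.filter fun q => κ q = c).card ≤
      ⌊K * (N : ℝ) ^ (ε / 2) * (2 ^ 40 * (4 * (N : ℝ)) ^ (5 / 8 : ℝ))⌋₊ := by
    intro c hc
    obtain ⟨q0, hq0, rfl⟩ := Finset.mem_image.1 hc
    apply Nat.le_floor
    have hOk : Ok N (κ q0).1 (κ q0).2 (F.filter fun q => κ q = κ q0) G H := by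
      intro q hq
      obtain ⟨hq1, hq2⟩ := Finset.mem_filter.1 hq
      rw [← hq2, hκ q]
      exact ⟨hF q hq1, hGH q hq1, (hg q hq1).1, (hh q hq1).1⟩
    refine symB_class hlp hN hK (hkb' N hN) _ _ _ G H hOk ?_ ?_
    · rw [hκ q0]; exact (hg q0 hq0).2
    · rw [hκ q0]; exact (hh q0 hq0).2
  have hle : ∀ (q : Cf) (u : Fin 5 → Fin 5 → ℕ), 2 ^ (∑ i, ∑ j, u i j) ≤ 4 * N →
      u ∈ Fintype.piFinset (fun _ : Fin 5 => Fintype.piFinset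
        (fun _ : Fin 5 => Finset.range (Nat.log 2 (4 * N) + 1))) := by
    intro q u hu
    rw [Fintype.mem_piFinset]
    intro i
    rw [Fintype.mem_piFinset]
    intro j
    rw [Finset.mem_range, Nat.lt_succ_iff]
    have h1 : u i j ≤ ∑ i, ∑ j, u i j :=
      (Finset.single_le_sum (f := fun j => u i j) (fun _ _ => Nat.zero_le _) (mem_univ j)).trans
        (Finset.single_le_sum (f := fun i => ∑ j, u i j) (fun _ _ => Nat.zero_le _) (mem_univ i))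
    exact h1.trans (Nat.le_log_of_pow_le (by norm_num) hu)
  have hi : (F.image κ).card ≤ (Nat.log 2 (4 * N) + 1) ^ 50 := by
    have hsub : F.image κ ⊆ (Fintype.piFinset (fun _ : Fin 5 => Fintype.piFinset
        (fun _ : Fin 5 => Finset.range (Nat.log 2 (4 * N) + 1)))) ×ˢ
        (Fintype.piFinset (fun _ : Fin 5 => Fintype.piFinset
        (fun _ : Fin 5 => Finset.range (Nat.log 2 (4 * N) + 1)))) := by
      intro c hc
      obtain ⟨q, hq, rfl⟩ := Finset.mem_image.1 hc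
      rw [hκ q, Finset.mem_product]
      exact ⟨hle q _ (hg q hq).2, hle q _ (hh q hq).2⟩
    refine (Finset.card_le_card hsub).trans (le_of_eq ?_)
    rw [Finset.card_product, Fintype.card_piFinset_const, Fintype.card_piFinset_const,
      Finset.card_range]
    ring
  have h1 := Finset.card_le_mul_card_image F _ hcl
  have h2 : (F.card : ℝ) ≤ (⌊K * (N : ℝ) ^ (ε / 2) * (2 ^ 40 * (4 * (N : ℝ)) ^ (5 / 8 : ℝ))⌋₊ : ℝ) *
      ((F.image κ).card : ℝ) := by exact_mod_cast h1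
  have h3 : ((F.image κ).card : ℝ) ≤ C * (N : ℝ) ^ (ε / 2) := by
    refine le_trans ?_ (hgr N hN)
    exact_mod_cast hi
  calc (F.card : ℝ) ≤ (⌊K * (N : ℝ) ^ (ε / 2) * (2 ^ 40 * (4 * (N : ℝ)) ^ (5 / 8 : ℝ))⌋₊ : ℝ) *
        ((F.image κ).card : ℝ) := h2
    _ ≤ (K * (N : ℝ) ^ (ε / 2) * (2 ^ 40 * (4 * (N : ℝ)) ^ (5 / 8 : ℝ))) * (C * (N : ℝ) ^ (ε / 2)) :=
        mul_le_mul (Nat.floor_le hB0) h3 (Nat.cast_nonneg _) hB0
    _ = K * (2 ^ 40 * (4 : ℝ) ^ (5 / 8 : ℝ)) * C * (N : ℝ) ^ (5 / 8 + ε) := by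
        rw [Real.mul_rpow (by norm_num) hN0.le]
        have h4 : (N : ℝ) ^ (5 / 8 + ε) =
            (N : ℝ) ^ (ε / 2) * (N : ℝ) ^ (5 / 8 : ℝ) * (N : ℝ) ^ (ε / 2) := by
          rw [← Real.rpow_add hN0, ← Real.rpow_add hN0]
          congr 1
          ring
        rw [h4]
        ring

end H38.HF
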