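import Pool.Agent.H38.HF.Kb
import Pool.Agent.H38.HF.Sym58
import Pool.Agent.H38.HF.Conf
import Pool.Agent.H38.HF.Lp58

/-!
The exponent `5/8`.
-/

set_option autoImplicit false

namespace H38.HF

open H38.HC H38.HD

theorem main58 (d : ℕ) (hd : 3 ≤ d) (ε : ℝ) (hε : 0 < ε) : ∃ C : ℝ, ∀ N : ℕ, 1 ≤ N →
      (Cubes d N).Finite ∧ ((Cubes d N).ncard : ℝ) ≤ C * (N : ℝ) ^ (5 / 8 + ε) :=
  from_cfg (cfg_of_kb58 lp58 kb) d hd ε hε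

end H38.HF
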